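import Pool.Agent.P.MP_d565f2_an.LS.Defs

set_option autoImplicit false

open MvPolynomial Finset Module

namespace Pool.Agent.P.MP_d565f2_an.LS

section

variable {K A : Type} [Field K] [CommRing A] [Algebra K A]

theorem finite_mul (P Q : Submodule K A) [Module.Finite K P] [Module.Finite K Q] :
    Module.Finite K ↥(P * Q) :=
  Module.Finite.iff_fg.2 ((Module.Finite.iff_fg.1 ‹_›).mul (Module.Finite.iff_fg.1 ‹_›))

theorem finite_pow (P : Submodule K A) [Module.Finite K P] (j : ℕ) :
    Module.Finite K ↥(P ^ j) :=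
  Module.Finite.iff_fg.2 ((Module.Finite.iff_fg.1 ‹_›).pow j)

theorem finrank_mul_le (P Q : Submodule K A) [Module.Finite K P] [Module.Finite K Q] :
    finrank K ↥(P * Q) ≤ finrank K P * finrank K Q := by
  rw [← Submodule.mulMap_range, ← finrank_tensorProduct]
  exact LinearMap.finrank_range_le _

theorem calc_gen (P : Submodule K A) [Module.Finite K P] {n : ℕ} (hP : finrank K P ≤ n) :
    ∃ l : Fin n → A, Submodule.span K (Set.range l) = P := by
  let B := finBasis K P
  refine ⟨fun k => if h : (k : ℕ) < _ then B ⟨k, h⟩ else 0, le_antisymm (Submodule.span_le.2 ?_) ?_⟩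
  · rintro _ ⟨k, rfl⟩
    simp only
    split_ifs
    · exact (B _).2
    · exact P.zero_mem
  · intro x hx
    have := congrArg Subtype.val (B.sum_repr ⟨x, hx⟩)
    rw [Submodule.coe_sum] at this
    rw [show x = _ from this.symm]
    exact Submodule.sum_mem _ fun k _ => Submodule.smul_mem _ _
      (Submodule.subset_span ⟨Fin.castLE hP k, by simp⟩)

theorem calc_split (P : Submodule K A) [Module.Finite K P] {n : ℕ} (hP : finrank K P ≤ n + 1) :
    ∃ (t : A) (P' : Submodule K A), Module.Finite K P' ∧ finrank K P' ≤ n ∧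
      P = Submodule.span K {t} ⊔ P' := by
  obtain ⟨l, rfl⟩ := calc_gen P hP
  exact ⟨l 0, Submodule.span K (Set.range fun k : Fin n => l k.succ),
    Module.Finite.span_of_finite K (Set.finite_range _),
    (finrank_range_le_card _).trans (by simp), by
      rw [← Submodule.span_union, Fin.range_fin_succ]; rfl⟩

theorem calc_one (t : A) : finrank K (Submodule.span K {t}) ≤ 1 :=
  (finrank_span_le_card _).trans (by simp)

theorem calc_succ {m : ℕ} (ih : ∀ (P : Submodule K A) [Module.Finite K P], finrank K P ≤ m + 1 →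
      ∀ j, finrank K ↥(P ^ j) ≤ (j + 1) ^ m) (P : Submodule K A) [Module.Finite K P]
    (hP : finrank K P ≤ m + 2) (j : ℕ) :
    finrank K ↥(P ^ (j + 1)) ≤ finrank K ↥(P ^ j) + (j + 2) ^ m := by
  obtain ⟨t, P', _, h1, h2⟩ := calc_split P hP
  have h3 : P' ≤ P := h2 ▸ le_sup_right
  have key : ∀ j, P ^ (j + 1) ≤ Submodule.span K {t} * P ^ j ⊔ P' ^ (j + 1) := fun j => by
    induction j with
    | zero => simpa using h2.le
    | succ j ih =>
      rw [pow_succ]
      refine (mul_le_mul_left ih _).trans ?_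
      rw [Submodule.sup_mul, mul_assoc, ← pow_succ]
      refine sup_le le_sup_left ((mul_le_mul_right h2.le _).trans ?_)
      rw [Submodule.mul_sup, ← pow_succ, mul_comm]
      exact sup_le_sup_right (mul_le_mul_right (pow_le_pow_left' h3 _) _) _
  have := finite_pow P j
  have := finite_pow P' (j + 1)
  have := finite_mul (Submodule.span K {t}) (P ^ j)
  have h4 := Submodule.finrank_add_le_finrank_add_finrank (Submodule.span K {t} * P ^ j)
    (P' ^ (j + 1))
  have h5 := (finrank_mul_le (Submodule.span K {t}) (P ^ j)).trans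
    (Nat.mul_le_mul_right _ (calc_one t))
  have h6 : finrank K ↥(P' ^ (j + 1)) ≤ (j + 2) ^ m := ih P' h1 (j + 1)
  have h7 := Submodule.finrank_mono (key j)
  omega

theorem finrank_pow_le (P : Submodule K A) [Module.Finite K P] {m : ℕ} (hP : finrank K P ≤ m + 1)
    (j : ℕ) : finrank K ↥(P ^ j) ≤ (j + 1) ^ m := by
  have h0 : ∀ P : Submodule K A, finrank K ↥(P ^ 0) ≤ 1 := fun P => by
    rw [pow_zero, Submodule.one_eq_span]; exact calc_one 1
  induction m generalizing P j with
  | zero =>
    induction j with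
    | zero => exact h0 P
    | succ j ih =>
      have := finite_pow P j
      rw [pow_succ]
      exact (finrank_mul_le _ _).trans (Nat.mul_le_mul ih hP)
  | succ m ih =>
    induction j with
    | zero => simpa using h0 P
    | succ j ihj =>
      have h1 := calc_succ (fun P _ h j => ih P h j) P hP j
      have h2 : (j + 1) ^ (m + 1) ≤ (j + 2) ^ m * (j + 1) := by
        rw [pow_succ]; gcongr; omega
      calc _ ≤ (j + 2) ^ m * (j + 1) + (j + 2) ^ m := by omega
        _ = _ := by ring

theorem finrank_pow_succ_le (P : Submodule K A) [Module.Finite K P] {m : ℕ}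
    (hP : finrank K P ≤ m + 2) (j : ℕ) :
    finrank K ↥(P ^ (j + 1)) ≤ finrank K ↥(P ^ j) + (j + 2) ^ m :=
  calc_succ (fun P _ h j => finrank_pow_le P h j) P hP j

theorem calc_mono {V : Submodule K A} (h1 : (1 : A) ∈ V) {i j : ℕ} (h : i ≤ j) : V ^ i ≤ V ^ j := by
  induction h with
  | refl => exact le_rfl
  | step _ ih =>
    exact ih.trans fun a ha => by rw [pow_succ, ← mul_one a]; exact Submodule.mul_mem_mul ha h1

theorem calc_prod {ι : Type} {P : Submodule K A} (s : Finset ι) {x : ι → A} (h : ∀ i, x i ∈ P) :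
    ∏ i ∈ s, x i ∈ P ^ s.card := by
  classical
  induction s using Finset.induction_on with
  | empty => rw [prod_empty, card_empty, pow_zero]; exact Submodule.one_le.1 le_rfl
  | insert i s hi ih =>
    rw [prod_insert hi, card_insert_of_notMem hi, pow_succ']
    exact Submodule.mul_mem_mul (h i) ih

theorem calc_words {ι : Type} (l : ι → A) (n : ℕ) : Submodule.span K (Set.range l) ^ n ≤
    Submodule.span K (Set.range fun f : Fin n → ι => ∏ i, l (f i)) := by
  induction n with
  | zero =>
    rw [pow_zero, Submodule.one_eq_span]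
    exact Submodule.span_mono (Set.singleton_subset_iff.2 ⟨Fin.elim0, by simp⟩)
  | succ n ih =>
    rw [pow_succ']
    refine (mul_le_mul_right ih _).trans ?_
    rw [Submodule.span_mul_span]
    refine Submodule.span_mono ?_
    rintro _ ⟨_, ⟨k, rfl⟩, _, ⟨f, rfl⟩, rfl⟩
    exact ⟨Fin.cons k f, by simp [Fin.prod_univ_succ]⟩

theorem growth_of_red (V P : Submodule K A) [Module.Finite K V] (h1 : (1 : A) ∈ V) (hPV : P ≤ V)
    {m : ℕ} (hP : finrank K P ≤ m + 1) {D : ℕ} (h : V ^ (D + 1) ≤ P * V ^ D) (Y μ : ℕ) :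
    finrank K ↥(V ^ (μ * Y)) ≤ (μ + 1) ^ m * finrank K ↥(V ^ (D + (m + 1) * Y)) := by
  classical
  have := Submodule.finiteDimensional_of_le hPV
  have h2 : ∀ k, V ^ (D + k) ≤ P ^ k * V ^ D := fun k => by
    induction k with
    | zero => simp
    | succ k ih =>
      rw [← add_assoc, pow_succ]
      refine (mul_le_mul_left ih _).trans ?_
      rw [mul_assoc, ← pow_succ, pow_succ P, mul_assoc]
      exact mul_le_mul_right h _
  obtain ⟨l, hl⟩ := calc_gen P hP
  have hlP : ∀ i, l i ∈ P := fun i => hl ▸ Submodule.subset_span ⟨i, rfl⟩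
  set T := Submodule.span K (Set.range fun i => l i ^ Y)
  have : Module.Finite K T := Module.Finite.span_of_finite K (Set.finite_range _)
  have h3 : P ^ (m * Y + Y) ≤ T * P ^ (m * Y) := by
    refine (hl ▸ calc_words l _ : P ^ (m * Y + Y) ≤ _).trans (Submodule.span_le.2 ?_)
    rintro _ ⟨f, rfl⟩
    obtain ⟨i, -, hi⟩ := exists_le_card_fiber_of_mul_le_card_of_maps_to (s := univ) (t := univ)
      (f := f) (n := Y) (fun _ _ => mem_univ _) univ_nonempty (by simp [add_mul])
    obtain ⟨s, hs, hc⟩ := exists_subset_card_eq hi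
    have e : ∏ k ∈ s, l (f k) = l i ^ Y :=
      (prod_congr rfl fun k hk => by rw [(mem_filter.1 (hs hk)).2]).trans
        ((prod_const (l i)).trans (congrArg _ hc))
    have e' : sᶜ.card = m * Y := by simp [card_compl, hc]
    simp only [← prod_mul_prod_compl s, e]
    exact Submodule.mul_mem_mul (Submodule.subset_span ⟨i, rfl⟩)
      ((congrArg (P ^ ·) e').le (calc_prod sᶜ fun k => hlP (f k)))
  have h4 : ∀ μ, P ^ (m * Y + μ * Y) ≤ T ^ μ * P ^ (m * Y) := fun μ => by
    induction μ with
    | zero => simp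
    | succ μ ih =>
      rw [add_mul, one_mul, ← add_assoc, pow_add]
      refine (mul_le_mul_left ih _).trans ?_
      rw [mul_assoc, ← pow_add, pow_succ T, mul_assoc]
      exact mul_le_mul_right h3 _
  have h5 : V ^ (μ * Y) ≤ T ^ μ * V ^ (D + (m + 1) * Y) := by
    refine (calc_mono h1 (by omega)).trans ((h2 (m * Y + μ * Y)).trans
      ((mul_le_mul_left (h4 μ) _).trans ?_))
    rw [mul_assoc]
    refine mul_le_mul_right ((mul_le_mul_left (pow_le_pow_left' hPV _) _).trans ?_) _
    rw [← pow_add]
    exact calc_mono h1 (by rw [add_mul]; omega)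
  have := finite_pow T μ
  have := finite_pow V (D + (m + 1) * Y)
  have := finite_mul (T ^ μ) (V ^ (D + (m + 1) * Y))
  exact (Submodule.finrank_mono h5).trans ((finrank_mul_le _ _).trans (Nat.mul_le_mul_right _
    (finrank_pow_le T ((finrank_range_le_card _).trans (by simp)) μ)))

theorem calc_red (T P V : Submodule K A) (h : V = T ⊔ P) (h2 : T * T ≤ P * V) (M : ℕ) :
    V ^ (M + 1) ≤ P ^ M * V := by
  have h3 : V * V ≤ P * V := by
    refine (mul_le_mul_left h.le _).trans ?_
    rw [Submodule.sup_mul]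
    refine sup_le ((mul_le_mul_right h.le _).trans ?_) le_rfl
    rw [Submodule.mul_sup]
    exact sup_le h2 ((mul_comm _ _).le.trans (mul_le_mul_right (le_sup_left.trans h.ge) _))
  induction M with
  | zero => simp
  | succ M ih =>
    rw [pow_succ]
    refine (mul_le_mul_left ih _).trans ?_
    rw [mul_assoc, pow_succ, mul_assoc]
    exact mul_le_mul_right h3 _

end

theorem sphere_rank {A ι : Type} [CommRing A] [Algebra ℚ A] [Fintype ι] (z : ι → A) {r : ℕ}
    (hr : finrank ℚ (Submodule.span ℚ (Set.range z)) ≤ r + 1)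
    (hq : ∑ i, z i ^ 2 ∈ Submodule.span ℚ (Set.range z)) (M : ℕ) :
    finrank ℚ ↥((1 ⊔ Submodule.span ℚ (Set.range z)) ^ (M + 1)) ≤ (r + 2) * (M + 1) ^ r := by
  have := Module.Finite.span_of_finite ℚ (Set.finite_range z)
  have hz : ∀ i, z i ∈ Submodule.span ℚ (Set.range z) := fun i => Submodule.subset_span ⟨i, rfl⟩
  obtain ⟨t, E', _, h1, h2⟩ := calc_split _ hr
  have f1 : Module.Finite ℚ (1 : Submodule ℚ A) := pow_zero E' ▸ finite_pow E' 0
  have r1 : finrank ℚ (1 : Submodule ℚ A) ≤ 1 := by rw [Submodule.one_eq_span]; exact calc_one 1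
  have o1 : (1 : A) ∈ (1 : Submodule ℚ A) := Submodule.one_le.1 le_rfl
  have ht : t ∈ Submodule.span ℚ (Set.range z) :=
    h2.ge (Submodule.mem_sup_left (Submodule.mem_span_singleton_self t))
  have h7 : (1 ⊔ Submodule.span ℚ (Set.range z)) ^ (M + 1) ≤
      (1 ⊔ E') ^ M * (1 ⊔ Submodule.span ℚ (Set.range z)) := by
    choose a l hl using fun i => Submodule.mem_sup.1 (h2.le (hz i))
    choose b hb using fun i => Submodule.mem_span_singleton.1 (l i)
    choose c hc e using hl
    by_cases h0 : ∑ i, b i ^ 2 = 0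
    · refine calc_red ⊥ _ _ ?_ (by simp) M
      rw [bot_sup_eq]
      refine congrArg _ (le_antisymm (Submodule.span_le.2 ?_) (le_sup_right.trans h2.ge))
      rintro _ ⟨i, rfl⟩
      have := (sum_eq_zero_iff_of_nonneg fun i _ => sq_nonneg (b i)).1 h0 i (mem_univ i)
      rw [← e i, ← hb i, pow_eq_zero_iff two_ne_zero |>.1 this, zero_smul, zero_add]
      exact hc i
    refine calc_red (Submodule.span ℚ {t}) _ _ ((congrArg _ h2).trans (sup_left_comm _ _ _)) ?_ M
    rw [Submodule.span_mul_span, Set.singleton_mul_singleton, Submodule.span_singleton_le_iff_mem,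
      ← Submodule.smul_mem_iff _ h0, show (∑ i, b i ^ 2) • (t * t) =
        1 * ∑ i, z i ^ 2 - ∑ i, c i * (z i + b i • t) by
          rw [sum_smul, one_mul, ← sum_sub_distrib]
          refine sum_congr rfl fun i _ => ?_
          rw [← e i, ← hb i]
          simp only [Algebra.smul_def, map_pow]
          ring]
    exact Submodule.sub_mem _
      (Submodule.mul_mem_mul (Submodule.mem_sup_left o1) (Submodule.mem_sup_right hq))
      (Submodule.sum_mem _ fun i _ => Submodule.mul_mem_mul (Submodule.mem_sup_right (hc i))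
        (Submodule.mem_sup_right (Submodule.add_mem _ (hz i) (Submodule.smul_mem _ _ ht))))
  have := finite_pow (1 ⊔ E') M
  have := finite_mul ((1 ⊔ E') ^ M) (1 ⊔ Submodule.span ℚ (Set.range z))
  have a1 := Submodule.finrank_add_le_finrank_add_finrank (1 : Submodule ℚ A) E'
  have a2 := Submodule.finrank_add_le_finrank_add_finrank (1 : Submodule ℚ A)
    (Submodule.span ℚ (Set.range z))
  rw [mul_comm]
  exact (Submodule.finrank_mono h7).trans ((finrank_mul_le _ _).trans
    (Nat.mul_le_mul (finrank_pow_le _ (by omega) M) (by omega)))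

end Pool.Agent.P.MP_d565f2_an.LS
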