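import Pool.Agent.P.MP_d565f2_an.LS.Calc

set_option autoImplicit false

open MvPolynomial Finset Module

namespace Pool.Agent.P.MP_d565f2_an.LS

variable {σ : Type} [Fintype σ] [DecidableEq σ]

omit [Fintype σ] in
theorem Coprime_mon (m : σ →₀ ℕ) (c : ℚ) :
    (monomial m c : MvPolynomial σ ℚ) = c • (m.toMultiset.map X).prod := by
  rw [monomial_eq, Finset.prod_multiset_map_count, Finsupp.toFinset_toMultiset, smul_eq_C_mul]
  simp [Finsupp.prod]

omit [Fintype σ] [DecidableEq σ] in
theorem Coprime_card (m : σ →₀ ℕ) : m.toMultiset.card = m.degree := by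
  rw [Finsupp.card_toMultiset]; rfl

omit [Fintype σ] [DecidableEq σ] in
theorem Coprime_prod {S : Type} [CommRing S] (a b : σ → S) (s : Multiset σ) :
    (s.map fun j => Polynomial.C (a j) + Polynomial.C (b j) * Polynomial.X).prod.natDegree
        ≤ s.card ∧
      (s.map fun j => Polynomial.C (a j) + Polynomial.C (b j) * Polynomial.X).prod.coeff s.card
        = (s.map b).prod := by
  induction s using Multiset.induction_on with
  | empty => simp
  | cons j s ih =>
    have h1 : (Polynomial.C (a j) + Polynomial.C (b j) * Polynomial.X).natDegree ≤ 1 := by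
      compute_degree
    simp only [Multiset.map_cons, Multiset.prod_cons, Multiset.card_cons]
    refine ⟨Polynomial.natDegree_mul_le.trans (by omega), ?_⟩
    rw [add_comm s.card 1, Polynomial.coeff_mul_add_eq_of_natDegree_le h1 ih.1, ih.2]
    simp

omit [Fintype σ] in
theorem Coprime_line {S : Type} [CommRing S] [Algebra ℚ S] (a b : σ → S) {q : MvPolynomial σ ℚ}
    {n : ℕ} (hq : q.totalDegree ≤ n) :
    (aeval (fun j => Polynomial.C (a j) + Polynomial.C (b j) * Polynomial.X) q).natDegree ≤ n ∧
      (aeval (fun j => Polynomial.C (a j) + Polynomial.C (b j) * Polynomial.X) q).coeff n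
        = aeval b (homogeneousComponent n q) := by
  have hm : ∀ m ∈ q.support, m.degree ≤ n := fun m hm => (le_totalDegree hm).trans hq
  have key : ∀ (m : σ →₀ ℕ) (c : ℚ),
      aeval (fun j => Polynomial.C (a j) + Polynomial.C (b j) * Polynomial.X) (monomial m c)
        = c • (m.toMultiset.map fun j =>
          Polynomial.C (a j) + Polynomial.C (b j) * Polynomial.X).prod := fun m c => by
    rw [Coprime_mon, map_smul, map_multiset_prod, Multiset.map_map]
    simp
  constructor
  · rw [q.as_sum, map_sum]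
    refine Polynomial.natDegree_sum_le_of_forall_le _ _ fun m h => ?_
    rw [key]
    refine (Polynomial.natDegree_smul_le _ _).trans ((Coprime_prod a b _).1.trans ?_)
    rw [Coprime_card]; exact hm m h
  · rw [homogeneousComponent_apply, Finset.sum_filter, map_sum]
    conv_lhs => rw [q.as_sum, map_sum, Polynomial.finsetSum_coeff]
    refine Finset.sum_congr rfl fun m h => ?_
    rw [key, Polynomial.coeff_smul]
    split_ifs with h1
    · rw [← h1, ← Coprime_card, (Coprime_prod a b _).2, Coprime_mon, map_smul, map_multiset_prod,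
        Multiset.map_map]
      simp
    · rw [Polynomial.coeff_eq_zero_of_natDegree_lt, smul_zero, map_zero]
      refine lt_of_le_of_lt (Coprime_prod a b _).1 ?_
      rw [Coprime_card]
      exact lt_of_le_of_ne (hm m h) h1

/-- The substitution `X ↦ X + t O`. -/
noncomputable def Coprime_sh (O : σ → ℚ) :
    MvPolynomial σ ℚ →ₐ[ℚ] Polynomial (MvPolynomial σ ℚ) :=
  aeval fun j => Polynomial.C (X j) + Polynomial.C (C (O j)) * Polynomial.X

/-- The same on polynomials in `t`. -/
noncomputable def Coprime_tau (O : σ → ℚ) :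
    Polynomial (MvPolynomial σ ℚ) →+* Polynomial (MvPolynomial σ ℚ) :=
  Polynomial.eval₂RingHom (Coprime_sh O).toRingHom Polynomial.X

omit [Fintype σ] [DecidableEq σ] in
theorem Coprime_tau_inv (O O' : σ → ℚ) (h : ∀ j, O j + O' j = 0) :
    (Coprime_tau O).comp (Coprime_tau O') = RingHom.id _ := by
  refine Polynomial.ringHom_ext' (MvPolynomial.ringHom_ext (fun c => ?_) fun j => ?_) ?_
  · simp [Coprime_tau, Coprime_sh]
  · have h1 : O j = -O' j := eq_neg_of_add_eq_zero_left (h j)
    simp [Coprime_tau, Coprime_sh, h1, add_assoc]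
    ring
  · simp [Coprime_tau]

omit [Fintype σ] [DecidableEq σ] in
theorem Coprime_prime (O : σ → ℚ) {f : MvPolynomial σ ℚ} (hf : Prime f) :
    Prime (Coprime_sh O f) := by
  let e : Polynomial (MvPolynomial σ ℚ) ≃+* Polynomial (MvPolynomial σ ℚ) :=
    RingEquiv.ofRingHom (Coprime_tau O) (Coprime_tau (-O))
      (Coprime_tau_inv _ _ fun j => by simp) (Coprime_tau_inv _ _ fun j => by simp)
  have h1 : e (Polynomial.C f) = Coprime_sh O f := by simp [e, Coprime_tau]
  rw [← h1]
  exact (MulEquiv.prime_iff e.toMulEquiv).2 (Polynomial.prime_C_iff.2 hf)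

omit [Fintype σ] [DecidableEq σ] in
theorem Coprime_map (O O' : σ → ℚ) (q : MvPolynomial σ ℚ) :
    (Coprime_sh O q).map (eval O') =
      aeval (fun j => Polynomial.C (O' j) + Polynomial.C (O j) * Polynomial.X) q := by
  induction q using MvPolynomial.induction_on with
  | C a => simp [Coprime_sh]
  | add p q hp hq => simp only [map_add, Polynomial.map_add, hp, hq]
  | mul_X p j hp =>
    simp only [map_mul, Polynomial.map_mul, hp]
    simp [Coprime_sh]

omit [Fintype σ] [DecidableEq σ] in
theorem Coprime_zero (O : σ → ℚ) (q : MvPolynomial σ ℚ) : (Coprime_sh O q).eval 0 = q := by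
  induction q using MvPolynomial.induction_on with
  | C a => simp [Coprime_sh]
  | add p q hp hq => simp only [map_add, Polynomial.eval_add, hp, hq]
  | mul_X p j hp =>
    simp only [map_mul, Polynomial.eval_mul, hp]
    simp [Coprime_sh]

omit [Fintype σ] [DecidableEq σ] in
theorem Coprime_pt {c : MvPolynomial σ ℚ} (hc : c ≠ 0) : ∃ O : σ → ℚ, eval O c ≠ 0 := by
  by_contra h
  push Not at h
  exact hc (MvPolynomial.funext fun x => by rw [h x, map_zero])

theorem Coprime_bez {R : Type} [CommRing R] [IsDomain R] {φ ψ : Polynomial R} (hm : φ.Monic)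
    (hp : Prime φ) (h : ¬ φ ∣ ψ) :
    ∃ (c : R) (a b : Polynomial R), c ≠ 0 ∧ a * φ + b * ψ = Polynomial.C c := by
  have := AdjoinRoot.isDomain_of_prime hp
  have := hm.finite_adjoinRoot
  have h0 : AdjoinRoot.mk φ ψ ≠ 0 := fun h1 => h (AdjoinRoot.mk_eq_zero.1 h1)
  have h1 := Ideal.comap_ne_bot_of_integral_mem (R := R) h0
    (Ideal.mem_span_singleton_self _) (Algebra.IsIntegral.isIntegral _)
  obtain ⟨c, hc, hc0⟩ := Submodule.exists_mem_ne_zero_of_ne_bot h1
  obtain ⟨b, hb⟩ := Ideal.mem_span_singleton'.1 (Ideal.mem_comap.1 hc)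
  obtain ⟨b, rfl⟩ := AdjoinRoot.mk_surjective b
  have h2 : AdjoinRoot.mk φ (Polynomial.C c - b * ψ) = 0 := by
    rw [map_sub, map_mul, hb, AdjoinRoot.mk_C]; exact sub_self _
  obtain ⟨a, ha⟩ := AdjoinRoot.mk_eq_zero.1 h2
  exact ⟨c, a, b, hc0, by linear_combination -ha⟩

omit [Fintype σ] [DecidableEq σ] in
theorem Coprime_pos {f : MvPolynomial σ ℚ} (hf : Prime f) : f.totalDegree ≠ 0 := by
  intro h
  rw [totalDegree_eq_zero_iff_eq_C] at h
  have h0 : coeff 0 f ≠ 0 := fun h1 => hf.ne_zero (by rw [h, h1, map_zero])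
  exact hf.not_isUnit (h ▸ (IsUnit.mk0 _ h0).map C)

omit [Fintype σ] in
theorem Coprime_diff {A : Type} [CommRing A] [Algebra ℚ A] (V P : Submodule ℚ A) (h1 : (1 : A) ∈ V)
    (a b : σ → A) (ha : ∀ j, a j ∈ V) (hb : ∀ j, b j ∈ V) (hab : ∀ j, a j - b j ∈ P)
    {q : MvPolynomial σ ℚ} {n : ℕ} (hq : q.totalDegree ≤ n + 1) :
    aeval a q - aeval b q ∈ P * V ^ n := by
  have hV : ∀ (s : Multiset σ) (n : ℕ), s.card ≤ n → (s.map a).prod ∈ V ^ n := by
    intro s
    induction s using Multiset.induction_on with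
    | empty =>
      intro n _
      simpa using Submodule.pow_mem_pow V h1 n
    | cons j s ih =>
      intro n hn
      rw [Multiset.card_cons] at hn
      obtain ⟨n, rfl⟩ : ∃ k, n = k + 1 := ⟨n - 1, by omega⟩
      rw [Multiset.map_cons, Multiset.prod_cons, pow_succ, mul_comm (a j)]
      exact Submodule.mul_mem_mul (ih n (by omega)) (ha j)
  have hD : ∀ (s : Multiset σ) (n : ℕ), s.card ≤ n + 1 →
      (s.map a).prod - (s.map b).prod ∈ P * V ^ n := by
    intro s
    induction s using Multiset.induction_on with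
    | empty => intro n _; simp
    | cons j s ih =>
      intro n hn
      rw [Multiset.card_cons] at hn
      have e : (Multiset.map a (j ::ₘ s)).prod - (Multiset.map b (j ::ₘ s)).prod
          = (a j - b j) * (s.map a).prod + ((s.map a).prod - (s.map b).prod) * b j := by
        simp only [Multiset.map_cons, Multiset.prod_cons]; ring
      rw [e]
      refine add_mem (Submodule.mul_mem_mul (hab j) (hV s n (by omega))) ?_
      rcases n with _ | n
      · obtain rfl : s = 0 := Multiset.card_eq_zero.1 (by omega)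
        simp
      · rw [pow_succ, ← mul_assoc]
        exact Submodule.mul_mem_mul (ih n (by omega)) (hb j)
  rw [q.as_sum, map_sum, map_sum, ← Finset.sum_sub_distrib]
  refine Submodule.sum_mem _ fun m hm => ?_
  rw [Coprime_mon, map_smul, map_smul, ← smul_sub, map_multiset_prod, map_multiset_prod,
    Multiset.map_map, Multiset.map_map]
  refine Submodule.smul_mem _ _ ?_
  have := hD m.toMultiset n (by rw [Coprime_card]; exact (le_totalDegree hm).trans hq)
  simpa using this

theorem Coprime_uni {A : Type} [CommRing A] [Algebra ℚ A] (V : Submodule ℚ A) (h1 : (1 : A) ∈ V)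
    {T : A} (hT : T ∈ V) {h : Polynomial ℚ} {n : ℕ} (hn : h.natDegree ≤ n) :
    Polynomial.aeval T h ∈ V ^ n := by
  rw [Polynomial.aeval_eq_sum_range]
  refine Submodule.sum_mem _ fun i hi => Submodule.smul_mem _ _ ?_
  obtain ⟨k, rfl⟩ : ∃ k, n = i + k := ⟨n - i, by have := Finset.mem_range.1 hi; omega⟩
  rw [pow_add]
  simpa using Submodule.mul_mem_mul (Submodule.pow_mem_pow V hT i) (Submodule.pow_mem_pow V h1 k)

/- Choose O with (top homogeneous component of f)(O) ≠ 0 (O ≠ 0 as f is not constant).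
φ = f(X + t O), ψ = g(X + t O) in (MvPolynomial σ ℚ)[t]: φ is the image of the prime C f under the
automorphism X ↦ X + t O, has constant leading coefficient in degree totalDegree f, and φ ∤ ψ
(put t = 0).  Gauss lemma over the fraction field gives a φ + b ψ = C c with c ≠ 0 (or use
Polynomial.resultant); choose O' with c(O') ≠ 0. -/
theorem exists_line {f g : MvPolynomial σ ℚ} (hf : Prime f) (hfg : ¬ f ∣ g) :
    ∃ O O' : σ → ℚ, O ≠ 0 ∧
      (aeval (fun j => Polynomial.C (O' j) + Polynomial.C (O j) * Polynomial.X) f).natDegree =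
        f.totalDegree ∧
      IsCoprime (aeval (fun j => Polynomial.C (O' j) + Polynomial.C (O j) * Polynomial.X) f)
        (aeval (fun j => Polynomial.C (O' j) + Polynomial.C (O j) * Polynomial.X) g) := by
  have hh : homogeneousComponent f.totalDegree f ≠ 0 := by
    obtain ⟨m, hm, hd⟩ := Finset.exists_mem_eq_sup f.support
      (support_nonempty.2 hf.ne_zero) fun s => s.sum fun _ e => e
    intro h
    have h1 := congrArg (coeff m) h
    rw [coeff_homogeneousComponent, if_pos (by rw [totalDegree, hd]; rfl), coeff_zero] at h1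
    exact mem_support_iff.1 hm h1
  obtain ⟨O, hO⟩ := Coprime_pt hh
  set u := eval O (homogeneousComponent f.totalDegree f) with hu
  have hdeg : ∀ O' : σ → ℚ,
      (aeval (fun j => Polynomial.C (O' j) + Polynomial.C (O j) * Polynomial.X) f).natDegree =
        f.totalDegree := fun O' => by
    obtain ⟨h1, h2⟩ := Coprime_line O' O (q := f) le_rfl
    refine Polynomial.natDegree_eq_of_le_of_coeff_ne_zero h1 ?_
    rw [h2, aeval_eq_eval]
    exact hO
  obtain ⟨h1, h2⟩ := Coprime_line (S := MvPolynomial σ ℚ) X (fun j => C (O j)) (q := f) le_rfl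
  have h3 : (Coprime_sh O f).coeff f.totalDegree = C u := by
    refine h2.trans ?_
    rw [hu]
    generalize homogeneousComponent f.totalDegree f = w
    induction w using MvPolynomial.induction_on with
    | C a => simp
    | add p q hp hq => simp only [map_add, hp, hq]
    | mul_X p j hp => simp only [map_mul, hp]; simp
  have hun : IsUnit (Polynomial.C (C u⁻¹) : Polynomial (MvPolynomial σ ℚ)) :=
    ((IsUnit.mk0 _ (inv_ne_zero hO)).map C).map Polynomial.C
  have hm : (Polynomial.C (C u⁻¹) * Coprime_sh O f).Monic := by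
    refine Polynomial.monic_of_natDegree_le_of_coeff_eq_one f.totalDegree
      ((Polynomial.natDegree_C_mul_le _ _).trans h1) ?_
    rw [Polynomial.coeff_C_mul, h3, ← map_mul, inv_mul_cancel₀ hO, map_one]
  have hp : Prime (Polynomial.C (C u⁻¹) * Coprime_sh O f) :=
    (associated_unit_mul_right _ _ hun).prime (Coprime_prime O hf)
  obtain ⟨c, a, b, hc, hab⟩ := Coprime_bez (ψ := Coprime_sh O g) hm hp fun h => hfg (by
    have h4 := Polynomial.eval_dvd (x := 0) ((dvd_mul_left _ _).trans h)
    rwa [Coprime_zero, Coprime_zero] at h4)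
  obtain ⟨O', hO'⟩ := Coprime_pt hc
  refine ⟨O, O', ?_, hdeg O', ?_⟩
  · rintro rfl
    apply Coprime_pos hf
    rw [← hdeg O']
    have h5 := aeval_natDegree_le f le_rfl (n := 0)
      (fun j => Polynomial.C (O' j) + Polynomial.C ((0 : σ → ℚ) j) * Polynomial.X) fun j => by simp
    omega
  · have h4 := congrArg (Polynomial.map (eval O')) hab
    simp only [Polynomial.map_add, Polynomial.map_mul, Coprime_map, Polynomial.map_C] at h4
    refine ⟨Polynomial.C (eval O' c)⁻¹ * (a.map (eval O') * Polynomial.C (eval O' (C u⁻¹))),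
      Polynomial.C (eval O' c)⁻¹ * b.map (eval O'), ?_⟩
    have h5 : Polynomial.C (eval O' c)⁻¹ * Polynomial.C (eval O' c) = 1 := by
      rw [← map_mul, inv_mul_cancel₀ hO', map_one]
    linear_combination Polynomial.C (eval O' c)⁻¹ * h4 + h5

/- O i1 ≠ 0, t = (y i1 - O' i1) / O i1, P = span of y j - O' j - O j t (j ≠ i1).  For q of degree
≤ D + 1, ev q - (q on the line)(t) ∈ P * V1 ^ D.  A univariate polynomial of degree ≤ 2 e + 1 is
A f_line + B g_line with deg B < deg f_line and deg A ≤ 2 e + 1 - deg f; A(t) f + B(t) g vanishes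
on W and has degree ≤ 2 e + 1. -/
theorem coprime_red {W : Finset (σ → ℤ)} {f g : MvPolynomial σ ℚ} (hf : Prime f) (hfg : ¬ f ∣ g)
    (hfW : ∀ x ∈ W, eval (cst x) f = 0) (hgW : ∀ x ∈ W, eval (cst x) g = 0) {e : ℕ}
    (hfe : f.totalDegree ≤ e) (hge : g.totalDegree ≤ e) :
    ∃ P : Submodule ℚ (W → ℚ), P ≤ V1 W ∧ finrank ℚ P ≤ Fintype.card σ - 1 ∧
      V1 W ^ (2 * e + 1) ≤ P * V1 W ^ (2 * e) := by
  obtain ⟨O, O', hO, hd, a, b, hab⟩ := exists_line hf hfg
  obtain ⟨i1, hi⟩ : ∃ i, O i ≠ 0 := Function.ne_iff.1 hO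
  have h1 := one_mem_V1 W
  let y : σ → W → ℚ := fun j x => ((x.1 j : ℤ) : ℚ)
  have hy : ∀ j, y j ∈ V1 W := coord_mem_V1 W
  let T : W → ℚ := (O i1)⁻¹ • (y i1 - O' i1 • 1)
  have hT : T ∈ V1 W := Submodule.smul_mem _ _ (sub_mem (hy _) (Submodule.smul_mem _ _ h1))
  let z : σ → W → ℚ := fun j => O' j • 1 + O j • T
  have hz : ∀ j, z j ∈ V1 W := fun j =>
    add_mem (Submodule.smul_mem _ _ h1) (Submodule.smul_mem _ _ hT)
  let P : Submodule ℚ (W → ℚ) :=
    Submodule.span ℚ (Set.range fun j : {j // j ≠ i1} => y j - z j)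
  have hP : ∀ j, y j - z j ∈ P := fun j => by
    by_cases hj : j = i1
    · subst hj
      have : y j - z j = 0 := by
        simp only [z, T, smul_smul, mul_inv_cancel₀ hi, one_smul]
        abel
      rw [this]; exact zero_mem _
    · exact Submodule.subset_span ⟨⟨j, hj⟩, rfl⟩
  have hl : ∀ q : MvPolynomial σ ℚ, Polynomial.aeval T
      (aeval (fun j => Polynomial.C (O' j) + Polynomial.C (O j) * Polynomial.X) q) = aeval z q := by
    intro q
    rw [← AlgHom.comp_apply, comp_aeval]
    congr 2
    funext j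
    simp [z, Algebra.algebraMap_eq_smul_one]
  have hv : ∀ {q : MvPolynomial σ ℚ} {n : ℕ}, (∀ x ∈ W, eval (cst x) q = 0) →
      q.totalDegree ≤ n + 1 → aeval z q ∈ P * V1 W ^ n := fun {q n} hq hn => by
    have h2 := Coprime_diff (V1 W) P h1 y z hy hz hP hn
    have h3 : aeval y q = 0 := funext fun x => (ev_apply W q x).trans (hq x.1 x.2)
    rw [h3, zero_sub] at h2
    exact neg_mem_iff.1 h2
  refine ⟨P, Submodule.span_le.2 ?_, ?_, fun φ hφ => ?_⟩
  · rintro _ ⟨j, rfl⟩
    exact sub_mem (hy _) (hz _)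
  · refine (finrank_range_le_card _).trans (le_of_eq ?_)
    simp
  obtain ⟨q, hq, rfl⟩ := exists_of_mem W hφ
  have h2 := Coprime_diff (V1 W) P h1 y z hy hz hP hq
  have h3 : ev W q = (aeval y q - aeval z q) + aeval z q := (sub_add_cancel _ _).symm
  rw [h3]
  refine add_mem h2 ?_
  have hq1 := (Coprime_line O' O hq).1
  have hg1 := (Coprime_line O' O hge).1
  have hF := hl f
  have hG := hl g
  rw [← hl]
  generalize aeval (fun j => Polynomial.C (O' j) + Polynomial.C (O j) * Polynomial.X) q = h at *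
  generalize aeval (fun j => Polynomial.C (O' j) + Polynomial.C (O j) * Polynomial.X) f = F at *
  generalize aeval (fun j => Polynomial.C (O' j) + Polynomial.C (O j) * Polynomial.X) g = G at *
  obtain ⟨d, hd'⟩ : ∃ d, f.totalDegree = d + 1 :=
    ⟨f.totalDegree - 1, by have := Coprime_pos hf; omega⟩
  have hF0 : F ≠ 0 := by rintro rfl; simp at hd; omega
  have hB : (h * b % F).natDegree ≤ e :=
    (Polynomial.natDegree_mod_lt _ (by omega)).le.trans (by omega)
  have hB' : (h * b % F).natDegree < F.natDegree := Polynomial.natDegree_mod_lt _ (by omega)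
  have he : (h * a + h * b / F * G) * F = h - h * b % F * G := by
    have := EuclideanDomain.div_add_mod (h * b) F
    linear_combination h * hab + G * this
  have hA : (h * a + h * b / F * G).natDegree ≤ 2 * e - d := by
    by_cases h0 : h * a + h * b / F * G = 0
    · rw [h0]; simp
    · have h4 := Polynomial.natDegree_mul h0 hF0
      have h5 : (h - h * b % F * G).natDegree ≤ 2 * e + 1 :=
        (Polynomial.natDegree_sub_le _ _).trans
          (max_le hq1 (Polynomial.natDegree_mul_le.trans (by omega)))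
      rw [he] at h4
      omega
  rw [← sub_add_cancel h (h * b % F * G), ← he, map_add, map_mul, map_mul, hF, hG]
  refine add_mem ?_ ?_
  · rw [show 2 * e = d + (2 * e - d) by omega, pow_add, ← mul_assoc, mul_comm (Polynomial.aeval T _)]
    exact Submodule.mul_mem_mul (hv hfW hd'.le) (Coprime_uni _ h1 hT hA)
  · rw [two_mul, pow_add, ← mul_assoc, mul_comm (Polynomial.aeval T _)]
    exact Submodule.mul_mem_mul (hv hgW (by omega)) (Coprime_uni _ h1 hT hB)

theorem coprime_growth {W : Finset (σ → ℤ)} {f g : MvPolynomial σ ℚ} (hf : Prime f)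
    (hfg : ¬ f ∣ g) (hfW : ∀ x ∈ W, eval (cst x) f = 0) (hgW : ∀ x ∈ W, eval (cst x) g = 0)
    {e : ℕ} (hfe : f.totalDegree ≤ e) (hge : g.totalDegree ≤ e) {r : ℕ}
    (hr : Fintype.card σ = r + 2) (Y μ : ℕ) :
    LS.hf W (μ * Y) ≤ (μ + 1) ^ r * LS.hf W (2 * e + (r + 1) * Y) := by
  obtain ⟨P, h1, h2, h3⟩ := coprime_red hf hfg hfW hgW hfe hge
  exact growth_of_red (V1 W) P (one_mem_V1 W) h1 (m := r) (by omega) h3 Y μ

end Pool.Agent.P.MP_d565f2_an.LS
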