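import Mathlib

/-! Lattice points on an ellipse: a bound by the square of the divisor function. -/

set_option autoImplicit false

open Finset

namespace Pool.Agent.P.MP_d565f2_an.LS

theorem ell_norm (p : ℕ) [Fact p.Prime] {z : ℤ} (hz : z ≠ 0) :
    ‖(z : PadicAlgCl p)‖ = (p : ℝ)⁻¹ ^ padicValInt p z := by
  rw [← map_intCast (algebraMap ℚ_[p] (PadicAlgCl p)), norm_algebraMap',
    Padic.norm_eq_zpow_neg_valuation (by exact_mod_cast hz), Padic.valuation_intCast, zpow_neg,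
    zpow_natCast, inv_pow]

theorem ell_lev {q x y : ℝ} {a i : ℕ} (h0 : 0 < q) (h1 : q < 1) (hy : y ≤ 1) (hx : x = q ^ i)
    (h : x * y = q ^ a) : i ≤ a ∧ y = q ^ (a - i) := by
  have hi : i ≤ a := by
    rw [← pow_le_pow_iff_right_of_lt_one₀ h0 h1, ← h, hx]
    exact mul_le_of_le_one_right (by positivity) hy
  refine ⟨hi, mul_left_cancel₀ (pow_pos h0 i).ne' ?_⟩
  rw [← pow_add, Nat.add_sub_cancel' hi, ← h, hx]

/-- The local label of a solution. -/
theorem ell_loc (p : ℕ) (hp : p.Prime) (D m : ℕ) (hm : m ≠ 0) : ∃ L : ℤ × ℤ → ℕ,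
    (∀ v : ℤ × ℤ, v.1 ^ 2 + D * v.2 ^ 2 = m → L v ≤ 2 * m.factorization p) ∧
      ∀ v w : ℤ × ℤ, v.1 ^ 2 + D * v.2 ^ 2 = m → w.1 ^ 2 + D * w.2 ^ 2 = m → L v = L w →
        (p : ℤ) ^ m.factorization p ∣ 2 * (v.1 * w.1 + D * v.2 * w.2) := by
  have := Fact.mk hp
  obtain ⟨δ, hδ⟩ := IsAlgClosed.exists_pow_nat_eq (-(D : PadicAlgCl p)) two_pos
  have q0 : (0 : ℝ) < (p : ℝ)⁻¹ := inv_pos.2 (by exact_mod_cast hp.pos)
  have q1 : (p : ℝ)⁻¹ < 1 := inv_lt_one_of_one_lt₀ (by exact_mod_cast hp.one_lt)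
  have hd : ‖δ‖ ≤ 1 := by
    refine (pow_le_one_iff_of_nonneg (norm_nonneg _) two_ne_zero).1 ?_
    rw [← norm_pow, hδ, norm_neg]
    exact IsUltrametricDist.norm_natCast_le_one _ D
  have hle : ∀ (x y : ℤ) (ε : PadicAlgCl p), ‖ε‖ ≤ 1 → ‖(x : PadicAlgCl p) + ε * y‖ ≤ 1 :=
    fun x y ε h => (IsUltrametricDist.norm_add_le_max _ _).trans (max_le
      (IsUltrametricDist.norm_intCast_le_one _ x) (by
        rw [norm_mul]
        exact mul_le_one₀ h (norm_nonneg _) (IsUltrametricDist.norm_intCast_le_one _ y)))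
  have hm' : ‖((m : ℤ) : PadicAlgCl p)‖ = (p : ℝ)⁻¹ ^ m.factorization p := by
    rw [ell_norm p (by exact_mod_cast hm), padicValInt.of_nat, Nat.factorization_def _ hp]
  have hpr : ∀ v : ℤ × ℤ, v.1 ^ 2 + D * v.2 ^ 2 = m → ‖(v.1 : PadicAlgCl p) + δ * v.2‖ *
      ‖(v.1 : PadicAlgCl p) + -δ * v.2‖ = (p : ℝ)⁻¹ ^ m.factorization p := fun v hv => by
    rw [← hm', ← hv, ← norm_mul]
    congr 1
    push_cast
    linear_combination (-(v.2 : PadicAlgCl p) ^ 2) * hδ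
  have key : ∀ v : ℤ × ℤ, v.1 ^ 2 + D * v.2 ^ 2 = m → ∃ j ≤ 2 * m.factorization p,
      ‖(v.1 : PadicAlgCl p) + δ * v.2‖ ^ 2 = (p : ℝ)⁻¹ ^ j := fun v hv => by
    have h := hpr v hv
    have h1 := hle v.1 v.2 δ hd
    have h2 := hle v.1 v.2 (-δ) (by rwa [norm_neg])
    by_cases e : ‖(v.1 : PadicAlgCl p) + δ * v.2‖ = ‖(v.1 : PadicAlgCl p) + -δ * v.2‖
    · exact ⟨m.factorization p, by omega, by rw [← h, ← e, sq]⟩
    have h3 := IsUltrametricDist.norm_add_eq_max_of_norm_ne_norm e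
    have h4 : (v.1 : PadicAlgCl p) + δ * v.2 + (v.1 + -δ * v.2) = ((2 * v.1 : ℤ) : PadicAlgCl p) := by
      push_cast; ring
    have h5 : 2 * v.1 ≠ 0 := fun h0 => by
      rw [h4, h0, Int.cast_zero, norm_zero] at h3
      exact e ((le_antisymm (h3 ▸ le_max_left _ _) (norm_nonneg _)).trans
        (le_antisymm (h3 ▸ le_max_right _ _) (norm_nonneg _)).symm)
    rw [h4, ell_norm p h5] at h3
    rcases le_total ‖(v.1 : PadicAlgCl p) + δ * v.2‖ ‖(v.1 : PadicAlgCl p) + -δ * v.2‖ with l | l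
    · rw [max_eq_right l] at h3
      obtain ⟨-, e2⟩ := ell_lev q0 q1 h1 h3.symm (by rw [mul_comm, h])
      exact ⟨(m.factorization p - padicValInt p (2 * v.1)) * 2, by omega, by rw [e2, pow_mul]⟩
    · rw [max_eq_left l] at h3
      obtain ⟨e1, -⟩ := ell_lev q0 q1 h2 h3.symm h
      exact ⟨padicValInt p (2 * v.1) * 2, by omega, by rw [← h3, pow_mul]⟩
  choose! L hL hL' using key
  refine ⟨L, hL, fun v w hv hw e => ?_⟩
  have e1 : ‖(v.1 : PadicAlgCl p) + δ * v.2‖ = ‖(w.1 : PadicAlgCl p) + δ * w.2‖ :=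
    (pow_left_inj₀ (norm_nonneg _) (norm_nonneg _) two_ne_zero).1 (by rw [hL' v hv, hL' w hw, e])
  have e2 : ((2 * (v.1 * w.1 + D * v.2 * w.2) : ℤ) : PadicAlgCl p) =
      (v.1 + δ * v.2) * (w.1 + -δ * w.2) + (w.1 + δ * w.2) * (v.1 + -δ * v.2) := by
    push_cast
    linear_combination (2 * (v.2 : PadicAlgCl p) * w.2) * hδ
  rw [← Padic.norm_int_le_pow_iff_dvd, ← norm_algebraMap' (PadicAlgCl p), map_intCast, e2,
    zpow_neg, zpow_natCast, ← inv_pow]
  refine (IsUltrametricDist.norm_add_le_max _ _).trans (max_le ?_ ?_)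
  · rw [norm_mul, e1, hpr w hw]
  · rw [norm_mul, ← e1, hpr v hv]

/-- At most ten solutions have the same labels. -/
theorem ell_fib {D m : ℤ} (hD : 0 < D) (hm : 0 < m) (v : ℤ × ℤ) (hv : v.1 ^ 2 + D * v.2 ^ 2 = m)
    (S : Finset (ℤ × ℤ)) (hS : ∀ w ∈ S, w.1 ^ 2 + D * w.2 ^ 2 = m)
    (hd : ∀ w ∈ S, m ∣ 2 * (v.1 * w.1 + D * v.2 * w.2)) : S.card ≤ 10 := by
  classical
  have id : ∀ w ∈ S, (v.1 * w.1 + D * v.2 * w.2) ^ 2 + D * (v.1 * w.2 - v.2 * w.1) ^ 2 = m ^ 2 :=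
    fun w hw => by rw [sq m]; nth_rw 1 [← hv]; rw [← hS w hw]; ring
  refine (card_le_card_of_injOn (t := Icc (-2 : ℤ) 2 ×ˢ (univ : Finset Prop))
    (fun w => (2 * (v.1 * w.1 + D * v.2 * w.2) / m, 0 ≤ v.1 * w.2 - v.2 * w.1))
    (fun w hw => ?_) fun w hw u hu e => ?_).trans (by simp)
  · obtain ⟨t, ht⟩ := hd w hw
    have h1 : |v.1 * w.1 + D * v.2 * w.2| ≤ m := abs_le_of_sq_le_sq' (by
      nlinarith [id w hw, mul_nonneg hD.le (sq_nonneg (v.1 * w.2 - v.2 * w.1))]) hm.le |> abs_le.2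
    obtain ⟨h2, h3⟩ := abs_le.1 h1
    simp only [coe_product, Set.mem_prod, mem_coe, mem_Icc, mem_univ, and_true]
    rw [ht, Int.mul_ediv_cancel_left _ hm.ne']
    constructor <;> nlinarith
  · obtain ⟨e1, e2⟩ := Prod.ext_iff.1 e
    have eU : v.1 * w.1 + D * v.2 * w.2 = v.1 * u.1 + D * v.2 * u.2 := by
      have a := Int.mul_ediv_cancel' (hd w hw)
      have b := Int.mul_ediv_cancel' (hd u hu)
      simp only at e1
      rw [e1] at a
      linarith
    have eV : v.1 * w.2 - v.2 * w.1 = v.1 * u.2 - v.2 * u.1 := by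
      have a := id w hw
      rw [eU, ← id u hu, add_right_inj] at a
      have e3 : 0 ≤ v.1 * w.2 - v.2 * w.1 ↔ 0 ≤ v.1 * u.2 - v.2 * u.1 := eq_iff_iff.1 e2
      rcases sq_eq_sq_iff_eq_or_eq_neg.1 (mul_left_cancel₀ hD.ne' a) with b | b
      · exact b
      · omega
    refine Prod.ext (mul_left_cancel₀ hm.ne' ?_) (mul_left_cancel₀ hm.ne' ?_)
    · rw [← hv]; linear_combination v.1 * eU - D * v.2 * eV
    · rw [← hv]; linear_combination v.2 * eU + v.1 * eV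

/-- The number of solutions of `x ^ 2 + D y ^ 2 = m`. -/
theorem ell_form {D m : ℕ} (hD : 0 < D) (hm : 0 < m) (S : Finset (ℤ × ℤ))
    (hS : ∀ v ∈ S, v.1 ^ 2 + D * v.2 ^ 2 = m) : S.card ≤ 10 * m.divisors.card ^ 2 := by
  classical
  choose L hL hL' using fun p : m.primeFactors =>
    ell_loc p (Nat.prime_of_mem_primeFactors p.2) D m hm.ne'
  refine (card_le_mul_card_image_of_maps_to (f := fun v p => L p v)
    (t := Fintype.piFinset fun p : m.primeFactors => range (2 * m.factorization p + 1))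
    (fun v hv => Fintype.mem_piFinset.2 fun p => mem_range.2 (Nat.lt_succ_of_le (hL p v (hS v hv))))
    10 fun b _ => ?_).trans (Nat.mul_le_mul_left _ ?_)
  · rcases (S.filter fun v => (fun p => L p v) = b).eq_empty_or_nonempty with e | ⟨v, hv⟩
    · rw [e]; simp
    obtain ⟨h1, h2⟩ := mem_filter.1 hv
    refine ell_fib (D := D) (m := m) (by exact_mod_cast hD) (by exact_mod_cast hm) v (hS v h1) _
      (fun w hw => hS w (mem_filter.1 hw).1) fun w hw => ?_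
    obtain ⟨h3, h4⟩ := mem_filter.1 hw
    rw [Int.natCast_dvd, Nat.dvd_iff_prime_pow_dvd_dvd]
    intro p k hp hk
    rcases Nat.eq_zero_or_pos k with rfl | h0
    · simp
    have hp' : p ∈ m.primeFactors :=
      Nat.mem_primeFactors.2 ⟨hp, (dvd_pow_self p h0.ne').trans hk, hm.ne'⟩
    have := hL' ⟨p, hp'⟩ v w (hS v h1) (hS w h3) (congrFun (h2.trans h4.symm) ⟨p, hp'⟩)
    rw [← Int.natCast_dvd, Nat.cast_pow]
    exact (pow_dvd_pow _ ((hp.pow_dvd_iff_le_factorization hm.ne').1 hk)).trans this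
  · rw [Fintype.card_piFinset, Nat.card_divisors hm.ne', ← prod_pow,
      ← prod_coe_sort m.primeFactors fun p => (m.factorization p + 1) ^ 2]
    exact prod_le_prod' fun p _ => by rw [card_range]; nlinarith

/-- The number of integer points on an ellipse. -/
theorem ell_conic {a b c d e f : ℤ} (h : 0 < 4 * a * c - b ^ 2) (S : Finset (ℤ × ℤ))
    (hS : ∀ v ∈ S, a * v.1 ^ 2 + b * v.1 * v.2 + c * v.2 ^ 2 + d * v.1 + e * v.2 + f = 0) {w : ℕ}
    (hw : 1 ≤ w) (hτ : ((2 * a * e - b * d) ^ 2 +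
      (4 * a * c - b ^ 2) * (d ^ 2 - 4 * a * f)).natAbs.divisors.card ≤ w) :
    S.card ≤ 10 * w ^ 2 := by
  classical
  have ha : a ≠ 0 := by rintro rfl; nlinarith [sq_nonneg b]
  obtain ⟨D, hD⟩ := Int.eq_ofNat_of_zero_le h.le
  generalize hm : (2 * a * e - b * d) ^ 2 + (4 * a * c - b ^ 2) * (d ^ 2 - 4 * a * f) = m at hτ
  let g : ℤ × ℤ → ℤ × ℤ := fun v => (D * v.2 + (2 * a * e - b * d), 2 * a * v.1 + b * v.2 + d)
  have hg : Function.Injective g := fun v u e => by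
    obtain ⟨e1, e2⟩ := Prod.ext_iff.1 e
    have e3 : v.2 = u.2 := mul_left_cancel₀ (hD ▸ h.ne' : (D : ℤ) ≠ 0) (add_right_cancel e1)
    simp only [g, e3, add_left_inj] at e2
    exact Prod.ext (mul_left_cancel₀ (mul_ne_zero two_ne_zero ha) e2) e3
  have hq : ∀ u ∈ S.image g, u.1 ^ 2 + D * u.2 ^ 2 = m := fun u hu => by
    obtain ⟨v, hv, rfl⟩ := mem_image.1 hu
    simp only [g]
    rw [← hm, ← hD]
    linear_combination 4 * a * (4 * a * c - b ^ 2) * hS v hv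
  rw [← card_image_of_injective S hg]
  have hD0 : (0 : ℤ) < D := hD ▸ h
  rcases le_or_gt m 0 with h0 | h0
  · refine (card_le_one.2 fun u hu u' hu' => ?_).trans (by nlinarith)
    have z : ∀ u ∈ S.image g, u = 0 := fun u hu => by
      have e := hq u hu
      have e1 := sq_nonneg u.1
      have e2 := mul_nonneg hD0.le (sq_nonneg u.2)
      exact Prod.ext (pow_eq_zero_iff two_ne_zero |>.1 (by linarith))
        (pow_eq_zero_iff two_ne_zero |>.1 ((mul_eq_zero.1 (by linarith : (D : ℤ) * u.2 ^ 2 = 0)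
          ).resolve_left hD0.ne'))
    rw [z u hu, z u' hu']
  · obtain ⟨n, rfl⟩ := Int.eq_ofNat_of_zero_le h0.le
    refine (ell_form (by exact_mod_cast hD0) (by exact_mod_cast h0) _ hq).trans ?_
    rw [Int.natAbs_natCast] at hτ
    gcongr

end Pool.Agent.P.MP_d565f2_an.LS
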