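import Pool.Agent.P.MP_d565f2_an.LS.Defs
import Pool.Agent.P.MP_d565f2_an.LS.Ell
import Pool.Agent.P.MP_d565f2_an.Divisor

set_option autoImplicit false

open MvPolynomial Finset Module

namespace Pool.Agent.P.MP_d565f2_an.LS

variable {σ : Type} [Fintype σ] [DecidableEq σ]

theorem count_cross {a1 a2 a3 b1 b2 b3 p1 p2 p3 : ℤ}
    (ha : (p1 + a1) ^ 2 + (p2 + a2) ^ 2 + (p3 + a3) ^ 2 = p1 ^ 2 + p2 ^ 2 + p3 ^ 2)
    (hb : (p1 + b1) ^ 2 + (p2 + b2) ^ 2 + (p3 + b3) ^ 2 = p1 ^ 2 + p2 ^ 2 + p3 ^ 2)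
    (h1 : a2 * b3 - a3 * b2 = 0) (h2 : a3 * b1 - a1 * b3 = 0) (h3 : a1 * b2 - a2 * b1 = 0) :
    (a1 = 0 ∧ a2 = 0 ∧ a3 = 0) ∨ (b1 = 0 ∧ b2 = 0 ∧ b3 = 0) ∨ (a1 = b1 ∧ a2 = b2 ∧ a3 = b3) := by
  have z : ∀ x y z : ℤ, x ^ 2 + y ^ 2 + z ^ 2 = 0 → x = 0 ∧ y = 0 ∧ z = 0 := fun x y z h =>
    ⟨by nlinarith [sq_nonneg y, sq_nonneg z], by nlinarith [sq_nonneg x, sq_nonneg z],
      by nlinarith [sq_nonneg x, sq_nonneg y]⟩
  by_cases e1 : a1 ^ 2 + a2 ^ 2 + a3 ^ 2 = 0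
  · exact Or.inl (z _ _ _ e1)
  by_cases e2 : b1 ^ 2 + b2 ^ 2 + b3 ^ 2 = 0
  · exact Or.inr (Or.inl (z _ _ _ e2))
  have f1 : b1 ^ 2 + b2 ^ 2 + b3 ^ 2 = a1 * b1 + a2 * b2 + a3 * b3 := mul_left_cancel₀ e1 (by
    linear_combination (a1 ^ 2 + a2 ^ 2 + a3 ^ 2) * hb - (a1 * b1 + a2 * b2 + a3 * b3) * ha -
      2 * (p3 * a2 - p2 * a3) * h1 - 2 * (p1 * a3 - p3 * a1) * h2 - 2 * (p2 * a1 - p1 * a2) * h3)
  have f2 : a1 ^ 2 + a2 ^ 2 + a3 ^ 2 = a1 * b1 + a2 * b2 + a3 * b3 := mul_left_cancel₀ e2 (by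
    linear_combination (b1 ^ 2 + b2 ^ 2 + b3 ^ 2) * ha - (a1 * b1 + a2 * b2 + a3 * b3) * hb +
      2 * (p3 * b2 - p2 * b3) * h1 + 2 * (p1 * b3 - p3 * b1) * h2 + 2 * (p2 * b1 - p1 * b2) * h3)
  obtain ⟨g1, g2, g3⟩ := z (a1 - b1) (a2 - b2) (a3 - b3) (by linear_combination f1 + f2)
  exact Or.inr (Or.inr ⟨by omega, by omega, by omega⟩)

theorem count_plane {n τ w1 w2 w3 : ℤ} {lam w : ℕ} (h1 : w1 ≠ 0) (b1 : |w1| ≤ 8 * lam ^ 2)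
    (b2 : |w2| ≤ 8 * lam ^ 2) (b3 : |w3| ≤ 8 * lam ^ 2) (hn : n ≤ lam ^ 2)
    (S : Finset (ℤ × ℤ × ℤ)) (hS : ∀ v ∈ S, v.1 ^ 2 + v.2.1 ^ 2 + v.2.2 ^ 2 = n ∧
      w1 * v.1 + w2 * v.2.1 + w3 * v.2.2 = τ) (hw : 1 ≤ w)
    (hτ : ∀ t : ℕ, t ≤ 10 ^ 10 * lam ^ 18 → t.divisors.card ≤ w) : S.card ≤ 10 * w ^ 2 := by
  classical
  rcases S.eq_empty_or_nonempty with rfl | ⟨p, hp⟩
  · simp
  obtain ⟨p1, p2⟩ := hS p hp
  have hi : Set.InjOn (fun v : ℤ × ℤ × ℤ => v.2) S := fun v hv u hu e => by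
    have e' : v.2 = u.2 := e
    have := (hS v hv).2.trans (hS u hu).2.symm
    rw [e', add_left_inj, add_left_inj] at this
    exact Prod.ext (mul_left_cancel₀ h1 this) e'
  have q1 : w1 ^ 2 ≤ (8 * lam ^ 2) ^ 2 := sq_le_sq' (abs_le.1 b1).1 (abs_le.1 b1).2
  have q2 : w2 ^ 2 ≤ (8 * lam ^ 2) ^ 2 := sq_le_sq' (abs_le.1 b2).1 (abs_le.1 b2).2
  have q3 : w3 ^ 2 ≤ (8 * lam ^ 2) ^ 2 := sq_le_sq' (abs_le.1 b3).1 (abs_le.1 b3).2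
  have n0 : 0 ≤ n := by rw [← p1]; positivity
  have c0 : 0 ≤ (w1 ^ 2 + w2 ^ 2 + w3 ^ 2) * n - τ ^ 2 := by
    rw [← p1, ← p2]
    nlinarith [sq_nonneg (w1 * p.2.1 - w2 * p.1), sq_nonneg (w1 * p.2.2 - w3 * p.1),
      sq_nonneg (w2 * p.2.2 - w3 * p.2.1)]
  have c1 : (w1 ^ 2 + w2 ^ 2 + w3 ^ 2) * n - τ ^ 2 ≤ 3 * (8 * lam ^ 2) ^ 2 * lam ^ 2 :=
    (sub_le_self _ (sq_nonneg _)).trans (mul_le_mul (by linarith) hn n0 (by positivity))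
  rw [← card_image_of_injOn hi]
  refine ell_conic (a := w1 ^ 2 + w2 ^ 2) (b := 2 * w2 * w3) (c := w1 ^ 2 + w3 ^ 2)
    (d := -2 * τ * w2) (e := -2 * τ * w3) (f := τ ^ 2 - w1 ^ 2 * n) ?_ _ (fun u hu => ?_) hw
    (hτ _ ?_)
  · rw [show 4 * (w1 ^ 2 + w2 ^ 2) * (w1 ^ 2 + w3 ^ 2) - (2 * w2 * w3) ^ 2 =
      4 * w1 ^ 2 * (w1 ^ 2 + w2 ^ 2 + w3 ^ 2) by ring]
    positivity
  · obtain ⟨v, hv, rfl⟩ := mem_image.1 hu
    obtain ⟨v1, v2⟩ := hS v hv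
    rw [← v1, ← v2]
    ring
  · rw [show (2 * (w1 ^ 2 + w2 ^ 2) * (-2 * τ * w3) - 2 * w2 * w3 * (-2 * τ * w2)) ^ 2 +
      (4 * (w1 ^ 2 + w2 ^ 2) * (w1 ^ 2 + w3 ^ 2) - (2 * w2 * w3) ^ 2) *
      ((-2 * τ * w2) ^ 2 - 4 * (w1 ^ 2 + w2 ^ 2) * (τ ^ 2 - w1 ^ 2 * n)) =
      16 * (w1 ^ 2 * w1 ^ 2) * ((w1 ^ 2 + w2 ^ 2) *
      ((w1 ^ 2 + w2 ^ 2 + w3 ^ 2) * n - τ ^ 2)) by ring]
    zify
    rw [abs_of_nonneg (by positivity)]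
    calc _ ≤ 16 * ((8 * (lam : ℤ) ^ 2) ^ 2 * (8 * lam ^ 2) ^ 2) * (((8 * lam ^ 2) ^ 2 +
          (8 * lam ^ 2) ^ 2) * (3 * (8 * lam ^ 2) ^ 2 * lam ^ 2)) := by gcongr
      _ = 1610612736 * lam ^ 18 := by ring
      _ ≤ _ := by gcongr; norm_num

theorem count_three {n τ u1 u2 u3 : ℤ} {lam w : ℕ} (h1 : u1 ≠ 0) (hn : n ≤ lam ^ 2)
    (S : Finset (ℤ × ℤ × ℤ)) (hS : ∀ v ∈ S, v.1 ^ 2 + v.2.1 ^ 2 + v.2.2 ^ 2 = n ∧
      u1 * v.1 + u2 * v.2.1 + u3 * v.2.2 = τ) (hw : 1 ≤ w)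
    (hτ : ∀ t : ℕ, t ≤ 10 ^ 10 * lam ^ 18 → t.divisors.card ≤ w) : S.card ≤ 10 * w ^ 2 := by
  rcases le_or_gt S.card 2 with h | h
  · nlinarith
  obtain ⟨p, q, r, hp, hq, hr, n1, n2, n3⟩ := two_lt_card_iff.1 h
  have hb : ∀ v ∈ S, |v.1| ≤ lam ∧ |v.2.1| ≤ lam ∧ |v.2.2| ≤ lam := fun v hv => by
    have := (hS v hv).1
    refine ⟨?_, ?_, ?_⟩ <;> refine abs_le_of_sq_le_sq ?_ (by positivity) <;>
      nlinarith [sq_nonneg v.1, sq_nonneg v.2.1, sq_nonneg v.2.2]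
  have hd : ∀ {x y : ℤ}, |x| ≤ lam → |y| ≤ lam → |x - y| ≤ 2 * lam := fun hx hy =>
    (abs_sub _ _).trans (by linarith)
  have hc : ∀ {a b c d : ℤ}, |a| ≤ 2 * lam → |b| ≤ 2 * lam → |c| ≤ 2 * lam → |d| ≤ 2 * lam →
      |a * b - c * d| ≤ 8 * lam ^ 2 := fun {a b c d} ha hb hc hd => by
    refine (abs_sub _ _).trans ?_
    rw [abs_mul, abs_mul]
    nlinarith [mul_le_mul ha hb (abs_nonneg _) (by positivity),
      mul_le_mul hc hd (abs_nonneg _) (by positivity)]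
  obtain ⟨p1, p2, p3⟩ := hb p hp
  obtain ⟨q1, q2, q3⟩ := hb q hq
  obtain ⟨r1, r2, r3⟩ := hb r hr
  obtain ⟨sp, lp⟩ := hS p hp
  obtain ⟨sq', lq⟩ := hS q hq
  obtain ⟨sr, lr⟩ := hS r hr
  refine count_plane
    (w1 := (q.2.1 - p.2.1) * (r.2.2 - p.2.2) - (q.2.2 - p.2.2) * (r.2.1 - p.2.1))
    (w2 := (q.2.2 - p.2.2) * (r.1 - p.1) - (q.1 - p.1) * (r.2.2 - p.2.2))
    (w3 := (q.1 - p.1) * (r.2.1 - p.2.1) - (q.2.1 - p.2.1) * (r.1 - p.1))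
    (τ := ((q.2.1 - p.2.1) * (r.2.2 - p.2.2) - (q.2.2 - p.2.2) * (r.2.1 - p.2.1)) * p.1 +
      ((q.2.2 - p.2.2) * (r.1 - p.1) - (q.1 - p.1) * (r.2.2 - p.2.2)) * p.2.1 +
      ((q.1 - p.1) * (r.2.1 - p.2.1) - (q.2.1 - p.2.1) * (r.1 - p.1)) * p.2.2) (fun h0 => ?_)
    (hc (hd q2 p2) (hd r3 p3) (hd q3 p3) (hd r2 p2)) (hc (hd q3 p3) (hd r1 p1) (hd q1 p1) (hd r3 p3))
    (hc (hd q1 p1) (hd r2 p2) (hd q2 p2) (hd r1 p1)) hn S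
    (fun v hv => ⟨(hS v hv).1, mul_left_cancel₀ h1 ?_⟩) hw hτ
  · rcases count_cross (p1 := p.1) (p2 := p.2.1) (p3 := p.2.2) (a1 := q.1 - p.1)
      (a2 := q.2.1 - p.2.1) (a3 := q.2.2 - p.2.2) (b1 := r.1 - p.1) (b2 := r.2.1 - p.2.1)
      (b3 := r.2.2 - p.2.2) (by linear_combination sq' - sp) (by linear_combination sr - sp) h0
      (mul_left_cancel₀ h1 (by
        linear_combination u2 * h0 + (q.2.2 - p.2.2) * (lr - lp) - (r.2.2 - p.2.2) * (lq - lp)))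
      (mul_left_cancel₀ h1 (by
        linear_combination u3 * h0 - (q.2.1 - p.2.1) * (lr - lp) + (r.2.1 - p.2.1) * (lq - lp)))
      with e | e | e
    · exact n1 (Prod.ext (by omega) (Prod.ext (by omega) (by omega)))
    · exact n2 (Prod.ext (by omega) (Prod.ext (by omega) (by omega)))
    · exact n3 (Prod.ext (by omega) (Prod.ext (by omega) (by omega)))
  · have lv := (hS v hv).2
    linear_combination
      ((q.2.1 - p.2.1) * (r.2.2 - p.2.2) - (q.2.2 - p.2.2) * (r.2.1 - p.2.1)) * (lv - lp) +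
      ((r.2.1 - p.2.1) * (v.2.2 - p.2.2) - (r.2.2 - p.2.2) * (v.2.1 - p.2.1)) * (lq - lp) +
      ((v.2.1 - p.2.1) * (q.2.2 - p.2.2) - (v.2.2 - p.2.2) * (q.2.1 - p.2.1)) * (lr - lp)

theorem count_slices {ι : Type} [Fintype ι] [DecidableEq ι] (hι : 3 ≤ Fintype.card ι)
    {n lam w : ℕ} (hn : n ≤ lam ^ 2) {u : ι → ℤ} (hu : u ≠ 0) (τ : ℤ) (hw : 1 ≤ w)
    (hτ : ∀ t : ℕ, t ≤ 10 ^ 10 * lam ^ 18 → t.divisors.card ≤ w) :
    ((sph ι n).filter fun X => u ⬝ᵥ X = τ).card ≤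
      10 * w ^ 2 * (2 * lam + 1) ^ (Fintype.card ι - 3) := by
  classical
  obtain ⟨a, ha⟩ := Function.ne_iff.1 hu
  obtain ⟨b, hb, c, hc, hbc⟩ := one_lt_card.1
    (show 1 < (univ.erase a).card by rw [card_erase_of_mem (mem_univ _), card_univ]; omega)
  have hab := (ne_of_mem_erase hb).symm
  have hac := (ne_of_mem_erase hc).symm
  have hs : ∀ x y : ι → ℤ, x ⬝ᵥ y = x a * y a + x b * y b + x c * y c +
      ∑ i ∈ ({a, b, c} : Finset ι)ᶜ, x i * y i := fun x y => by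
    rw [dotProduct, ← sum_add_sum_compl {a, b, c}, sum_insert (by simp [hab, hac]),
      sum_pair hbc, ← add_assoc (x a * y a)]
  have hn' : (n : ℤ) ≤ (lam : ℤ) ^ 2 := by exact_mod_cast hn
  refine (card_le_mul_card_image_of_maps_to
    (f := fun (X : ι → ℤ) (i : {i // ¬ i ∈ ({a, b, c} : Finset ι)}) => X i) (t := box _ lam)
    (fun X hX => mem_box.2 fun i => mem_box.1
      (mem_box_of_dot ((mem_sph.1 (mem_filter.1 hX).1).le.trans hn')) i) (10 * w ^ 2)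
    fun Y _ => ?_).trans_eq ?_
  · set T := ((sph ι n).filter fun X => u ⬝ᵥ X = τ).filter
      fun X => (fun i : {i // ¬ i ∈ ({a, b, c} : Finset ι)} => X i) = Y
    rcases T.eq_empty_or_nonempty with e | ⟨X0, h0⟩
    · rw [e]; simp
    have ag : ∀ X ∈ T, ∀ Z ∈ T, ∀ i ∈ ({a, b, c} : Finset ι)ᶜ, X i = Z i := fun X hX Z hZ i hi =>
      congrFun ((mem_filter.1 hX).2.trans (mem_filter.1 hZ).2.symm) ⟨i, mem_compl.1 hi⟩
    have hi : Set.InjOn (fun X : ι → ℤ => (X a, X b, X c)) T := fun X hX Z hZ e => by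
      simp only [Prod.mk.injEq] at e
      funext i
      by_cases h : i ∈ ({a, b, c} : Finset ι)
      · simp only [mem_insert, mem_singleton] at h
        rcases h with rfl | rfl | rfl
        exacts [e.1, e.2.1, e.2.2]
      · exact ag X hX Z hZ i (mem_compl.2 h)
    rw [← card_image_of_injOn hi]
    refine count_three (u1 := u a) (u2 := u b) (u3 := u c)
      (n := n - ∑ i ∈ ({a, b, c} : Finset ι)ᶜ, X0 i * X0 i)
      (τ := τ - ∑ i ∈ ({a, b, c} : Finset ι)ᶜ, u i * X0 i) ha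
      ((sub_le_self _ (sum_nonneg fun _ _ => mul_self_nonneg _)).trans hn') _
      (fun v hv => ?_) hw hτ
    obtain ⟨X, hX, rfl⟩ := mem_image.1 hv
    obtain ⟨h1, h2⟩ := mem_filter.1 (mem_filter.1 hX).1
    rw [mem_sph, hs, sum_congr rfl fun i hi => by rw [ag X hX X0 h0 i hi]] at h1
    rw [hs, sum_congr rfl fun i hi => by rw [ag X hX X0 h0 i hi]] at h2
    exact ⟨by linear_combination h1, by linear_combination h2⟩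
  · rw [card_box, Fintype.card_subtype_compl, Fintype.card_coe, card_eq_three.2
      ⟨a, b, c, hab, hac, hbc, rfl⟩]

theorem count_hyper (ι : Type) [Fintype ι] [DecidableEq ι] {ρ : ℕ} (hι : Fintype.card ι = ρ + 1)
    (hρ : 2 ≤ ρ) : ∃ C : ℕ, ∀ n lam : ℕ, 1 ≤ lam → n ≤ lam ^ 2 → ∀ u : ι → ℤ, u ≠ 0 → ∀ τ : ℤ,
      ((sph ι n).filter fun X => u ⬝ᵥ X = τ).card ^ ρ ≤ C * lam ^ ((ρ - 1) ^ 2) := by
  obtain ⟨r, rfl⟩ := Nat.exists_eq_add_of_le' hρ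
  obtain ⟨C, hC⟩ := card_divisors_pow_le (2 * (r + 2) * 18) (by omega)
  refine ⟨10 ^ (r + 2) * (C * 10 ^ 10 + 1) * 3 ^ (r * (r + 2)), fun n lam hl hn u hu τ => ?_⟩
  obtain ⟨t, ht, hm⟩ := exists_max_image (Icc 1 (10 ^ 10 * lam ^ 18))
    (fun t => t.divisors.card) ⟨1, mem_Icc.2 ⟨le_rfl, Nat.mul_pos (by norm_num) (by positivity)⟩⟩
  obtain ⟨t1, t2⟩ := mem_Icc.1 ht
  have h1 := count_slices (w := t.divisors.card) (by omega) hn hu τ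
    (card_pos.2 ⟨1, Nat.one_mem_divisors.2 (by omega)⟩) fun s hs => by
      rcases Nat.eq_zero_or_pos s with rfl | h0
      · simp
      · exact hm s (mem_Icc.2 ⟨h0, hs⟩)
  have h2 : t.divisors.card ^ (2 * (r + 2)) ≤ (C * 10 ^ 10 + 1) * lam := by
    refine (Nat.pow_le_pow_iff_left (n := 18) (by omega)).1 ?_
    rw [← pow_mul, mul_pow]
    calc _ ≤ C * (10 ^ 10 * lam ^ 18) := (hC t (by omega)).trans (Nat.mul_le_mul_left _ t2)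
      _ ≤ (C * 10 ^ 10 + 1) * lam ^ 18 := by rw [← mul_assoc]; gcongr; omega
      _ ≤ _ := Nat.mul_le_mul_right _ (Nat.le_self_pow (by omega) _)
  rw [hι, show r + 2 + 1 - 3 = r by omega] at h1
  calc _ ≤ (10 * t.divisors.card ^ 2 * (3 * lam) ^ r) ^ (r + 2) :=
        Nat.pow_le_pow_left (h1.trans (by gcongr; omega)) _
    _ = 10 ^ (r + 2) * t.divisors.card ^ (2 * (r + 2)) * (3 ^ (r * (r + 2)) *
        lam ^ (r * (r + 2))) := by simp only [mul_pow, ← pow_mul]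
    _ ≤ 10 ^ (r + 2) * ((C * 10 ^ 10 + 1) * lam) * (3 ^ (r * (r + 2)) * lam ^ (r * (r + 2))) := by
        gcongr
    _ = _ := by rw [show (r + 2 - 1) ^ 2 = r * (r + 2) + 1 by simp; ring]; ring

theorem count_quadric (hρ : 2 ≤ Fintype.card σ) : ∃ C : ℕ, ∀ n lam : ℕ, 1 ≤ lam → n ≤ lam ^ 2 →
    ∀ W : Finset (σ → ℤ), OnSph n W → ∀ (u : σ → ℤ) (w τ : ℤ), (u ≠ 0 ∨ w ≠ 0) →
      (∀ y ∈ W, (τ - u ⬝ᵥ y) ^ 2 = w ^ 2 * (n - y ⬝ᵥ y)) →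
      W.card ^ Fintype.card σ ≤ C * lam ^ ((Fintype.card σ - 1) ^ 2) := by
  obtain ⟨C, hC⟩ := count_hyper (Option σ) Fintype.card_option hρ
  refine ⟨C, fun n lam hl hn W hW u w τ h0 hq => le_trans (Nat.pow_le_pow_left ?_ _)
    (hC n lam hl hn (fun o => o.elim w u) (fun e => ?_) τ)⟩
  · have : ∀ y ∈ W, ∃ ω : ℤ, y ⬝ᵥ y + ω ^ 2 = n ∧ w * ω + u ⬝ᵥ y = τ := fun y hy => by
      obtain ⟨ω, -, h1⟩ := hW y hy
      have h2 := hq y hy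
      rw [← h1, add_sub_cancel_left, ← mul_pow] at h2
      rcases sq_eq_sq_iff_eq_or_eq_neg.1 h2 with e | e
      · exact ⟨ω, h1, by linarith⟩
      · exact ⟨-ω, by rwa [neg_sq], by linarith⟩
    choose! ω h1 h2 using this
    refine card_le_card_of_injOn (fun y o => o.elim (ω y) y) (fun y hy => ?_)
      fun y _ y' _ e => funext fun j => congrFun e (some j)
    simp only [coe_filter, Set.mem_ofPred_eq, mem_sph, dotProduct, Fintype.sum_option, Option.elim]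
    exact ⟨by rw [← h1 y hy, dotProduct]; ring, h2 y hy⟩
  · exact h0.elim (fun h => h (funext fun j => congrFun e (some j))) fun h => h (congrFun e none)

end Pool.Agent.P.MP_d565f2_an.LS
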