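import Pool.Agent.P.MP_d565f2_an.Analytic

set_option autoImplicit false

open MvPolynomial Finset Module

namespace Pool.Agent.P.MP_d565f2_an.LS

variable {σ : Type} [Fintype σ] [DecidableEq σ]

/-- The sum of the absolute values of the coefficients. -/
noncomputable def nrm (g : MvPolynomial σ ℤ) : ℕ := ∑ m ∈ g.support, (g.coeff m).natAbs

/-- Degree at most `e` and coefficient norm at most `2 ^ (e * L)`. -/
def Sz (L : ℕ) (g : MvPolynomial σ ℤ) (e : ℕ) : Prop :=
  g.totalDegree ≤ e ∧ nrm g ≤ 2 ^ (e * L)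

/-- The derivation with coefficient vector `v`. -/
noncomputable def der {R : Type} [CommRing R] (v : σ → MvPolynomial σ R) (g : MvPolynomial σ R) :
    MvPolynomial σ R := ∑ j, v j * pderiv j g

/-- A word in the derivations `der (v i)`; the head of the list is applied last. -/
noncomputable def wd {R : Type} [CommRing R] (v : σ → σ → MvPolynomial σ R) (l : List σ)
    (g : MvPolynomial σ R) : MvPolynomial σ R := l.foldr (fun i h => der (v i) h) g

/-- An integer polynomial read over the rationals. -/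
noncomputable def toQ : MvPolynomial σ ℤ →+* MvPolynomial σ ℚ := map (Int.castRingHom ℚ)

/-- Evaluation of rational polynomials on `W`. -/
noncomputable def ev (W : Finset (σ → ℤ)) : MvPolynomial σ ℚ →ₐ[ℚ] (W → ℚ) :=
  aeval fun j (x : W) => ((x.1 j : ℤ) : ℚ)

/-- The affine functions on `W`. -/
noncomputable def V1 (W : Finset (σ → ℤ)) : Submodule ℚ (W → ℚ) :=
  Submodule.span ℚ (insert 1 (Set.range fun j (x : W) => ((x.1 j : ℤ) : ℚ)))

/-- The Hilbert function of `W`. -/
noncomputable def hf (W : Finset (σ → ℤ)) (D : ℕ) : ℕ := finrank ℚ ↥(V1 W ^ D)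

/-- The points of `W` congruent to `x` modulo `p`. -/
def cls (W : Finset (σ → ℤ)) (p : ℕ) (x : σ → ℤ) : Finset (σ → ℤ) :=
  W.filter fun y => ∀ j, (p : ℤ) ∣ y j - x j

/-- Modulo `p ^ M` the integer polynomial functions on the class of `x` lie in a space of
dimension at most `κ`. -/
def Loc (W : Finset (σ → ℤ)) (p M κ : ℕ) (x : σ → ℤ) : Prop :=
  ∃ N : Submodule ℚ (cls W p x → ℚ), finrank ℚ N ≤ κ ∧ ∀ g : MvPolynomial σ ℤ, ∃ φ ∈ N,
    ∀ y : cls W p x, ∃ b : ℤ, ((eval y.1 g : ℤ) : ℚ) = φ y + (p : ℚ) ^ M * b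

/-- The points of `W` are projections of lattice points of the sphere, off the equator. -/
def OnSph (n : ℕ) (W : Finset (σ → ℤ)) : Prop :=
  ∀ y ∈ W, ∃ ω : ℤ, ω ≠ 0 ∧ y ⬝ᵥ y + ω ^ 2 = n

/-- The data carried through the descent. -/
structure Stage (L : ℕ) (W : Finset (σ → ℤ)) (I : Finset σ) (v : σ → σ → MvPolynomial σ ℤ)
    (J : MvPolynomial σ ℤ) (e : ℕ) : Prop where
  diag : ∀ i ∈ I, ∀ j ∈ I, v i j = if i = j then J else 0
  szv : ∀ i j, Sz L (v i j) e
  szJ : Sz L J e
  ne : ∀ x ∈ W, eval x J ≠ 0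
  tan : ∀ x ∈ W, ∀ y ∈ W, ∀ (p : ℤ) (z : σ → ℤ), p ≠ 0 → (∀ j, y j = x j + p * z j) →
    ∀ j, p ∣ eval x J * z j - ∑ i ∈ I, z i * eval x (v i j)

/-- The ideal of the point `a`. -/
noncomputable def mx {R : Type} [CommRing R] (a : σ → R) : Ideal (MvPolynomial σ R) :=
  Ideal.span (Set.range fun j => X j - C (a j))

/-- The linear forms in the shifted variables with index in `I`. -/
noncomputable def UI {R : Type} [CommRing R] (I : Finset σ) (a : σ → R) :
    Submodule R (MvPolynomial σ R) :=
  Submodule.span R ((fun j => X j - C (a j)) '' (I : Set σ))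

section der

variable {R : Type} [CommRing R] (v : σ → MvPolynomial σ R)

omit [DecidableEq σ] in
theorem der_add (g h : MvPolynomial σ R) : der v (g + h) = der v g + der v h := by
  simp [der, mul_add, Finset.sum_add_distrib]

omit [DecidableEq σ] in
theorem der_sub (g h : MvPolynomial σ R) : der v (g - h) = der v g - der v h := by
  simp [der, mul_sub, Finset.sum_sub_distrib]

omit [DecidableEq σ] in
theorem der_zero : der v 0 = 0 := by simp [der]

omit [DecidableEq σ] in
theorem der_C (c : R) : der v (C c) = 0 := by simp [der]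

omit [DecidableEq σ] in
theorem der_mul (g h : MvPolynomial σ R) : der v (g * h) = g * der v h + h * der v g := by
  simp only [der, Derivation.leibniz, smul_eq_mul, Finset.mul_sum, ← Finset.sum_add_distrib]
  exact Finset.sum_congr rfl fun j _ => by ring

theorem der_X (j : σ) : der v (X j) = v j := by
  simp [der, pderiv_X, Pi.single_apply]

omit [DecidableEq σ] in
theorem der_C_mul (c : R) (g : MvPolynomial σ R) : der v (C c * g) = C c * der v g := by
  rw [der_mul, der_C, mul_zero, add_zero]

omit [DecidableEq σ] in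
theorem der_sum {α : Type} (s : Finset α) (g : α → MvPolynomial σ R) :
    der v (∑ a ∈ s, g a) = ∑ a ∈ s, der v (g a) := by
  simp only [der, map_sum, Finset.mul_sum]
  exact Finset.sum_comm

omit [DecidableEq σ] in
theorem map_der {S : Type} [CommRing S] (φ : R →+* S) (g : MvPolynomial σ R) :
    map φ (der v g) = der (fun j => map φ (v j)) (map φ g) := by
  simp [der, pderiv_map]

variable (u : σ → σ → MvPolynomial σ R)

omit [DecidableEq σ] in
theorem wd_nil (g : MvPolynomial σ R) : wd u [] g = g := rfl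

omit [DecidableEq σ] in
theorem wd_cons (i : σ) (l : List σ) (g : MvPolynomial σ R) :
    wd u (i :: l) g = der (u i) (wd u l g) := rfl

omit [DecidableEq σ] in
theorem wd_append (l l' : List σ) (g : MvPolynomial σ R) :
    wd u (l ++ l') g = wd u l (wd u l' g) := by
  simp [wd, List.foldr_append]

omit [DecidableEq σ] in
theorem wd_zero (l : List σ) : wd u l 0 = 0 := by
  induction l with
  | nil => rfl
  | cons i l ih => rw [wd_cons, ih, der_zero]

omit [DecidableEq σ] in
theorem wd_add (l : List σ) (g h : MvPolynomial σ R) : wd u l (g + h) = wd u l g + wd u l h := by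
  induction l with
  | nil => rfl
  | cons i l ih => rw [wd_cons, ih, der_add, wd_cons, wd_cons]

omit [DecidableEq σ] in
theorem wd_C_mul (l : List σ) (c : R) (g : MvPolynomial σ R) :
    wd u l (C c * g) = C c * wd u l g := by
  induction l with
  | nil => rfl
  | cons i l ih => rw [wd_cons, ih, der_C_mul, wd_cons]

omit [DecidableEq σ] in
theorem wd_sum {α : Type} (l : List σ) (s : Finset α) (g : α → MvPolynomial σ R) :
    wd u l (∑ a ∈ s, g a) = ∑ a ∈ s, wd u l (g a) := by
  induction l with
  | nil => rfl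
  | cons i l ih => simp only [wd_cons, ih, der_sum]

omit [DecidableEq σ] in
theorem map_wd {S : Type} [CommRing S] (φ : R →+* S) (l : List σ) (g : MvPolynomial σ R) :
    map φ (wd u l g) = wd (fun i j => map φ (u i j)) l (map φ g) := by
  induction l with
  | nil => rfl
  | cons i l ih => rw [wd_cons, map_der, ih, wd_cons]

omit [DecidableEq σ] in
/-- Words in derivations that keep `(f)` keep the multiples of `f`. -/
theorem dvd_wd {I : Finset σ} {f : MvPolynomial σ R} (hf : ∀ i ∈ I, f ∣ der (u i) f)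
    {l : List σ} (hl : ∀ i ∈ l, i ∈ I) {g : MvPolynomial σ R} (hg : f ∣ g) : f ∣ wd u l g := by
  induction l with
  | nil => exact hg
  | cons i l ih =>
    obtain ⟨c, hc⟩ := ih fun j hj => hl j (List.mem_cons_of_mem _ hj)
    rw [wd_cons, hc, der_mul]
    exact dvd_add (dvd_mul_right _ _) ((hf i (hl i List.mem_cons_self)).mul_left _)

end der

omit [Fintype σ] [DecidableEq σ] in
theorem eval_map_int {S : Type} [CommRing S] (x : σ → ℤ) (g : MvPolynomial σ ℤ) :
    eval (fun j => ((x j : ℤ) : S)) (map (Int.castRingHom S) g) = ((eval x g : ℤ) : S) := by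
  induction g using MvPolynomial.induction_on with
  | C a => simp
  | add p q hp hq => simp [hp, hq]
  | mul_X p j hp => simp [hp]

omit [Fintype σ] [DecidableEq σ] in
theorem eval_toQ (x : σ → ℤ) (g : MvPolynomial σ ℤ) :
    eval (cst x) (toQ g) = ((eval x g : ℤ) : ℚ) := eval_map_int x g

omit [Fintype σ] [DecidableEq σ] in
theorem totalDegree_toQ (g : MvPolynomial σ ℤ) : (toQ g).totalDegree ≤ g.totalDegree :=
  Finset.sup_mono (support_map_subset _ _)

omit [Fintype σ] [DecidableEq σ] in
theorem ev_apply (W : Finset (σ → ℤ)) (q : MvPolynomial σ ℚ) (x : W) :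
    ev W q x = eval (cst x.1) q := by
  induction q using MvPolynomial.induction_on with
  | C a => simp [ev]
  | add p q hp hq => simp [hp, hq]
  | mul_X p j hp => rw [map_mul, Pi.mul_apply, hp]; simp [ev, cst]

omit [Fintype σ] [DecidableEq σ] in
theorem one_mem_V1 (W : Finset (σ → ℤ)) : (1 : W → ℚ) ∈ V1 W :=
  Submodule.subset_span (Set.mem_insert _ _)

omit [Fintype σ] [DecidableEq σ] in
theorem coord_mem_V1 (W : Finset (σ → ℤ)) (j : σ) :
    (fun x : W => ((x.1 j : ℤ) : ℚ)) ∈ V1 W :=
  Submodule.subset_span (Set.mem_insert_of_mem _ ⟨j, rfl⟩)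

omit [Fintype σ] [DecidableEq σ] in
theorem V1_pow_mono (W : Finset (σ → ℤ)) {D D' : ℕ} (h : D ≤ D') : V1 W ^ D ≤ V1 W ^ D' := by
  induction h with
  | refl => exact le_rfl
  | step _ ih =>
    refine ih.trans fun φ hφ => ?_
    rw [pow_succ]
    simpa using Submodule.mul_mem_mul hφ (one_mem_V1 W)

omit [Fintype σ] [DecidableEq σ] in
theorem hf_mono (W : Finset (σ → ℤ)) {D D' : ℕ} (h : D ≤ D') : hf W D ≤ hf W D' :=
  Submodule.finrank_mono (V1_pow_mono W h)

omit [Fintype σ] [DecidableEq σ] in
theorem hf_le_card (W : Finset (σ → ℤ)) (D : ℕ) : hf W D ≤ W.card := by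
  have := Submodule.finrank_le (V1 W ^ D)
  simpa [hf] using this

omit [Fintype σ] in
theorem ev_mem (W : Finset (σ → ℤ)) {q : MvPolynomial σ ℚ} {D : ℕ} (h : q.totalDegree ≤ D) :
    ev W q ∈ V1 W ^ D := by
  rw [q.as_sum, map_sum]
  refine Submodule.sum_mem _ fun m hm => V1_pow_mono W ((le_totalDegree hm).trans h) ?_
  rw [monomial_eq, map_mul]
  have h1 : ev W (C (q.coeff m)) = q.coeff m • (1 : W → ℚ) := by
    simp [ev, Algebra.algebraMap_eq_smul_one]
  rw [h1, smul_mul_assoc, one_mul]
  refine Submodule.smul_mem _ _ ?_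
  rw [Finsupp.prod, Finsupp.sum, map_prod, ← Finset.prod_pow_eq_pow_sum]
  induction m.support using Finset.induction_on with
  | empty =>
    rw [Finset.prod_empty, Finset.prod_empty]
    exact Submodule.one_le.1 le_rfl
  | insert j s hj ih =>
    rw [Finset.prod_insert hj, Finset.prod_insert hj]
    refine Submodule.mul_mem_mul ?_ ih
    rw [map_pow]
    refine Submodule.pow_mem_pow _ ?_ _
    simpa [ev] using coord_mem_V1 W j

omit [Fintype σ] [DecidableEq σ] in
theorem exists_of_mem (W : Finset (σ → ℤ)) {D : ℕ} {φ : W → ℚ} (h : φ ∈ V1 W ^ D) :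
    ∃ q : MvPolynomial σ ℚ, q.totalDegree ≤ D ∧ ev W q = φ := by
  induction h using Submodule.pow_induction_on_left' with
  | algebraMap r => exact ⟨C r, by simp, by simp [ev]⟩
  | add x y i _ _ hx hy =>
    obtain ⟨p, hp, rfl⟩ := hx
    obtain ⟨q, hq, rfl⟩ := hy
    exact ⟨p + q, (totalDegree_add _ _).trans (max_le hp hq), map_add _ _ _⟩
  | mem_mul m hm i x _ hx =>
    obtain ⟨q, hq, rfl⟩ := hx
    have : ∃ p : MvPolynomial σ ℚ, p.totalDegree ≤ 1 ∧ ev W p = m := by
      induction hm using Submodule.span_induction with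
      | mem y hy =>
        rcases hy with rfl | ⟨j, rfl⟩
        · exact ⟨1, by simp, map_one _⟩
        · exact ⟨X j, by simp, by simp [ev]⟩
      | zero => exact ⟨0, by simp, map_zero _⟩
      | add a b _ _ ha hb =>
        obtain ⟨p, hp, rfl⟩ := ha
        obtain ⟨q, hq, rfl⟩ := hb
        exact ⟨p + q, (totalDegree_add _ _).trans (max_le hp hq), map_add _ _ _⟩
      | smul c a _ ha =>
        obtain ⟨p, hp, rfl⟩ := ha
        exact ⟨c • p, (totalDegree_smul_le _ _).trans hp, map_smul _ _ _⟩
    obtain ⟨p, hp, rfl⟩ := this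
    exact ⟨p * q, (totalDegree_mul _ _).trans (by omega), map_mul _ _ _⟩

omit [Fintype σ] in
/-- The monomial functions of degree at most `D` span `V1 W ^ D`. -/
theorem span_monomials (W : Finset (σ → ℤ)) (D : ℕ) :
    Submodule.span ℚ (Set.range fun m : {m : σ →₀ ℕ // (m.sum fun _ e => e) ≤ D} =>
      fun x : W => ((eval x.1 (monomial m.1 (1 : ℤ)) : ℤ) : ℚ)) = V1 W ^ D := by
  have key : ∀ m : σ →₀ ℕ, (fun x : W => ((eval x.1 (monomial m (1 : ℤ)) : ℤ) : ℚ)) =
      ev W (monomial m 1) := fun m => funext fun x => by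
    rw [ev_apply, ← eval_toQ]
    simp [toQ]
  refine le_antisymm (Submodule.span_le.2 ?_) fun φ hφ => ?_
  · rintro _ ⟨m, rfl⟩
    simp only [key]
    exact ev_mem W ((totalDegree_monomial_le _ _).trans m.2)
  · obtain ⟨q, hq, rfl⟩ := exists_of_mem W hφ
    rw [q.as_sum, map_sum]
    refine Submodule.sum_mem _ fun m hm => ?_
    have h1 : monomial m (q.coeff m) = q.coeff m • monomial m (1 : ℚ) := by
      simp [smul_monomial]
    rw [h1, map_smul, ← key]
    exact Submodule.smul_mem _ _ (Submodule.subset_span ⟨⟨m, (le_totalDegree hm).trans hq⟩, rfl⟩)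

end Pool.Agent.P.MP_d565f2_an.LS
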