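import Pool.Agent.P.MP_d565f2_an.LS.Defs

set_option autoImplicit false

open MvPolynomial Finset Module

namespace Pool.Agent.P.MP_d565f2_an.LS

theorem lin_indep {K E α : Type} [Field K] [AddCommGroup E] [Module K E] (v : α → E) {s : ℕ}
    (h : s ≤ finrank K (Submodule.span K (Set.range v))) :
    ∃ f : Fin s → α, LinearIndependent K (v ∘ f) := by
  obtain ⟨κ, a, -, h2, h3⟩ := exists_linearIndependent' K v
  rcases finite_or_infinite κ with _ | _
  · have := Fintype.ofFinite κ
    rw [← h2, finrank_span_eq_card h3] at h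
    exact ⟨a ∘ (Fintype.equivFin κ).symm ∘ Fin.castLE h,
      h3.comp _ ((Fintype.equivFin κ).symm.injective.comp (Fin.castLE_injective h))⟩
  · exact ⟨a ∘ Infinite.natEmbedding κ ∘ Fin.val,
      h3.comp _ ((Infinite.natEmbedding κ).injective.comp Fin.val_injective)⟩

theorem exists_minor {K X ι : Type} [Field K] (M : X → ι → K) {t : ℕ}
    (h : t ≤ finrank K (Submodule.span K (Set.range fun j : ι => fun x : X => M x j))) :
    ∃ (a : Fin t → X) (b : Fin t → ι), (Matrix.of fun s u => M (a s) (b u)).det ≠ 0 := by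
  classical
  obtain ⟨b, hb⟩ := lin_indep _ h
  have h1 : Submodule.span K (Set.range fun x u => M x (b u)) = ⊤ := by
    by_contra hne
    obtain ⟨φ, h0, hφ⟩ := Submodule.exists_le_ker_of_lt_top _ (lt_top_iff_ne_top.2 hne)
    have := Fintype.linearIndependent_iff.1 hb (fun u => φ fun j => if u = j then 1 else 0) (by
      funext x
      have e : φ _ = 0 := hφ (Submodule.subset_span ⟨x, rfl⟩)
      rw [LinearMap.pi_apply_eq_sum_univ] at e
      simpa [mul_comm] using e)
    exact h0 (LinearMap.ext fun y => by simp [LinearMap.pi_apply_eq_sum_univ φ y, this])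
  obtain ⟨a, ha⟩ := lin_indep (K := K) (fun x u => M x (b u)) (s := t) (by rw [h1]; simp)
  exact ⟨a, b, ((Matrix.isUnit_iff_isUnit_det _).1
    (Matrix.linearIndependent_rows_iff_isUnit.1 ha)).ne_zero⟩

/-- If the rows expand in powers of `p` with coefficients in spaces of small dimension, then a
high power of `p` divides the determinant. -/
theorem det_dvd {n : Type} [Fintype n] [DecidableEq n] (p : ℤ) (t : ℕ)
    (V : ℕ → Submodule ℚ (n → ℚ)) (hV : Monotone V) (ρ : ℕ → ℕ)
    (hρ : ∀ j < t, finrank ℚ (V j) ≤ ρ j) (w : n → ℕ → n → ℤ)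
    (hw : ∀ a, ∀ j < t, (fun b => (w a j b : ℚ)) ∈ V j) (A : Matrix n n ℤ)
    (hA : ∀ a b, A a b = ∑ j ∈ range (t + 1), p ^ j * w a j b) :
    p ^ (∑ j ∈ range t, (Fintype.card n - ρ j)) ∣ A.det := by
  classical
  have e : A.det = (Matrix.detRowAlternating (R := ℤ) (n := n)).toMultilinearMap
      fun a => ∑ j ∈ range (t + 1), p ^ j • w a j := by
    change Matrix.det A = Matrix.det (Matrix.of fun a => ∑ j ∈ range (t + 1), p ^ j • w a j)
    congr 1
    ext a b
    simp [hA]
  rw [e, MultilinearMap.map_sum_finset]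
  refine dvd_sum fun f hf => ?_
  rw [MultilinearMap.map_smul_univ, smul_eq_mul, prod_pow_eq_pow_sum]
  by_cases h0 : Matrix.det (Matrix.of fun a => w a (f a)) = 0
  · exact Dvd.dvd.mul_left (h0.symm ▸ dvd_zero _ : _ ∣ Matrix.det (Matrix.of fun a => w a (f a))) _
  refine (pow_dvd_pow p ?_).mul_right _
  have hli : LinearIndependent ℚ fun a b => (w a (f a) b : ℚ) :=
    Matrix.linearIndependent_rows_of_det_ne_zero
      (A := (Matrix.of fun a => w a (f a)).map (Int.castRingHom ℚ)) (by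
        rw [← RingHom.mapMatrix_apply, ← RingHom.map_det]
        exact Int.cast_ne_zero.2 h0)
  have h1 : ∀ a, f a = ∑ j ∈ range t, if j < f a then 1 else 0 := fun a => by
    have := mem_range.1 (Fintype.mem_piFinset.1 hf a)
    rw [← card_filter, show (range t).filter (· < f a) = range (f a) by
      ext j; simp only [mem_filter, mem_range]; omega, card_range]
  rw [sum_congr rfl fun a _ => h1 a, sum_comm]
  refine sum_le_sum fun j hj => ?_
  have hj' := mem_range.1 hj
  have h2 : Fintype.card {a // ¬ j < f a} ≤ ρ j := by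
    have l : LinearIndependent ℚ fun a : {a // ¬ j < f a} =>
        (⟨fun b => (w a (f a) b : ℚ), hV (not_lt.1 a.2)
          (hw a _ ((not_lt.1 a.2).trans_lt hj'))⟩ : V j) :=
      LinearIndependent.of_comp (V j).subtype (hli.comp _ Subtype.val_injective)
    exact l.fintype_card_le_finrank.trans (hρ j hj')
  rw [← card_filter, ← Fintype.card_subtype]
  rw [Fintype.card_subtype_compl] at h2
  omega

theorem pow_dvd_det {m : Type} [Fintype m] [DecidableEq m] (A : Matrix m m ℤ) (q : ℤ)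
    (N : Submodule ℚ (m → ℚ)) {κ : ℕ} (hN : finrank ℚ N ≤ κ)
    (h : ∀ j, ∃ φ ∈ N, ∀ i, ∃ b : ℤ, (A i j : ℚ) = φ i + q * b) :
    q ^ (Fintype.card m - κ) ∣ A.det := by
  choose φ hφ b hb using h
  have := det_dvd q 1 (fun _ => N) monotone_const (fun _ => κ) (fun _ _ => hN)
    (fun j l i => if l = 0 then A i j - q * b j i else b j i) (fun j l hl => by
      convert hφ j using 2 with i
      rw [if_pos (by omega)]
      push_cast
      rw [hb, add_sub_cancel_right]) A.transpose (fun j i => by simp [sum_range_succ])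
  simpa using this

open scoped Matrix.Norms.Elementwise in
theorem siegel {X ι : Type} [Fintype ι] (a : X → ι → ℤ) {B h : ℕ} (hB1 : 1 ≤ B)
    (hB : ∀ x j, |a x j| ≤ B)
    (hr : finrank ℚ (Submodule.span ℚ (Set.range fun j : ι => fun x : X => (a x j : ℚ))) ≤ h)
    (hh : 2 * h ≤ Fintype.card ι) (h0 : 0 < Fintype.card ι) :
    ∃ t : ι → ℤ, t ≠ 0 ∧ (∀ j, |t j| ≤ (Fintype.card ι : ℤ) * B) ∧
      ∀ x, ∑ j, a x j * t j = 0 := by
  classical
  obtain ⟨κ, f, -, h2, h3⟩ := exists_linearIndependent' ℚ fun (x : X) (j : ι) => (a x j : ℚ)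
  have : Finite κ := h3.finite
  have := Fintype.ofFinite κ
  have hκ : Fintype.card κ ≤ h := by
    have e := LinearIndependent.rank_matrix (M := Matrix.of fun k j => (a (f k) j : ℚ)) h3
    rw [Matrix.rank_eq_finrank_span_cols] at e
    have := FiniteDimensional.span_of_finite ℚ
      (Set.finite_range fun j : ι => fun x : X => (a x j : ℚ))
    refine e.ge.trans (le_trans ?_ ((Submodule.finrank_map_le (LinearMap.funLeft ℚ ℚ f) _).trans hr))
    rw [Submodule.map_span, ← Set.range_comp]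
    rfl
  have all : ∀ t : ι → ℤ, (∀ k, ∑ j, a (f k) j * t j = 0) → ∀ x, ∑ j, a x j * t j = 0 := by
    intro t ht x
    have hx : (fun j => (a x j : ℚ)) ∈ Submodule.span ℚ (Set.range
      ((fun (x : X) (j : ι) => (a x j : ℚ)) ∘ f)) := h2 ▸ Submodule.subset_span ⟨x, rfl⟩
    obtain ⟨c, hc⟩ := (Submodule.mem_span_range_iff_exists_fun ℚ).1 hx
    have e : ∑ j, (a x j : ℚ) * t j = ∑ k, c k * ((∑ j, a (f k) j * t j : ℤ) : ℚ) := by
      push_cast
      simp only [mul_sum]
      rw [sum_comm]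
      refine sum_congr rfl fun j _ => ?_
      rw [← congrFun hc j]
      simp [sum_mul, mul_assoc]
    simp only [ht, Int.cast_zero, mul_zero, sum_const_zero] at e
    exact_mod_cast e
  have hB' : (1 : ℝ) ≤ B := by exact_mod_cast hB1
  rcases Nat.eq_zero_or_pos (Fintype.card κ) with hz | hz
  · have := Fintype.card_eq_zero_iff.1 hz
    obtain ⟨j⟩ := Fintype.card_pos_iff.1 h0
    exact ⟨1, fun e => one_ne_zero (congrFun e j), fun j => by
      rw [Pi.one_apply, abs_one]; exact_mod_cast Nat.mul_pos h0 hB1,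
      all _ fun k => isEmptyElim k⟩
  obtain ⟨t, ht0, ht1, ht2⟩ := Int.Matrix.exists_ne_zero_int_vec_norm_le
    (Matrix.of fun k j => a (f k) j) (by omega) hz
  refine ⟨t, ht0, fun j => ?_, all t fun k => congrFun ht1 k⟩
  have hA : ‖Matrix.of fun k j => a (f k) j‖ ≤ (B : ℝ) :=
    (Matrix.norm_le_iff (by positivity)).2 fun k j => by
      rw [Int.norm_eq_abs]; exact_mod_cast hB _ j
  have h1 : (1 : ℝ) ≤ Fintype.card ι := by exact_mod_cast h0
  have h2 : (2 : ℝ) * Fintype.card κ ≤ Fintype.card ι := by exact_mod_cast (by omega)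
  have h3 : (0 : ℝ) < Fintype.card κ := by exact_mod_cast hz
  have h4 := ((norm_le_pi_norm t j).trans ht2).trans (Real.rpow_le_self_of_one_le
    (one_le_mul_of_one_le_of_one_le h1 (le_max_left _ _))
    ((div_le_one (by linarith)).2 (by linarith)))
  have h5 := h4.trans (mul_le_mul_of_nonneg_left (max_le hB' hA) (by positivity))
  rw [Int.norm_eq_abs] at h5
  exact_mod_cast h5

theorem exists_primitive {κ : Type} [Fintype κ] (c : κ → ℚ) (hc : c ≠ 0) {p : ℕ} (hp : p.Prime) :
    ∃ (t : ℚ) (c' : κ → ℤ), (∀ j, (c' j : ℚ) = t * c j) ∧ ∃ j, ¬ (p : ℤ) ∣ c' j := by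
  classical
  obtain ⟨b, hb⟩ := IsLocalization.exist_integer_multiples_of_finite (nonZeroDivisors ℤ) c
  choose e he using hb
  obtain ⟨j0, hj0⟩ := Function.ne_iff.1 hc
  have he' : ∀ j, (e j : ℚ) = (b : ℤ) * c j := fun j => by simpa using he j
  have h0 : univ.gcd e ≠ 0 := fun h => by
    have := he' j0
    rw [gcd_eq_zero_iff.1 h j0 (mem_univ _), Int.cast_zero] at this
    exact mul_ne_zero (Int.cast_ne_zero.2 (nonZeroDivisors.coe_ne_zero b)) hj0 this.symm
  obtain ⟨g, hg, h1⟩ := extract_gcd e ⟨j0, mem_univ _⟩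
  refine ⟨(b : ℤ) / (univ.gcd e : ℤ), g, fun j => ?_, by_contra fun h => ?_⟩
  · have : ((univ.gcd e : ℤ) : ℚ) ≠ 0 := Int.cast_ne_zero.2 h0
    rw [div_mul_eq_mul_div, ← he', eq_div_iff this, mul_comm]
    exact_mod_cast (hg j (mem_univ _)).symm
  · push Not at h
    exact (Nat.prime_iff_prime_int.1 hp).not_dvd_one (h1 ▸ dvd_gcd fun j _ => h j)

theorem exists_row_not_dvd {κ : Type} [Fintype κ] [DecidableEq κ] (A : Matrix κ κ ℤ) (c : κ → ℤ)
    {p : ℕ} (hp : p.Prime) (hA : ¬ (p : ℤ) ∣ A.det) (hc : ∃ j, ¬ (p : ℤ) ∣ c j) :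
    ∃ i, ¬ (p : ℤ) ∣ ∑ j, c j * A i j := by
  by_contra h
  push Not at h
  obtain ⟨j, hj⟩ := hc
  have e := congrFun (Matrix.mulVec_mulVec c A.adjugate A) j
  rw [Matrix.adjugate_mul, Matrix.smul_mulVec, Matrix.one_mulVec] at e
  have : (p : ℤ) ∣ A.det * c j := (dvd_sum fun i _ => Dvd.dvd.mul_left (by
    simpa [Matrix.mulVec, dotProduct, mul_comm] using h i) _).trans (dvd_of_eq e)
  exact ((Nat.prime_iff_prime_int.1 hp).dvd_or_dvd this).elim hA hj

end Pool.Agent.P.MP_d565f2_an.LS
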