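import Pool.Agent.P.MP_d565f2_an.LS.Defs

set_option autoImplicit false
set_option linter.unusedSectionVars false

open MvPolynomial Finset Module

namespace Pool.Agent.P.MP_d565f2_an.LS

variable {σ : Type} [Fintype σ] [DecidableEq σ]

variable {L : ℕ}

theorem Size_sub {g : MvPolynomial σ ℤ} {s : Finset (σ →₀ ℕ)} (h : g.support ⊆ s) :
    nrm g = ∑ m ∈ s, (g.coeff m).natAbs :=
  Finset.sum_subset h fun m _ hm => by rw [notMem_support_iff.1 hm]; rfl

theorem Size_add (g h : MvPolynomial σ ℤ) : nrm (g + h) ≤ nrm g + nrm h := by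
  rw [Size_sub (support_add (p := g) (q := h)), Size_sub (g := g) subset_union_left,
    Size_sub (g := h) subset_union_right, ← Finset.sum_add_distrib]
  exact Finset.sum_le_sum fun m _ => by rw [coeff_add]; exact Int.natAbs_add_le _ _

theorem Size_neg (g : MvPolynomial σ ℤ) : nrm (-g) = nrm g := by
  simp [nrm]

theorem nrm_sum_le {α : Type} (s : Finset α) (g : α → MvPolynomial σ ℤ) :
    nrm (∑ a ∈ s, g a) ≤ ∑ a ∈ s, nrm (g a) := by
  classical
  induction s using Finset.induction_on with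
  | empty => simp [nrm]
  | insert a s ha ih =>
    rw [Finset.sum_insert ha, Finset.sum_insert ha]
    exact (Size_add _ _).trans (Nat.add_le_add_left ih _)

theorem nrm_monomial (m : σ →₀ ℕ) (c : ℤ) : nrm (monomial m c) = c.natAbs := by
  rw [Size_sub support_monomial_subset]
  simp

theorem Size_mul (g h : MvPolynomial σ ℤ) : nrm (g * h) ≤ nrm g * nrm h := by
  conv_lhs => rw [g.as_sum, h.as_sum, Finset.sum_mul_sum]
  refine (nrm_sum_le _ _).trans ?_
  rw [nrm, nrm, Finset.sum_mul_sum]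
  refine Finset.sum_le_sum fun m _ => (nrm_sum_le _ _).trans (Finset.sum_le_sum fun m' _ => ?_)
  rw [monomial_mul, nrm_monomial, Int.natAbs_mul]

theorem nrm_pderiv_le (j : σ) (g : MvPolynomial σ ℤ) :
    nrm (pderiv j g) ≤ g.totalDegree * nrm g := by
  conv_lhs => rw [g.as_sum, map_sum]
  refine (nrm_sum_le _ _).trans ?_
  rw [nrm, Finset.mul_sum]
  refine Finset.sum_le_sum fun m hm => ?_
  rw [pderiv_monomial, nrm_monomial, Int.natAbs_mul, Int.natAbs_natCast, mul_comm]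
  exact Nat.mul_le_mul_right _ ((monomial_le_degreeOf j hm).trans (degreeOf_le_totalDegree g j))

theorem Size_deg (j : σ) (g : MvPolynomial σ ℤ) : (pderiv j g).totalDegree ≤ g.totalDegree := by
  conv_lhs => rw [g.as_sum, map_sum]
  refine totalDegree_finsetSum_le fun m hm => ?_
  rw [pderiv_monomial]
  refine (totalDegree_monomial_le _ _).trans (le_trans ?_ (le_totalDegree hm))
  rw [Finsupp.sum_fintype _ _ (by simp), Finsupp.sum_fintype _ _ (by simp)]
  exact Finset.sum_le_sum fun i _ => by simp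

theorem Sz.mono {g : MvPolynomial σ ℤ} {e e' : ℕ} (h : Sz L g e) (he : e ≤ e') : Sz L g e' :=
  ⟨h.1.trans he, h.2.trans (Nat.pow_le_pow_right two_pos (Nat.mul_le_mul_right _ he))⟩

theorem Sz.zero (e : ℕ) : Sz L (0 : MvPolynomial σ ℤ) e := ⟨by simp, by simp [nrm]⟩

theorem Sz.monomial (m : σ →₀ ℕ) (c : ℤ) {e : ℕ} (hm : (m.sum fun _ k => k) ≤ e)
    (hc : c.natAbs ≤ 2 ^ (e * L)) : Sz L (monomial m c) e :=
  ⟨(totalDegree_monomial_le _ _).trans hm, (nrm_monomial m c).trans_le hc⟩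

theorem Sz.one (e : ℕ) : Sz L (1 : MvPolynomial σ ℤ) e :=
  Sz.monomial 0 1 (by simp) Nat.one_le_two_pow

theorem Sz.X (j : σ) : Sz L (X j : MvPolynomial σ ℤ) 1 :=
  Sz.monomial _ 1 (by simp) Nat.one_le_two_pow

theorem Sz.mul {g h : MvPolynomial σ ℤ} {a b : ℕ} (hg : Sz L g a) (hh : Sz L h b) :
    Sz L (g * h) (a + b) :=
  ⟨(totalDegree_mul _ _).trans (Nat.add_le_add hg.1 hh.1), (Size_mul _ _).trans (by
    rw [add_mul, pow_add]; exact Nat.mul_le_mul hg.2 hh.2)⟩

theorem Sz.sum {α : Type} (s : Finset α) (g : α → MvPolynomial σ ℤ) {e : ℕ} (hs : s.card ≤ 2 ^ L)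
    (h : ∀ a ∈ s, Sz L (g a) e) : Sz L (∑ a ∈ s, g a) (e + 1) := by
  refine ⟨totalDegree_finsetSum_le fun a ha => (h a ha).1.trans e.le_succ,
    (nrm_sum_le _ _).trans ((Finset.sum_le_card_nsmul _ _ _ fun a ha => (h a ha).2).trans ?_)⟩
  rw [smul_eq_mul, add_mul, one_mul, pow_add, mul_comm]
  exact Nat.mul_le_mul_left _ hs

theorem Sz.add (hL : 1 ≤ L) {g h : MvPolynomial σ ℤ} {e : ℕ} (hg : Sz L g e) (hh : Sz L h e) :
    Sz L (g + h) (e + 1) := by
  refine ⟨(totalDegree_add _ _).trans ((max_le hg.1 hh.1).trans e.le_succ),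
    (Size_add _ _).trans ((Nat.add_le_add hg.2 hh.2).trans ?_)⟩
  rw [← mul_two, ← pow_succ, add_mul, one_mul]
  exact Nat.pow_le_pow_right two_pos (by omega)

theorem Size_szneg {g : MvPolynomial σ ℤ} {e : ℕ} (h : Sz L g e) : Sz L (-g) e :=
  ⟨by rw [totalDegree_neg]; exact h.1, by rw [Size_neg]; exact h.2⟩

theorem Sz.sub (hL : 1 ≤ L) {g h : MvPolynomial σ ℤ} {e : ℕ} (hg : Sz L g e) (hh : Sz L h e) :
    Sz L (g - h) (e + 1) := by
  rw [sub_eq_add_neg]
  exact hg.add hL (Size_szneg hh)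

theorem Sz.pderiv {g : MvPolynomial σ ℤ} {e : ℕ} (h : Sz L g e) (he : e ≤ 2 ^ L) (j : σ) :
    Sz L (pderiv j g) (e + 1) := by
  refine ⟨((Size_deg j g).trans h.1).trans e.le_succ, (nrm_pderiv_le j g).trans ?_⟩
  rw [add_mul, one_mul, pow_add, mul_comm]
  exact Nat.mul_le_mul h.2 (h.1.trans he)

theorem Sz.der {v : σ → MvPolynomial σ ℤ} {g : MvPolynomial σ ℤ} {e a : ℕ}
    (hv : ∀ j, Sz L (v j) e) (h : Sz L g a) (ha : a ≤ 2 ^ L) (hσ : Fintype.card σ ≤ 2 ^ L) :
    Sz L (der v g) (a + (e + 2)) :=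
  (Sz.sum _ _ hσ fun j _ => (hv j).mul (h.pderiv ha j)).mono (by omega)

theorem Sz.wd {u : σ → σ → MvPolynomial σ ℤ} {g : MvPolynomial σ ℤ} {e a μ : ℕ}
    (hu : ∀ i j, Sz L (u i j) e) (h : Sz L g a) (hσ : Fintype.card σ ≤ 2 ^ L) {l : List σ}
    (hl : l.length ≤ μ) (ha : a + μ * (e + 2) ≤ 2 ^ L) : Sz L (wd u l g) (a + μ * (e + 2)) := by
  induction l generalizing μ with
  | nil => exact h.mono (Nat.le_add_right _ _)
  | cons i l ih =>
    obtain _ | μ := μ
    · simp at hl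
    · rw [add_mul, one_mul, ← add_assoc] at ha ⊢
      rw [wd_cons, add_assoc a]
      have := (ih (Nat.le_of_succ_le_succ hl) (by omega)).der (hu i) (by omega) hσ
      rwa [add_assoc a] at this

theorem Sz.eval_le {g : MvPolynomial σ ℤ} {e : ℕ} (h : Sz L g e) {x : σ → ℤ}
    (hx : ∀ j, |x j| ≤ 2 ^ L) : |eval x g| ≤ 2 ^ (2 * e * L) := by
  have h1 : ∀ m ∈ g.support, |g.coeff m * ∏ i ∈ m.support, x i ^ m i| ≤
      ((g.coeff m).natAbs : ℤ) * 2 ^ (e * L) := fun m hm => by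
    rw [abs_mul, Int.natCast_natAbs, Finset.abs_prod]
    refine mul_le_mul_of_nonneg_left ?_ (abs_nonneg _)
    refine (Finset.prod_le_prod (g := fun i => (2 ^ L) ^ m i) (fun i _ => abs_nonneg _)
      fun i _ => ?_).trans ?_
    · rw [abs_pow]
      exact pow_le_pow_left₀ (abs_nonneg _) (hx i) _
    · rw [Finset.prod_pow_eq_pow_sum, ← pow_mul, mul_comm]
      exact pow_le_pow_right₀ one_le_two
        (Nat.mul_le_mul_right _ ((le_totalDegree hm).trans h.1))
  rw [eval_eq]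
  refine (Finset.abs_sum_le_sum_abs _ _).trans ((Finset.sum_le_sum h1).trans ?_)
  rw [← Finset.sum_mul, ← Nat.cast_sum, mul_assoc, two_mul, pow_add]
  exact mul_le_mul_of_nonneg_right (by exact_mod_cast h.2) (by positivity)

theorem Size_prod {α : Type} (s : Finset α) (g : α → MvPolynomial σ ℤ) {e : ℕ}
    (h : ∀ a, Sz L (g a) e) : Sz L (∏ a ∈ s, g a) (s.card * e) := by
  classical
  induction s using Finset.induction_on with
  | empty => exact Sz.one _
  | insert a s ha ih =>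
    rw [Finset.prod_insert ha, Finset.card_insert_of_notMem ha, add_mul, one_mul, add_comm]
    exact (h a).mul ih

theorem Sz.det {κ : Type} [Fintype κ] [DecidableEq κ] (hL : 1 ≤ L)
    (A : Matrix κ κ (MvPolynomial σ ℤ)) {e : ℕ} (h : ∀ i j, Sz L (A i j) e) :
    Sz L A.det (Fintype.card κ * (e + Fintype.card κ)) := by
  have h1 : ∀ π : Equiv.Perm κ, Sz L (Equiv.Perm.sign π • ∏ i, A (π i) i) (Fintype.card κ * e) :=
    fun π => by
      have := Size_prod (L := L) univ (fun i => A (π i) i) fun i => h _ _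
      rcases Int.units_eq_one_or (Equiv.Perm.sign π) with e1 | e1 <;> rw [e1]
      · rwa [one_smul]
      · rw [Units.neg_smul, one_smul]
        exact Size_szneg this
  rw [Matrix.det_apply]
  refine ⟨totalDegree_finsetSum_le fun π _ => (h1 π).1.trans
    (Nat.mul_le_mul_left _ (Nat.le_add_right _ _)), (nrm_sum_le _ _).trans
      ((Finset.sum_le_card_nsmul _ _ _ fun π _ => (h1 π).2).trans ?_)⟩
  rw [smul_eq_mul, Finset.card_univ, Fintype.card_perm, mul_add, add_mul, pow_add, mul_comm]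
  refine Nat.mul_le_mul_left _ ((Nat.factorial_le_pow _).trans ?_)
  rw [mul_assoc, mul_comm, pow_mul]
  refine Nat.pow_le_pow_left (Nat.lt_two_pow_self.le.trans ?_) _
  exact Nat.pow_le_pow_right two_pos (Nat.le_mul_of_pos_right _ hL)

end Pool.Agent.P.MP_d565f2_an.LS
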