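import Pool.Agent.P.MP_d565f2_an.LS.Jet
import Pool.Agent.P.MP_d565f2_an.LS.Lin
import Pool.Agent.P.MP_d565f2_an.LS.Size

set_option autoImplicit false

open MvPolynomial Finset Module

namespace Pool.Agent.P.MP_d565f2_an.LS

variable {σ : Type} [Fintype σ] [DecidableEq σ]

variable {L e : ℕ} {W : Finset (σ → ℤ)} {I : Finset σ} {v : σ → σ → MvPolynomial σ ℤ}
  {J : MvPolynomial σ ℤ}

/-- The jets of a rational polynomial at the points of `W`. -/
noncomputable def Fat_jet (W : Finset (σ → ℤ)) (v : σ → σ → MvPolynomial σ ℤ)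
    (P : List σ → Prop) : MvPolynomial σ ℚ →ₗ[ℚ] (W × {l : List σ // P l} → ℚ) where
  toFun q := fun xl => eval (cst xl.1.1) (wd (fun i j => toQ (v i j)) xl.2.1 q)
  map_add' p q := funext fun xl => by rw [wd_add, map_add, Pi.add_apply]
  map_smul' c q := funext fun xl => by
    rw [smul_eq_C_mul, wd_C_mul, map_mul, eval_C, Pi.smul_apply, smul_eq_mul, RingHom.id_apply]

omit [DecidableEq σ] in
theorem Fat_mem (W : Finset (σ → ℤ)) (v : σ → σ → MvPolynomial σ ℤ) (P : List σ → Prop) {D : ℕ}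
    {q : MvPolynomial σ ℚ} (hq : q.totalDegree ≤ D) :
    Fat_jet W v P q ∈ Submodule.span ℚ (Set.range
      fun m : {m : σ →₀ ℕ // (m.sum fun _ k => k) ≤ D} => fun xl : W × {l : List σ // P l} =>
        ((eval xl.1.1 (wd v xl.2.1 (monomial m.1 (1 : ℤ))) : ℤ) : ℚ)) := by
  rw [q.as_sum, map_sum]
  refine Submodule.sum_mem _ fun m hm => ?_
  have h1 : monomial m (q.coeff m) = q.coeff m • monomial m (1 : ℚ) := by
    simp [smul_monomial]
  rw [h1, map_smul]
  refine Submodule.smul_mem _ _ (Submodule.subset_span ⟨⟨m, (le_totalDegree hm).trans hq⟩, ?_⟩)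
  funext xl
  have h2 : (monomial m (1 : ℚ) : MvPolynomial σ ℚ) = toQ (monomial m 1) := by simp [toQ]
  change ((eval xl.1.1 (wd v xl.2.1 (monomial m (1 : ℤ))) : ℤ) : ℚ) =
    eval (cst xl.1.1) (wd (fun i j => toQ (v i j)) xl.2.1 (monomial m 1))
  rw [h2, ← eval_toQ, toQ, map_wd]

omit [Fintype σ] in
theorem Fat_interp (W : Finset (σ → ℤ)) (E : ℕ) :
    ∃ (a : Fin (hf W E) → W) (S : Fin (hf W E) → MvPolynomial σ ℚ),
      (∀ s, (S s).totalDegree ≤ E) ∧
        ∀ s' s, eval (cst (a s').1) (S s) = if s' = s then 1 else 0 := by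
  obtain ⟨a, b, h⟩ := exists_minor (K := ℚ) (t := hf W E)
    (fun (x : W) (m : {m : σ →₀ ℕ // (m.sum fun _ e => e) ≤ E}) =>
      ((eval x.1 (monomial m.1 (1 : ℤ)) : ℤ) : ℚ)) (by rw [span_monomials]; exact le_rfl)
  generalize hA : (Matrix.of fun s u =>
    ((eval (a s).1 (monomial (b u).1 (1 : ℤ)) : ℤ) : ℚ)) = A at h
  refine ⟨a, fun s => ∑ u, C (A⁻¹ u s) * toQ (monomial (b u).1 1), fun s => ?_, fun s' s => ?_⟩
  · refine totalDegree_finsetSum_le fun u _ => (totalDegree_mul _ _).trans ?_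
    rw [totalDegree_C, zero_add]
    exact (totalDegree_toQ _).trans ((totalDegree_monomial_le _ _).trans (b u).2)
  · rw [← Matrix.one_apply, ← Matrix.mul_nonsing_inv A (isUnit_iff_ne_zero.2 h), Matrix.mul_apply,
      map_sum]
    refine Finset.sum_congr rfl fun u _ => ?_
    rw [map_mul, eval_C, eval_toQ, mul_comm, ← hA, Matrix.of_apply]

/-- The shifted monomials. -/
noncomputable def Fat_P (I : Finset σ) (a : σ → ℚ) {ν : ℕ} (β : I → Fin (ν + 1)) :
    MvPolynomial σ ℚ := ∏ i : I, (X i.1 - C (a i.1)) ^ (β i : ℕ)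

omit [Fintype σ] in
theorem Fat_indep (I : Finset σ) (a : σ → ℚ) (ν : ℕ) :
    LinearIndependent ℚ fun β : I → Fin (ν + 1) => Fat_P I a β := by
  let f : (I → Fin (ν + 1)) → σ →₀ ℕ := fun β => ∑ i : I, Finsupp.single i.1 (β i : ℕ)
  have hf : ∀ β (i : I), f β i.1 = β i := fun β i => by
    simp only [f, Finsupp.finsetSum_apply, Finsupp.single_apply, Subtype.val_inj,
      Finset.sum_ite_eq', Finset.mem_univ, if_true]
  have inj : Function.Injective f := fun β β' h => funext fun i => Fin.ext (by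
    rw [← hf β i, ← hf β' i, h])
  refine LinearIndependent.of_comp
    (aeval (R := ℚ) fun j => (X j + C (a j) : MvPolynomial σ ℚ)).toLinearMap ?_
  have e : (aeval (R := ℚ) fun j => (X j + C (a j) : MvPolynomial σ ℚ)).toLinearMap ∘
      (fun β : I → Fin (ν + 1) => Fat_P I a β) = basisMonomials σ ℚ ∘ f := by
    funext β
    simp [Fat_P, f, monomial_sum_one, X_pow_eq_monomial]
  rw [e]
  exact (basisMonomials σ ℚ).linearIndependent.comp f inj

omit [Fintype σ] in
theorem Fat_UI (I : Finset σ) (a : σ → ℚ) {ν : ℕ} (β : I → Fin (ν + 1)) :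
    Fat_P I a β ∈ UI I a ^ ∑ i, (β i : ℕ) := by
  rw [Fat_P]
  induction (Finset.univ : Finset I) using Finset.induction_on with
  | empty =>
    rw [Finset.prod_empty, Finset.sum_empty, pow_zero]
    exact Submodule.one_le.1 le_rfl
  | insert j s hj ih =>
    rw [Finset.prod_insert hj, Finset.sum_insert hj, pow_add]
    have h : X j.1 - C (a j.1) ∈ UI I a := Submodule.subset_span ⟨j.1, j.2, rfl⟩
    exact Submodule.mul_mem_mul (Submodule.pow_mem_pow _ h _) ih

omit [Fintype σ] [DecidableEq σ] in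
theorem Fat_le (I : Finset σ) {ν : ℕ} (β : I → Fin (ν + 1)) : ∑ i, (β i : ℕ) ≤ I.card * ν := by
  have := Finset.sum_le_card_nsmul Finset.univ (fun i => (β i : ℕ)) ν
    fun i _ => Nat.lt_succ_iff.1 (β i).2
  simpa using this

omit [Fintype σ] [DecidableEq σ] in
theorem Fat_deg (I : Finset σ) (a : σ → ℚ) {ν : ℕ} (β : I → Fin (ν + 1)) :
    (Fat_P I a β).totalDegree ≤ I.card * ν := by
  refine (totalDegree_finsetProd _ _).trans (le_trans (Finset.sum_le_sum fun i _ => ?_)
    (Fat_le I β))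
  refine (totalDegree_pow _ _).trans ?_
  have : (X i.1 - C (a i.1) : MvPolynomial σ ℚ).totalDegree ≤ 1 :=
    (totalDegree_sub _ _).trans (by simp)
  simpa using Nat.mul_le_mul_left (β i : ℕ) this

theorem Fat_card {V ι : Type} [AddCommGroup V] [Module ℚ V] [Fintype ι] {N : Submodule ℚ V}
    [Module.Finite ℚ N] {w : ι → V} (li : LinearIndependent ℚ w) (h : ∀ i, w i ∈ N) :
    Fintype.card ι ≤ finrank ℚ N :=
  (LinearIndependent.of_comp N.subtype (v := fun i => (⟨w i, h i⟩ : N))
    li).fintype_card_le_finrank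

/- Fat points.  h = hf W E; `span_monomials` and `exists_minor` give points a s and rational
polynomials S s of degree ≤ E with (S s)(a s') = 1 if s = s', else 0.  The jets of the
(ν + 1) ^ |I| * h polynomials S s ^ (μ + 1) * ∏ i in I, (X i - a s i) ^ β i (β : I → Fin (ν + 1),
μ = |I| ν) are independent: at a s the other terms lie in mx ^ (μ + 1); take the least total
degree j of a β with nonzero coefficient and apply `detect` (S s ^ (μ + 1) - 1 lies in mx);
the shifted monomials are independent. -/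
theorem jet_rank (hS : Stage L W I v J e) {ν E D : ℕ}
    (hD : (I.card * ν + 1) * E + I.card * ν ≤ D) :
    (ν + 1) ^ I.card * hf W E ≤ finrank ℚ (Submodule.span ℚ (Set.range
      fun m : {m : σ →₀ ℕ // (m.sum fun _ k => k) ≤ D} =>
        fun xl : W × {l : List σ // (∀ i ∈ l, i ∈ I) ∧ l.length ≤ I.card * ν} =>
          ((eval xl.1.1 (wd v xl.2.1 (monomial m.1 (1 : ℤ))) : ℤ) : ℚ))) := by
  obtain ⟨a, S, hdeg, hev⟩ := Fat_interp W E
  let F : Fin (hf W E) × (I → Fin (ν + 1)) → MvPolynomial σ ℚ := fun i =>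
    S i.1 ^ (I.card * ν + 1) * Fat_P I (cst (a i.1).1) i.2
  have hF : ∀ i, (F i).totalDegree ≤ D := fun i => by
    refine (totalDegree_mul _ _).trans (le_trans (add_le_add ?_ (Fat_deg _ _ _)) hD)
    exact (totalDegree_pow _ _).trans (Nat.mul_le_mul_left _ (hdeg _))
  have li : LinearIndependent ℚ fun i =>
      Fat_jet W v (fun l => (∀ i ∈ l, i ∈ I) ∧ l.length ≤ I.card * ν) (F i) := by
    rw [Fintype.linearIndependent_iff]
    intro g hg
    simp only [← map_smul, ← map_sum] at hg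
    have key : ∀ s j (β : I → Fin (ν + 1)), ∑ i, (β i : ℕ) = j → g (s, β) = 0 := by
      intro s j
      induction j using Nat.strong_induction_on with
      | _ j ih =>
        intro β₀ h₀
        have hj : j ≤ I.card * ν := h₀ ▸ Fat_le I β₀
        let c : (I → Fin (ν + 1)) → ℚ := fun β => if ∑ i, (β i : ℕ) = j then g (s, β) else 0
        have h1 : ∑ β, c β • Fat_P I (cst (a s).1) β ∈ UI I (cst (a s).1) ^ j := by
          refine Submodule.sum_mem _ fun β _ => ?_
          by_cases h : ∑ i, (β i : ℕ) = j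
          · exact Submodule.smul_mem _ _ (h ▸ Fat_UI I _ β)
          · simp only [c, if_neg h, zero_smul, zero_mem]
        have h2 : ∑ i, g i • F i - ∑ β, c β • Fat_P I (cst (a s).1) β ∈
            mx (cst (a s).1) ^ (j + 1) := by
          rw [Fintype.sum_prod_type, ← Finset.add_sum_erase _ _ (Finset.mem_univ s),
            add_sub_right_comm, ← Finset.sum_sub_distrib]
          refine add_mem (Submodule.sum_mem _ fun β _ => ?_)
            (Submodule.sum_mem _ fun s' hs' => Submodule.sum_mem _ fun β _ => ?_)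
          · have hP := mem_mx_pow_of_UI (Fat_UI I (cst (a s).1) β)
            rcases lt_trichotomy (∑ i, (β i : ℕ)) j with h | h | h
            · simp only [c, if_neg h.ne, ih _ h β rfl, zero_smul, sub_zero, zero_mem]
            · simp only [c, if_pos h, F]
              rw [← smul_sub, ← sub_one_mul, pow_succ']
              refine Submodule.smul_of_tower_mem _ _ (Ideal.mul_mem_mul ?_ (h ▸ hP))
              rw [mem_mx, map_sub, map_pow, hev, if_pos rfl, one_pow, map_one, sub_self]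
            · simp only [c, if_neg h.ne', zero_smul, sub_zero, F]
              exact Submodule.smul_of_tower_mem _ _
                (Ideal.mul_mem_left _ _ (Ideal.pow_le_pow_right h hP))
          · refine Submodule.smul_of_tower_mem _ _ (Ideal.mul_mem_right _ _
              (Ideal.pow_le_pow_right (Nat.succ_le_succ hj) (Ideal.pow_mem_pow ?_ _)))
            rw [mem_mx, hev, if_neg (Finset.ne_of_mem_erase hs').symm]
        have h3 := detect (u := fun i j => toQ (v i j)) (J := toQ J)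
          (fun i hi j hj => by rw [hS.diag i hi j hj, apply_ite toQ, map_zero])
          (by rw [eval_toQ]; exact_mod_cast hS.ne _ (a s).2) h1 h2 fun l hl hl' => by
            rw [add_sub_cancel]
            exact congrFun hg (a s, ⟨l, hl, hl' ▸ hj⟩)
        have h4 := Fintype.linearIndependent_iff.1 (Fat_indep I (cst (a s).1) ν) c h3 β₀
        simpa only [c, if_pos h₀] using h4
    exact fun i => key i.1 _ i.2 rfl
  have : Finite {m : σ →₀ ℕ // (m.sum fun _ k => k) ≤ D} :=
    (Finsupp.finite_of_degree_le (σ := σ) D).to_subtype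
  have := Module.Finite.span_of_finite ℚ (Set.finite_range
    fun m : {m : σ →₀ ℕ // (m.sum fun _ k => k) ≤ D} =>
      fun xl : W × {l : List σ // (∀ i ∈ l, i ∈ I) ∧ l.length ≤ I.card * ν} =>
        ((eval xl.1.1 (wd v xl.2.1 (monomial m.1 (1 : ℤ))) : ℤ) : ℚ))
  have h5 := Fat_card li fun i => Fat_mem W v _ (hF i)
  rw [Fintype.card_prod, Fintype.card_fun, Fintype.card_fin, Fintype.card_fin, Fintype.card_coe,
    mul_comm] at h5
  exact h5

omit [Fintype σ] [DecidableEq σ] in
theorem Fat_eval {L D : ℕ} {x : σ → ℤ} (hx : ∀ j, |x j| ≤ 2 ^ L) {m : σ →₀ ℕ}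
    (hm : (m.sum fun _ k => k) ≤ D) : |eval x (monomial m (1 : ℤ))| ≤ ((2 ^ (L * D) : ℕ) : ℤ) := by
  rw [eval_monomial, one_mul, Finsupp.prod, Finset.abs_prod]
  calc ∏ j ∈ m.support, |x j ^ m j| ≤ ∏ j ∈ m.support, ((2 : ℤ) ^ L) ^ m j :=
        Finset.prod_le_prod (fun _ _ => abs_nonneg _) fun j _ => by
          rw [abs_pow]
          exact pow_le_pow_left₀ (abs_nonneg _) (hx j) _
    _ ≤ ((2 : ℤ) ^ L) ^ D := by
        rw [Finset.prod_pow_eq_pow_sum]
        exact pow_le_pow_right₀ (one_le_pow₀ one_le_two) hm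
    _ = _ := by rw [← pow_mul]; push_cast; rfl

/- `exists_minor` picks 2 * hf W D monomials with independent jets, `siegel` with rows the points
of W and B = 2 ^ (L D) gives the coefficients; 1 ≤ hf W D ≤ |W| ≤ 2 ^ L. -/
theorem new_eq (hS : Stage L W I v J e) (hW : W.Nonempty) (hL : 1 ≤ L)
    (hB : ∀ x ∈ W, ∀ j, |x j| ≤ 2 ^ L) (hWL : W.card ≤ 2 ^ L) {ν E D : ℕ}
    (hD : (I.card * ν + 1) * E + I.card * ν ≤ D)
    (hh : 2 * hf W D ≤ (ν + 1) ^ I.card * hf W E) :
    ∃ F : MvPolynomial σ ℤ, Sz L F (D + 4) ∧ (∀ x ∈ W, eval x F = 0) ∧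
      ∃ l : List σ, (∀ i ∈ l, i ∈ I) ∧ l.length ≤ I.card * ν ∧
        ∃ x ∈ W, eval x (wd v l F) ≠ 0 := by
  obtain ⟨a, b, hdet⟩ := exists_minor (K := ℚ) (t := 2 * hf W D)
    (fun (xl : W × {l : List σ // (∀ i ∈ l, i ∈ I) ∧ l.length ≤ I.card * ν})
      (m : {m : σ →₀ ℕ // (m.sum fun _ k => k) ≤ D}) =>
      ((eval xl.1.1 (wd v xl.2.1 (monomial m.1 (1 : ℤ))) : ℤ) : ℚ)) (hh.trans (jet_rank hS hD))
  have h1 : 0 < hf W D := by
    have : Nonempty W := hW.to_subtype
    have h2 : (1 : W → ℚ) ∈ V1 W ^ D := V1_pow_mono W (Nat.zero_le D) (by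
      rw [pow_zero]
      exact Submodule.one_le.1 le_rfl)
    exact Module.finrank_pos_iff_exists_ne_zero.2
      ⟨⟨1, h2⟩, fun h => one_ne_zero (congrArg Subtype.val h)⟩
  obtain ⟨c, hc0, hc, hz⟩ := siegel (X := W) (ι := Fin (2 * hf W D)) (h := hf W D)
    (B := 2 ^ (L * D)) (fun x u => eval x.1 (monomial (b u).1 (1 : ℤ))) Nat.one_le_two_pow
    (fun x u => Fat_eval (hB x.1 x.2) (b u).2)
    (by
      refine Submodule.finrank_mono ?_
      rw [← span_monomials]
      refine Submodule.span_mono ?_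
      rintro _ ⟨u, rfl⟩
      exact ⟨b u, rfl⟩) (by simp) (by simpa using h1)
  have hm : ∀ u, (monomial (b u).1 (c u) : MvPolynomial σ ℤ) = C (c u) * monomial (b u).1 1 :=
    fun u => by rw [C_mul_monomial, mul_one]
  refine ⟨∑ u, monomial (b u).1 (c u), ⟨?_, ?_⟩, fun x hx => ?_, ?_⟩
  · exact totalDegree_finsetSum_le fun u _ =>
      (totalDegree_monomial_le _ _).trans ((b u).2.trans (Nat.le_add_right _ _))
  · have h3 : 2 * hf W D ≤ 2 ^ (2 * L) := by
      have h4 : 2 ≤ 2 ^ L := by simpa using Nat.pow_le_pow_right two_pos hL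
      rw [two_mul L, pow_add]
      exact Nat.mul_le_mul h4 ((hf_le_card W D).trans hWL)
    have h5 : ∀ u, (c u).natAbs ≤ 2 ^ (2 * L) * 2 ^ (L * D) := fun u => by
      have h6 := hc u
      rw [Fintype.card_fin, ← Int.natCast_natAbs, ← Nat.cast_mul, Nat.cast_le] at h6
      exact h6.trans (Nat.mul_le_mul_right _ h3)
    refine (nrm_sum_le _ _).trans ?_
    simp only [nrm_monomial]
    refine (Finset.sum_le_card_nsmul _ _ _ fun u _ => h5 u).trans ?_
    rw [Finset.card_univ, Fintype.card_fin, smul_eq_mul]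
    refine (Nat.mul_le_mul_right _ h3).trans (le_of_eq ?_)
    ring
  · rw [← hz ⟨x, hx⟩, map_sum]
    exact Finset.sum_congr rfl fun u _ => by rw [hm, map_mul, eval_C, mul_comm]
  · by_contra hn
    push Not at hn
    have h7 := Matrix.eq_zero_of_mulVec_eq_zero hdet (v := fun u => (c u : ℚ)) (funext fun s => by
      have h8 := hn (a s).2.1 (a s).2.2.1 (a s).2.2.2 (a s).1.1 (a s).1.2
      simp only [hm, wd_sum, wd_C_mul, map_sum, map_mul, eval_C] at h8
      have h9 := congrArg (Int.cast : ℤ → ℚ) h8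
      push_cast at h9
      rw [Pi.zero_apply, ← h9, Matrix.mulVec, dotProduct]
      exact Finset.sum_congr rfl fun u _ => by rw [Matrix.of_apply, mul_comm])
    exact hc0 (funext fun u => Int.cast_eq_zero.1 (congrFun h7 u))

end Pool.Agent.P.MP_d565f2_an.LS
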