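import Pool.Agent.P.MP_d565f2_an.LS.Lin
import Pool.Agent.P.MP_d565f2_an.D3C

set_option autoImplicit false

open MvPolynomial Finset Module

namespace Pool.Agent.P.MP_d565f2_an.LS

variable {σ : Type} [Fintype σ] [DecidableEq σ]

theorem card_le_hf {W A : Finset (σ → ℤ)} {p : ℕ} (hp : p.Prime) (hA : A ⊆ W)
    (hinc : ∀ a ∈ A, ∀ b ∈ A, a ≠ b → ∃ i, ¬ (p : ℤ) ∣ a i - b i) :
    A.card ≤ hf W (Fintype.card σ * p) := by
  have := Fact.mk hp
  let M : Matrix A A ℤ := Matrix.of fun a b => eval b.1 (ind p a.1)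
  have h1 : (Int.castRingHom (ZMod p)).mapMatrix M = 1 := by
    ext a b
    by_cases h : a = b
    · subst h
      simp [M, eval_ind_self hp]
    · simpa [M, Matrix.one_apply_ne h] using
        eval_ind_ne hp (hinc a.1 a.2 b.1 b.2 fun e => h (Subtype.ext e))
  have h2 : ((Int.castRingHom ℚ).mapMatrix M).det ≠ 0 := by
    rw [← RingHom.map_det]
    refine Int.cast_ne_zero.2 fun e : M.det = 0 => ?_
    have := (Int.castRingHom (ZMod p)).map_det M
    rw [h1, e] at this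
    simp at this
  let f : A → ↥(V1 W ^ (Fintype.card σ * p)) := fun a => ⟨ev W (toQ (ind p a.1)), ev_mem W
    ((totalDegree_toQ _).trans ((totalDegree_ind p _).trans (Nat.mul_le_mul_left _ (Nat.sub_le _ _))))⟩
  have h3 : LinearIndependent ℚ f := by
    refine LinearIndependent.of_comp ((LinearMap.funLeft ℚ ℚ fun b : A => (⟨b.1, hA b.2⟩ : W)) ∘ₗ
      Submodule.subtype _) ?_
    have e : ⇑((LinearMap.funLeft ℚ ℚ fun b : A => (⟨b.1, hA b.2⟩ : W)) ∘ₗ
        Submodule.subtype _) ∘ f = fun i => (Int.castRingHom ℚ).mapMatrix M i :=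
      funext fun a => funext fun b => (ev_apply W _ _).trans (eval_toQ _ _)
    rw [e]
    exact Matrix.linearIndependent_rows_of_det_ne_zero h2
  simpa [hf] using h3.fintype_card_le_finrank

theorem pow_dvd_det_loc {W : Finset (σ → ℤ)} {p M κ h : ℕ} (hp : p.Prime) (a : Fin h → W)
    (g : Fin h → MvPolynomial σ ℤ) (bad : Finset (Fin h))
    (hloc : ∀ s, s ∉ bad → Loc W p M κ (a s).1) :
    ((p : ℤ) ^ M) ^ (h - (κ * hf W (Fintype.card σ * p) + bad.card)) ∣
      (Matrix.of fun s u => eval (a s).1 (g u)).det := by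
  classical
  have := Fact.mk hp
  let red : (σ → ℤ) → σ → ZMod p := fun x j => x j
  have hr : ∀ x y, red x = red y ↔ ∀ j, (p : ℤ) ∣ y j - x j := fun x y =>
    funext_iff.trans (forall_congr' fun j => ZMod.intCast_eq_intCast_iff_dvd_sub _ _ _)
  let C := {c // ∃ s, s ∉ bad ∧ red (a s).1 = c}
  choose r r1 r2 using fun c : C => c.2
  have hC : Fintype.card C ≤ hf W (Fintype.card σ * p) := by
    have inj : Function.Injective fun c : C => (a (r c)).1 := fun c c' e =>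
      Subtype.ext ((r2 c).symm.trans ((congrArg red e).trans (r2 c')))
    rw [← card_univ, ← card_image_of_injective _ inj]
    refine card_le_hf hp (fun x hx => ?_) fun x hx y hy hxy => ?_
    · obtain ⟨c, -, rfl⟩ := mem_image.1 hx
      exact (a _).2
    · obtain ⟨c, -, rfl⟩ := mem_image.1 hx
      obtain ⟨c', -, rfl⟩ := mem_image.1 hy
      by_contra! k
      exact hxy (by rw [show c = c' from
        Subtype.ext ((r2 c).symm.trans (((hr _ _).2 k).symm.trans (r2 c')))])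
  choose N hN hφ using fun c : C => hloc (r c) (r1 c)
  choose φ φ1 φ2 using hφ
  let cl : ∀ s, s ∉ bad → C := fun s hs => ⟨_, s, hs, rfl⟩
  have mem : ∀ s hs, (a s).1 ∈ cls W p (a (r (cl s hs))).1 := fun s hs =>
    mem_filter.2 ⟨(a s).2, (hr _ _).1 (r2 _)⟩
  let F : ((∀ c, N c) × (bad → ℚ)) →ₗ[ℚ] Fin h → ℚ := LinearMap.pi fun s =>
    if hs : s ∈ bad then LinearMap.proj (⟨s, hs⟩ : bad) ∘ₗ LinearMap.snd ℚ _ _ else
      LinearMap.proj (⟨_, mem s hs⟩ : cls W p _) ∘ₗ (N (cl s hs)).subtype ∘ₗ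
        LinearMap.proj (cl s hs) ∘ₗ LinearMap.fst ℚ _ _
  have := pow_dvd_det (Matrix.of fun s u => eval (a s).1 (g u)) ((p : ℤ) ^ M) (LinearMap.range F)
    (κ := κ * hf W (Fintype.card σ * p) + bad.card) ?_ fun u =>
      ⟨_, ⟨(fun c => ⟨φ c (g u), φ1 c _⟩, fun s => ((eval (a s).1 (g u) : ℤ) : ℚ)), rfl⟩, fun s => ?_⟩
  · rwa [Fintype.card_fin] at this
  · refine F.finrank_range_le.trans ?_
    rw [finrank_prod, finrank_pi_fintype, finrank_fintype_fun_eq_card, Fintype.card_coe]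
    refine Nat.add_le_add_right ((sum_le_card_nsmul _ _ κ fun c _ => hN c).trans ?_) _
    rw [card_univ, smul_eq_mul, mul_comm]
    exact Nat.mul_le_mul_left _ hC
  · by_cases hs : s ∈ bad
    · exact ⟨0, by simp [F, hs]⟩
    · obtain ⟨b, hb⟩ := φ2 (cl s hs) (g u) ⟨_, mem s hs⟩
      exact ⟨b, by simpa [F, hs] using hb⟩

omit [Fintype σ] [DecidableEq σ] in
theorem Growth_prod (PP : Finset ℕ) (hP : ∀ p ∈ PP, p.Prime) (e : ℕ → ℕ) {Δ : ℤ} (h0 : Δ ≠ 0)
    (h : ∀ p ∈ PP, (p : ℤ) ^ e p ∣ Δ) {k : ℕ} (hk : |Δ| ≤ 2 ^ k) : ∑ p ∈ PP, e p ≤ k := by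
  have h1 : ∏ p ∈ PP, (p : ℤ) ^ e p ∣ Δ := prod_dvd_of_coprime (fun p hp q hq hpq =>
    (Nat.isCoprime_iff_coprime.2 ((Nat.coprime_primes (hP p hp) (hP q hq)).2 hpq)).pow) h
  refine (pow_le_pow_iff_right₀ (by norm_num : (1 : ℤ) < 2)).1
    (le_trans ?_ ((Int.le_of_dvd (abs_pos.2 h0) ((dvd_abs _ _).2 h1)).trans hk))
  rw [← prod_pow_eq_pow_sum]
  exact prod_le_prod (fun _ _ => by positivity) fun p hp =>
    pow_le_pow_left₀ (by norm_num) (by exact_mod_cast (hP p hp).two_le) _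

theorem growth {W : Finset (σ → ℤ)} {L Y M κ D T : ℕ} (b : (σ → ℤ) → ℤ) (hY : 10 ^ 10 ≤ Y)
    (hYL : 4 * Y ≤ 2 ^ L) (hB : ∀ x ∈ W, ∀ j, |x j| ≤ 2 ^ L) (hWL : W.card ≤ 2 ^ L)
    (hb0 : ∀ x ∈ W, b x ≠ 0) (hb : ∀ x ∈ W, |b x| ≤ 2 ^ T) (hT : 4 * T * L ≤ Y)
    (hM : 2 * (D + 1) * L * L < M * Y)
    (hloc : ∀ p : ℕ, p.Prime → Y < p → p ≤ 4 * Y → ∀ x ∈ W, ¬ (p : ℤ) ∣ b x → Loc W p M κ x) :
    hf W D ≤ 4 * κ * hf W (Fintype.card σ * (4 * Y)) := by
  classical
  by_contra! hlt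
  obtain ⟨a, m, hd⟩ := exists_minor
    (fun (x : W) (m : {m : σ →₀ ℕ // (m.sum fun _ e => e) ≤ D}) =>
      ((eval x.1 (monomial m.1 (1 : ℤ)) : ℤ) : ℚ)) (t := hf W D)
    (by rw [span_monomials]; exact le_rfl)
  have hh := (hf_le_card W D).trans hWL
  have hH : ∀ p ≤ 4 * Y, hf W (Fintype.card σ * p) ≤ hf W (Fintype.card σ * (4 * Y)) :=
    fun p hp => hf_mono W (Nat.mul_le_mul_left _ hp)
  generalize hf W (Fintype.card σ * (4 * Y)) = H at hlt hH
  generalize hf W D = h at a m hd hlt hh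
  have h0 : (Matrix.of fun s u => eval (a s).1 (monomial (m u).1 (1 : ℤ))).det ≠ 0 := fun e =>
    hd (((Int.castRingHom ℚ).map_det (Matrix.of fun s u =>
      eval (a s).1 (monomial (m u).1 (1 : ℤ)))).symm.trans (by rw [e, map_zero]))
  have h1 : |(Matrix.of fun s u => eval (a s).1 (monomial (m u).1 (1 : ℤ))).det| ≤
      2 ^ (L * (D + 1) * h) := by
    refine (D3.abs_det_le _ (fun _ => 2 ^ (L * D)) fun s u => ?_).trans ?_
    · rw [Matrix.of_apply, eval_monomial, one_mul, Finsupp.prod, abs_prod]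
      refine (prod_le_prod (fun _ _ => abs_nonneg _) fun j _ => (abs_pow _ _).le.trans
        (pow_le_pow_left₀ (abs_nonneg _) (hB _ (a s).2 j) _)).trans ?_
      rw [prod_pow_eq_pow_sum, pow_mul]
      exact pow_le_pow_right₀ (one_le_pow₀ (by norm_num)) (m u).2
    · have h2 : (h.factorial : ℤ) ≤ (2 ^ L) ^ h := by
        exact_mod_cast (Nat.factorial_le_pow h).trans (Nat.pow_le_pow_left hh h)
      rw [prod_const, card_univ, Fintype.card_fin, mul_add_one, add_mul, pow_add, mul_comm,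
        pow_mul 2 (L * D), pow_mul 2 L h]
      exact mul_le_mul_of_nonneg_left h2 (by positivity)
  have hP := primes_lower Y hY
  generalize hPP : (Ioc Y (4 * Y)).filter Nat.Prime = PP at hP
  have hp : ∀ p ∈ PP, p.Prime ∧ Y < p ∧ p ≤ 4 * Y := fun p hp => by
    rw [← hPP, mem_filter, mem_Ioc] at hp
    exact ⟨hp.2, hp.1⟩
  have h3 : Y ≤ PP.card * L := by
    have h4 : Real.log (4 * Y) ≤ L := by
      have h5 : (4 * Y : ℝ) ≤ 2 ^ L := by exact_mod_cast hYL
      have h6 : (0 : ℝ) < Y := by exact_mod_cast lt_of_lt_of_le (by norm_num) hY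
      refine (Real.log_le_log (by positivity) h5).trans ?_
      rw [Real.log_pow]
      exact mul_le_of_le_one_right (by positivity) (by linarith [Real.log_two_lt_d9])
    exact_mod_cast hP.trans (mul_le_mul_of_nonneg_left h4 (by positivity))
  let bad : ℕ → Finset (Fin h) := fun p => univ.filter fun s => (p : ℤ) ∣ b (a s).1
  have h4 := Growth_prod PP (fun p k => (hp p k).1) (fun p => M * (h - (κ * H + (bad p).card))) h0
    (fun p k => by
      rw [pow_mul]
      refine (pow_dvd_pow _ (Nat.sub_le_sub_left (Nat.add_le_add_right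
        (Nat.mul_le_mul_left κ (hH p (hp p k).2.2)) _) _)).trans
        (pow_dvd_det_loc (hp p k).1 a _ (bad p) fun s hs => ?_)
      exact hloc p (hp p k).1 (hp p k).2.1 (hp p k).2.2 _ (a s).2 fun e =>
        hs (mem_filter.2 ⟨mem_univ _, e⟩)) h1
  have h5 : ∑ p ∈ PP, (bad p).card ≤ h * T := by
    simp only [bad, card_filter]
    rw [sum_comm]
    refine (sum_le_card_nsmul _ _ T fun s _ => ?_).trans (by simp)
    exact Growth_prod PP (fun p k => (hp p k).1) _ (hb0 _ (a s).2)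
      (fun p _ => by split_ifs with k <;> simp [k]) (hb _ (a s).2)
  rw [← mul_sum] at h4
  have h6 : PP.card * h ≤ ∑ p ∈ PP, (h - (κ * H + (bad p).card)) +
      (PP.card * (κ * H) + ∑ p ∈ PP, (bad p).card) := by
    rw [← smul_eq_mul, ← smul_eq_mul PP.card, ← sum_const, ← sum_const, ← sum_add_distrib,
      ← sum_add_distrib]
    exact sum_le_sum fun p _ => le_tsub_add
  generalize ∑ p ∈ PP, (h - (κ * H + (bad p).card)) = S at h4 h6
  generalize ∑ p ∈ PP, (bad p).card = B at h5 h6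
  generalize PP.card = n at h3 h6
  have L0 : 0 < L := Nat.pos_of_ne_zero (by rintro rfl; omega)
  have h7 : 4 * T ≤ n := Nat.le_of_mul_le_mul_right (hT.trans h3) L0
  have h8 : n * h ≤ 2 * S := by
    nlinarith [Nat.mul_le_mul_left n hlt.le, Nat.mul_le_mul_left h h7]
  have h9 : M * n ≤ 2 * (D + 1) * L := Nat.le_of_mul_le_mul_right (by
    nlinarith [Nat.mul_le_mul_left M h8]) (Nat.zero_lt_of_lt hlt)
  nlinarith [Nat.mul_le_mul_left M h3, Nat.mul_le_mul_right L h9]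

end Pool.Agent.P.MP_d565f2_an.LS
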