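import Pool.Agent.P.MP_d565f2_an.LS.Lin
import Pool.Agent.P.MP_d565f2_an.LS.Calc

set_option autoImplicit false

open MvPolynomial Finset Module

namespace Pool.Agent.P.MP_d565f2_an.LS

variable {σ : Type} [Fintype σ] [DecidableEq σ]

variable {L e n lam p : ℕ} {W : Finset (σ → ℤ)} {I : Finset σ} {v : σ → σ → MvPolynomial σ ℤ}
  {J : MvPolynomial σ ℤ} {x : σ → ℤ}

omit [DecidableEq σ] in
theorem LocA_abs_le {y : σ → ℤ} {ω : ℤ} (h : y ⬝ᵥ y + ω ^ 2 = n) (hlam : n ≤ lam ^ 2) :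
    (∀ j, |y j| ≤ lam) ∧ |ω| ≤ lam := by
  have h0 : ∀ j, y j * y j ≤ y ⬝ᵥ y := fun j =>
    Finset.single_le_sum (f := fun j => y j * y j) (fun j _ => mul_self_nonneg _) (mem_univ j)
  have h1 : 0 ≤ y ⬝ᵥ y := Finset.sum_nonneg fun j _ => mul_self_nonneg _
  have h2 : (n : ℤ) ≤ (lam : ℤ) ^ 2 := by exact_mod_cast hlam
  exact ⟨fun j => abs_le_of_sq_le_sq' (by nlinarith [h0 j, sq_nonneg ω]) (by positivity) |> abs_le.2,
    abs_le_of_sq_le_sq' (by nlinarith) (by positivity) |> abs_le.2⟩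

theorem LocA_div {a b c : ℤ} (hp : 0 < p) (h : b = a + p * c) (ha : |a| ≤ lam) (hb : |b| ≤ lam) :
    |c| ≤ ((2 * lam / p : ℕ) : ℤ) := by
  rw [Int.abs_eq_natAbs, Nat.cast_le, Nat.le_div_iff_mul_le hp]
  have h1 : |c| * p ≤ 2 * lam := by
    have : |b - a| = |c| * p := by
      rw [h, add_sub_cancel_left, abs_mul, Nat.abs_cast, mul_comm]
    linarith [abs_sub b a]
  rw [Int.abs_eq_natAbs] at h1
  exact_mod_cast h1

omit [DecidableEq σ] in
theorem LocA_sph {y z : σ → ℤ} {ω w : ℤ} (hp : 0 < p) (h0 : x ⬝ᵥ x + ω ^ 2 = n)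
    (h1 : ∀ j, y j = x j + p * z j) (h2 : y ⬝ᵥ y + (ω + p * w) ^ 2 = n) :
    p * (∑ j, z j ^ 2 + w ^ 2) + 2 * (∑ j, x j * z j + ω * w) = 0 := by
  have h3 : y ⬝ᵥ y = x ⬝ᵥ x + 2 * p * ∑ j, x j * z j + p ^ 2 * ∑ j, z j ^ 2 := by
    simp only [dotProduct, h1, Finset.mul_sum, ← Finset.sum_add_distrib]
    exact Finset.sum_congr rfl fun j _ => by ring
  refine mul_left_cancel₀ (a := (p : ℤ)) (by exact_mod_cast hp.ne') ?_
  linear_combination h2 - h0 - h3

/- Lift the class to the sphere: ω0 ^ 2 = n - x x, for y in the class choose the sign of ω(y) so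
that ω(y) ≡ ω0 mod p.  All z o y have size ≤ 2 lam / p.  Mod p the vectors (z o y)_o lie in the
span of |I| fixed integer vectors (`tan`, an inverse of J(x) mod p, and
p ∣ x z + ω0 z_none, an inverse of ω0 mod p).  So by `pow_dvd_det` (q = p; put the points as
columns) every t × t minor is divisible by p ^ (t - |I|), hence zero; `exists_minor`. -/
theorem class_rank (hS : Stage L W I v J e) (hn : OnSph n W) (hlam : n ≤ lam ^ 2) (hp : p.Prime)
    (hp2 : 2 < p) (hx : x ∈ W) (hJ : ¬ (p : ℤ) ∣ eval x J * (n - x ⬝ᵥ x)) {t : ℕ}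
    (hsize : t.factorial * (2 * lam / p) ^ t < p ^ (t - I.card)) (ht : 1 ≤ t) :
    ∃ (ω0 : ℤ) (z : Option σ → cls W p x → ℤ), x ⬝ᵥ x + ω0 ^ 2 = n ∧
      (∀ y j, y.1 j = x j + p * z (some j) y) ∧
      (∀ y, y.1 ⬝ᵥ y.1 + (ω0 + p * z none y) ^ 2 = n) ∧
      finrank ℚ (Submodule.span ℚ (Set.range fun o => fun y => ((z o y : ℤ) : ℚ))) < t := by
  have pp : Prime (p : ℤ) := Nat.prime_iff_prime_int.1 hp
  obtain ⟨ω0, -, h0⟩ := hn x hx
  have hJ1 : ¬ (p : ℤ) ∣ eval x J := fun h => hJ (h.mul_right _)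
  have hω : ¬ (p : ℤ) ∣ ω0 := fun h => hJ (Dvd.dvd.mul_left (by
    rw [← h0, add_sub_cancel_left, sq]
    exact h.mul_right _) _)
  have hc : ∀ y : cls W p x, y.1 ∈ W ∧ ∀ j, (p : ℤ) ∣ y.1 j - x j := fun y => mem_filter.1 y.2
  choose z1 hz1 using fun (y : cls W p x) j => (hc y).2 j
  have e1 : ∀ (y : cls W p x) j, y.1 j = x j + p * z1 y j := fun y j => by rw [← hz1]; ring
  have e2 : ∀ y : cls W p x, ∃ w : ℤ, y.1 ⬝ᵥ y.1 + (ω0 + p * w) ^ 2 = n := fun y => by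
    obtain ⟨ω, -, h1⟩ := hn _ (hc y).1
    have h2 : (p : ℤ) ∣ y.1 ⬝ᵥ y.1 - x ⬝ᵥ x := by
      simp only [dotProduct, ← Finset.sum_sub_distrib]
      exact Finset.dvd_sum fun j _ => ⟨z1 y j * (y.1 j + x j), by rw [e1 y j]; ring⟩
    have h3 : (p : ℤ) ∣ (ω - ω0) * (-ω - ω0) := by
      rw [show (ω - ω0) * (-ω - ω0) = y.1 ⬝ᵥ y.1 - x ⬝ᵥ x by linear_combination h0 - h1]
      exact h2
    rcases pp.dvd_or_dvd h3 with ⟨w, hw⟩ | ⟨w, hw⟩
    · exact ⟨w, by rw [← hw, ← h1]; ring⟩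
    · exact ⟨w, by rw [← hw, ← h1]; ring⟩
  choose z0 hz0 using e2
  refine ⟨ω0, fun o y => o.elim (z0 y) (z1 y), h0, e1, hz0, lt_of_not_ge fun hle => ?_⟩
  obtain ⟨a, b, hd⟩ := exists_minor
    (fun (y : cls W p x) (o : Option σ) => ((o.elim (z0 y) (z1 y) : ℤ) : ℚ)) hle
  obtain ⟨u1, v1, i1⟩ := (pp.irreducible.coprime_iff_not_dvd).2 hJ1
  obtain ⟨u2, v2, i2⟩ := (pp.irreducible.coprime_iff_not_dvd).2 hω
  let c : σ → Option σ → ℤ := fun i o =>
    o.elim (-v2 * ∑ j, x j * (v1 * eval x (v i j))) fun j => v1 * eval x (v i j)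
  have d1 : ∀ (y : cls W p x) j, (p : ℤ) ∣ z1 y j - ∑ i ∈ I, z1 y i * c i (some j) := fun y j => by
    obtain ⟨k, hk⟩ := hS.tan x hx y.1 (hc y).1 p (z1 y) pp.ne_zero (e1 y) j
    refine ⟨u1 * z1 y j + v1 * k, ?_⟩
    have : ∑ i ∈ I, z1 y i * c i (some j) = v1 * ∑ i ∈ I, z1 y i * eval x (v i j) := by
      rw [Finset.mul_sum]
      exact Finset.sum_congr rfl fun i _ => by simp only [c, Option.elim]; ring
    rw [this]
    linear_combination v1 * hk - z1 y j * i1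
  have d2 : ∀ (y : cls W p x) (o : Option σ),
      (p : ℤ) ∣ o.elim (z0 y) (z1 y) - ∑ i ∈ I, z1 y i * c i o := fun y o => by
    rcases o with _ | j
    · have s1 := LocA_sph hp.pos h0 (e1 y) (hz0 y)
      have s2 : (p : ℤ) ∣ 2 * (∑ j, x j * z1 y j + ω0 * z0 y) :=
        ⟨-(∑ j, z1 y j ^ 2 + z0 y ^ 2), by linear_combination s1⟩
      obtain ⟨k, hk⟩ := (pp.dvd_or_dvd s2).resolve_left fun h =>
        absurd (Int.le_of_dvd two_pos h) (by omega)
      obtain ⟨m, hm⟩ : (p : ℤ) ∣ ∑ j, x j * (z1 y j - ∑ i ∈ I, z1 y i * c i (some j)) :=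
        Finset.dvd_sum fun j _ => (d1 y j).mul_left _
      have s3 : ∑ i ∈ I, z1 y i * c i none =
          -v2 * ∑ j, x j * ∑ i ∈ I, z1 y i * c i (some j) := by
        simp only [c, Option.elim, Finset.mul_sum]
        rw [Finset.sum_comm]
        exact Finset.sum_congr rfl fun j _ => Finset.sum_congr rfl fun i _ => by ring
      simp only [mul_sub, Finset.sum_sub_distrib] at hm
      refine ⟨u2 * z0 y + v2 * k - v2 * m, ?_⟩
      rw [s3]
      change z0 y - _ = _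
      linear_combination v2 * hk - v2 * hm - z0 y * i2
    · exact d1 y j
  let A : Matrix (Fin t) (Fin t) ℤ := Matrix.of fun u s => (b u).elim (z0 (a s)) (z1 (a s))
  have hdvd := pow_dvd_det A p
    (Submodule.span ℚ (Set.range fun (i : I) (u : Fin t) => ((c i (b u) : ℤ) : ℚ))) (κ := I.card)
    ((finrank_range_le_card _).trans (Fintype.card_coe I).le) fun s => by
      refine ⟨∑ i : I, ((z1 (a s) i : ℤ) : ℚ) • fun u : Fin t => ((c i (b u) : ℤ) : ℚ),
        Submodule.sum_mem _ fun i _ => Submodule.smul_mem _ _ (Submodule.subset_span ⟨i, rfl⟩),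
        fun u => ?_⟩
      obtain ⟨k, hk⟩ := d2 (a s) (b u)
      refine ⟨k, ?_⟩
      have : A u s = ∑ i ∈ I, z1 (a s) i * c i (b u) + p * k := by
        rw [← hk]
        simp [A]
      rw [this, ← Finset.sum_coe_sort I]
      simp
  have hb : ∀ u s, AbsoluteValue.abs (A u s) ≤ ((2 * lam / p : ℕ) : ℤ) := fun u s => by
    change |(b u).elim (z0 (a s)) (z1 (a s))| ≤ _
    rcases b u with _ | j
    · exact LocA_div hp.pos rfl (LocA_abs_le h0 hlam).2 (LocA_abs_le (hz0 (a s)) hlam).2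
    · exact LocA_div hp.pos (e1 (a s) j) ((LocA_abs_le h0 hlam).1 j)
        ((LocA_abs_le (hz0 (a s)) hlam).1 j)
  have hle' := Matrix.det_le hb
  rw [Fintype.card_fin] at hdvd hle'
  have hz : A.det = 0 := Int.eq_zero_of_abs_lt_dvd hdvd (hle'.trans_lt (by
    rw [nsmul_eq_mul]
    exact_mod_cast hsize))
  refine hd ?_
  have := congrArg (Int.castRingHom ℚ) hz
  rw [RingHom.map_det, map_zero, ← Matrix.det_transpose] at this
  exact this

/- N = (1 ⊔ E) ^ (M + 1), `sphere_rank` (∑ z ^ 2 = -(2 / p)(x z + ω0 z_none)); the congruence by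
induction on g for all exponents at once (X j = x j + p z j). -/
theorem locA (hS : Stage L W I v J e) (hn : OnSph n W) (hlam : n ≤ lam ^ 2) (hp : p.Prime)
    (hp2 : 2 < p) (hx : x ∈ W) (hJ : ¬ (p : ℤ) ∣ eval x J * (n - x ⬝ᵥ x)) {r : ℕ}
    (hr : I.card = r + 1) (hsize : (r + 2).factorial * (2 * lam / p) ^ (r + 2) < p) (M : ℕ) :
    Loc W p (M + 1) ((r + 2) * (M + 1) ^ r) x := by
  obtain ⟨ω0, z, h0, h1, h2, h3⟩ := class_rank hS hn hlam hp hp2 hx hJ (t := r + 2)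
    (by rwa [hr, show r + 2 - (r + 1) = 1 by omega, pow_one]) (by omega)
  set z' : Option σ → cls W p x → ℚ := fun o y => ((z o y : ℤ) : ℚ) with hz'
  have m1 : ∀ o, z' o ∈ Submodule.span ℚ (Set.range z') := fun o => Submodule.subset_span ⟨o, rfl⟩
  have p0 : (p : ℚ) ≠ 0 := by exact_mod_cast hp.ne_zero
  have hq : ∑ o, z' o ^ 2 ∈ Submodule.span ℚ (Set.range z') := by
    have : ∑ o, z' o ^ 2 =
        (-2 / p : ℚ) • (∑ j, (x j : ℚ) • z' (some j) + (ω0 : ℚ) • z' none) := by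
      funext y
      have s1 := congrArg (Int.cast : ℤ → ℚ) (LocA_sph hp.pos h0 (h1 y) (h2 y))
      push_cast at s1
      simp only [Fintype.sum_option, Pi.add_apply, Finset.sum_apply, Pi.pow_apply, Pi.smul_apply,
        smul_eq_mul, hz']
      field_simp
      linear_combination s1
    rw [this]
    exact Submodule.smul_mem _ _ (add_mem
      (Submodule.sum_mem _ fun j _ => Submodule.smul_mem _ _ (m1 _)) (Submodule.smul_mem _ _ (m1 _)))
  refine ⟨_, sphere_rank z' (by omega) hq M, fun g => ?_⟩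
  generalize M + 1 = k
  have o1 : ∀ k, (1 : cls W p x → ℚ) ∈ (1 ⊔ Submodule.span ℚ (Set.range z')) ^ k := fun k => by
    simpa using Submodule.pow_mem_pow (1 ⊔ Submodule.span ℚ (Set.range z'))
      (Submodule.mem_sup_left (Submodule.one_le.1 le_rfl)) k
  induction g using MvPolynomial.induction_on generalizing k with
  | C a => exact ⟨(a : ℚ) • 1, Submodule.smul_mem _ _ (o1 k), fun y => ⟨0, by simp⟩⟩
  | add f g hf hg =>
    obtain ⟨φ, a1, a2⟩ := hf k
    obtain ⟨ψ, b1, b2⟩ := hg k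
    refine ⟨φ + ψ, add_mem a1 b1, fun y => ?_⟩
    obtain ⟨a, ha⟩ := a2 y
    obtain ⟨b, hb⟩ := b2 y
    refine ⟨a + b, ?_⟩
    rw [map_add, Pi.add_apply]
    push_cast
    linear_combination ha + hb
  | mul_X f j hf =>
    rcases k with _ | k
    · exact ⟨0, zero_mem _, fun y => ⟨eval y.1 (f * X j), by simp⟩⟩
    · obtain ⟨φ, a1, a2⟩ := hf (k + 1)
      obtain ⟨ψ, b1, b2⟩ := hf k
      refine ⟨(x j : ℚ) • φ + (p : ℚ) • (ψ * z' (some j)), add_mem (Submodule.smul_mem _ _ a1)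
        (Submodule.smul_mem _ _ ?_), fun y => ?_⟩
      · rw [pow_succ]
        exact Submodule.mul_mem_mul b1 (Submodule.mem_sup_right (m1 _))
      · obtain ⟨a, ha⟩ := a2 y
        obtain ⟨b, hb⟩ := b2 y
        refine ⟨x j * a + z (some j) y * b, ?_⟩
        rw [map_mul, eval_X, h1 y j]
        simp only [Pi.add_apply, Pi.smul_apply, Pi.mul_apply, smul_eq_mul, hz']
        push_cast
        linear_combination (x j : ℚ) * ha + (p : ℚ) * (z (some j) y : ℚ) * hb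

/- `class_rank` with t = ρ + 1: the ρ + 1 functions z o are dependent; clear denominators;
τ = u x + w ω0. -/
theorem class_quadric (hS : Stage L W I v J e) (hn : OnSph n W) (hlam : n ≤ lam ^ 2)
    (hp : p.Prime) (hp2 : 2 < p) (hx : x ∈ W) (hJ : ¬ (p : ℤ) ∣ eval x J * (n - x ⬝ᵥ x))
    (hI : I.card + 1 = Fintype.card σ)
    (hsize : (Fintype.card σ + 1).factorial * (2 * lam / p) ^ (Fintype.card σ + 1) < p ^ 2) :
    ∃ (u : σ → ℤ) (w τ : ℤ), (u ≠ 0 ∨ w ≠ 0) ∧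
      ∀ y ∈ cls W p x, (τ - u ⬝ᵥ y) ^ 2 = w ^ 2 * (n - y ⬝ᵥ y) := by
  obtain ⟨ω0, z, h0, h1, h2, h3⟩ := class_rank hS hn hlam hp hp2 hx hJ (t := Fintype.card σ + 1)
    (by rwa [show Fintype.card σ + 1 - I.card = 2 by omega]) (by omega)
  have hd : ¬ LinearIndependent ℚ fun (o : Option σ) (y : cls W p x) => ((z o y : ℤ) : ℚ) :=
    fun h => by
      rw [finrank_span_eq_card h, Fintype.card_option] at h3
      exact h3.false
  obtain ⟨c, c1, o, c2⟩ := Fintype.not_linearIndependent_iff.1 hd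
  obtain ⟨t, c', c3, o', c4⟩ := exists_primitive c (fun h => c2 (congrFun h o)) hp
  refine ⟨fun j => c' (some j), c' none, (fun j => c' (some j)) ⬝ᵥ x + c' none * ω0, ?_,
    fun y hy => ?_⟩
  · have c5 : c' o' ≠ 0 := fun h => c4 (h ▸ dvd_zero _)
    rcases o' with _ | j
    · exact .inr c5
    · exact .inl fun h => c5 (congrFun h j)
  · have e1 : c' none * z none ⟨y, hy⟩ + ∑ j, c' (some j) * z (some j) ⟨y, hy⟩ = 0 := by
      have := congrFun c1 ⟨y, hy⟩
      simp only [Fintype.sum_option, Finset.sum_apply, Pi.smul_apply, smul_eq_mul,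
        Pi.zero_apply] at this
      refine Int.cast_injective (α := ℚ) ?_
      push_cast
      simp only [c3, mul_assoc, ← Finset.mul_sum, ← mul_add, this, mul_zero]
    have e2 : (fun j => c' (some j)) ⬝ᵥ y = (fun j => c' (some j)) ⬝ᵥ x +
        p * ∑ j, c' (some j) * z (some j) ⟨y, hy⟩ := by
      simp only [dotProduct, Finset.mul_sum, ← Finset.sum_add_distrib]
      exact Finset.sum_congr rfl fun j _ => by linear_combination c' (some j) * h1 ⟨y, hy⟩ j
    have e3 : y ⬝ᵥ y + (ω0 + p * z none ⟨y, hy⟩) ^ 2 = n := h2 ⟨y, hy⟩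
    rw [e2, ← e3, eq_neg_of_add_eq_zero_right e1]
    ring

end Pool.Agent.P.MP_d565f2_an.LS
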