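import Pool.Agent.P.MP_d565f2_an.LS.Step
import Pool.Agent.P.MP_d565f2_an.LS.Fat
import Pool.Agent.P.MP_d565f2_an.LS.Growth
import Pool.Agent.P.MP_d565f2_an.LS.LocA

set_option autoImplicit false

open MvPolynomial Finset Module

namespace Pool.Agent.P.MP_d565f2_an.LS

variable {σ : Type} [Fintype σ] [DecidableEq σ]

/-- A new small equation whose derivative is not identically zero on `W`. -/
def HasEq (L : ℕ) (W : Finset (σ → ℤ)) (I : Finset σ) (v : σ → σ → MvPolynomial σ ℤ) (a : ℕ) :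
    Prop :=
  ∃ F : MvPolynomial σ ℤ, Sz L F a ∧ (∀ x ∈ W, eval x F = 0) ∧
    ∃ i ∈ I, ∃ x ∈ W, eval x (der (v i) F) ≠ 0

variable {L e n lam : ℕ} {W : Finset (σ → ℤ)} {I : Finset σ} {v : σ → σ → MvPolynomial σ ℤ}
  {J : MvPolynomial σ ℤ}

theorem HasEq.mono {a a' : ℕ} (h : HasEq L W I v a) (ha : a ≤ a') : HasEq L W I v a' := by
  obtain ⟨F, h1, h2⟩ := h
  exact ⟨F, h1.mono ha, h2⟩

theorem lt_card_of_rel (hW : W.Nonempty) {k : ℕ} (h : Rel W k) : k < W.card := by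
  by_contra hc
  exact not_rel_card hW (h.mono (by omega))

omit [DecidableEq σ] in
theorem OnSph.subset (h : OnSph n W) {W' : Finset (σ → ℤ)} (hW : W' ⊆ W) : OnSph n W' :=
  fun y hy => h y (hW hy)

theorem OnSph.abs_le (h : OnSph n W) (hlam : n ≤ lam ^ 2) {y : σ → ℤ} (hy : y ∈ W) (j : σ) :
    |y j| ≤ lam := by
  obtain ⟨ω, -, h1⟩ := h y hy
  have h2 := sq_le_dot y j
  have h3 : (n : ℤ) ≤ (lam : ℤ) ^ 2 := by exact_mod_cast hlam
  exact abs_le_of_sq_le_sq (by nlinarith [sq_nonneg ω]) (by positivity)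

theorem OnSph.abs_le' (h : OnSph n W) (hlam : n ≤ lam ^ 2) (hL : lam ≤ 2 ^ L) :
    ∀ y ∈ W, ∀ j, |y j| ≤ 2 ^ L := fun _ hy j =>
  (h.abs_le hlam hy j).trans (by exact_mod_cast hL)

theorem Stage.next (hS : Stage L W I v J e) (hL : 1 ≤ L) (hσ : Fintype.card σ ≤ 2 ^ L) {a k : ℕ}
    (h : HasEq L W I v a) (ha : a ≤ 2 ^ L) (hrel : Rel W (k + (a + (e + 2)))) :
    ∃ W' ⊆ W, W'.Nonempty ∧ Rel W' k ∧ ∃ i ∈ I, ∃ v' J',
      Stage L W' (I.erase i) v' J' (a + 2 * e + 3) := by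
  obtain ⟨F, hF, hFW, i, hi, x, hx, hx'⟩ := h
  exact ⟨_, filter_subset _ _, ⟨x, mem_filter.2 ⟨hx, hx'⟩⟩,
    hrel.filter _ (Sz.der (hS.szv i) hF ha hσ).1, i, hi, _, _, hS.step hL hσ hF ha hFW hi⟩

theorem eq_of_ratio (hS : Stage L W I v J e) (hW : W.Nonempty) (hL : 1 ≤ L)
    (hσ : Fintype.card σ ≤ 2 ^ L) (hB : ∀ x ∈ W, ∀ j, |x j| ≤ 2 ^ L) (hWL : W.card ≤ 2 ^ L)
    {ν E D a : ℕ} (hD : (I.card * ν + 1) * E + I.card * ν ≤ D)
    (hh : 2 * hf W D ≤ (ν + 1) ^ I.card * hf W E) (ha : D + 4 + I.card * ν * (e + 2) ≤ a)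
    (haL : a ≤ 2 ^ L) : HasEq L W I v a := by
  obtain ⟨F, hF, hFW, l, hl, hl', hx⟩ := new_eq hS hW hL hB hWL hD hh
  exact HasEq.mono (descend hS hσ hF (ha.trans haL) hFW hl hl' hx) ha

theorem eq_of_loc (hS : Stage L W I v J e) (hW : W.Nonempty) (hL : 1 ≤ L) (hn : OnSph n W)
    (hlam : n ≤ lam ^ 2) (hlamL : lam ≤ 2 ^ L) (hWL : W.card ≤ 2 ^ L) {ρ r c ν : ℕ}
    (hρ : Fintype.card σ = ρ) (hr : I.card = r + 1) (hc : 1 ≤ c)
    (hν : 8 * c * (21 * ρ ^ 2 * L ^ 2) ^ ρ ≤ ν) (he : 10 ^ 10 ≤ e)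
    (heL : 224 * ρ ^ 2 * ν * L ^ 2 * e ≤ 2 ^ L) {B : MvPolynomial σ ℤ} (hB : Sz L B e)
    (hB0 : ∀ x ∈ W, eval x B ≠ 0)
    (hloc : ∀ p : ℕ, p.Prime → e < p → ∀ x ∈ W, ¬ (p : ℤ) ∣ eval x B * (n - x ⬝ᵥ x) →
      ∀ M, Loc W p (M + 1) (c * (M + 1) ^ r) x) :
    HasEq L W I v (224 * ρ ^ 2 * ν * L ^ 2 * e) := by
  have hrρ : r + 1 ≤ ρ := by rw [← hr, ← hρ]; exact card_le_univ I
  have hρ1 : 1 ≤ ρ := by omega
  have hq : 1 ≤ 21 * ρ ^ 2 * L ^ 2 := Nat.one_le_iff_ne_zero.2 (by positivity)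
  have hν1 : 1 ≤ ν := le_trans (Nat.one_le_iff_ne_zero.2 (by positivity)) hν
  have hb := hn.abs_le' hlam hlamL
  obtain ⟨Y, hY⟩ : ∃ Y, Y = 16 * L ^ 2 * e := ⟨_, rfl⟩
  have hL2 : 1 ≤ L ^ 2 := Nat.one_le_pow _ _ hL
  have hYe : 16 * e ≤ Y := by rw [hY]; nlinarith
  have hρν : 1 ≤ ρ * ν := Nat.mul_pos hρ1 hν1
  have hρρ : ρ * ν ≤ ρ ^ 2 * ν := Nat.mul_le_mul_right _ (by nlinarith)
  have hE : 224 * ρ ^ 2 * ν * L ^ 2 * e = 14 * (ρ ^ 2 * ν) * Y := by rw [hY]; ring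
  rw [hE] at heL ⊢
  obtain ⟨D, hD⟩ : ∃ D, D = ((r + 1) * ν + 1) * (ρ * (4 * Y)) + (r + 1) * ν := ⟨_, rfl⟩
  have hD1 : D + 1 ≤ 10 * (ρ ^ 2 * ν) * Y := by
    have h1 : (r + 1) * ν + 1 ≤ 2 * (ρ * ν) := by nlinarith [Nat.mul_le_mul_right ν hrρ]
    have h2 : ρ * (4 * Y) + 1 ≤ 5 * (ρ * Y) := by
      have : 1 ≤ ρ * Y := Nat.mul_pos hρ1 (by omega)
      linarith
    calc D + 1 = ((r + 1) * ν + 1) * (ρ * (4 * Y) + 1) := by rw [hD]; ring
      _ ≤ 2 * (ρ * ν) * (5 * (ρ * Y)) := Nat.mul_le_mul h1 h2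
      _ = _ := by ring
  obtain ⟨M, hM⟩ : ∃ M, M + 1 = 21 * ρ ^ 2 * L ^ 2 * ν :=
    ⟨_, Nat.sub_add_cancel (Nat.mul_pos hq hν1)⟩
  have hpos : 1 ≤ ρ ^ 2 * ν * Y := Nat.mul_pos (by omega) (by omega)
  have hY1 : Y ≤ ρ ^ 2 * ν * Y := Nat.le_mul_of_pos_left _ (by omega)
  have hg := growth (W := W) (L := L) (Y := Y) (M := M + 1) (κ := c * (M + 1) ^ r) (D := D)
    (T := 2 * (e + 1) * L) (fun x => eval x B * (n - x ⬝ᵥ x)) (by omega)
    (by rw [mul_assoc] at heL; omega) hb hWL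
    (fun x hx => by
      obtain ⟨ω, h1, h2⟩ := hn x hx
      refine mul_ne_zero (hB0 x hx) ?_
      rw [← h2, add_sub_cancel_left]
      exact pow_ne_zero _ h1)
    (fun x hx => by
      obtain ⟨ω, -, h2⟩ := hn x hx
      have h3 : (n : ℤ) ≤ (2 ^ L) ^ 2 := by
        exact_mod_cast hlam.trans (Nat.pow_le_pow_left hlamL 2)
      have h4 : |(n : ℤ) - x ⬝ᵥ x| ≤ (2 ^ L) ^ 2 := by
        have := dot_self_nonneg x
        rw [abs_le]
        constructor <;> nlinarith [sq_nonneg ω]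
      rw [abs_mul]
      calc _ ≤ (2 : ℤ) ^ (2 * e * L) * (2 ^ L) ^ 2 :=
            mul_le_mul (hB.eval_le (hb x hx)) h4 (abs_nonneg _) (by positivity)
        _ = _ := by ring)
    (by
      calc 4 * (2 * (e + 1) * L) * L = 8 * L ^ 2 * (e + 1) := by ring
        _ ≤ 8 * L ^ 2 * (2 * e) := Nat.mul_le_mul_left _ (by omega)
        _ = Y := by rw [hY]; ring)
    (by
      rw [hM]
      calc 2 * (D + 1) * L * L ≤ 2 * (10 * (ρ ^ 2 * ν) * Y) * L * L := by gcongr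
        _ = 20 * (ρ ^ 2 * ν * Y * L ^ 2) := by ring
        _ < 21 * (ρ ^ 2 * ν * Y * L ^ 2) := by
          have : 1 ≤ ρ ^ 2 * ν * Y * L ^ 2 := Nat.mul_pos hpos hL2
          omega
        _ = _ := by ring)
    fun p hp h1 _ x hx h2 => hloc p hp (by omega) x hx h2 M
  rw [hρ] at hg
  refine eq_of_ratio hS hW hL ?_ hb hWL (ν := ν) (E := ρ * (4 * Y)) (D := D) (by rw [hr, hD]) ?_ ?_
    heL
  · rw [hρ]
    have : ρ ≤ ρ ^ 2 * ν * Y := le_trans ((Nat.le_mul_of_pos_right _ hν1).trans hρρ)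
      (Nat.le_mul_of_pos_right _ (by omega))
    rw [mul_assoc] at heL
    omega
  · have h1 : 8 * (c * (M + 1) ^ r) ≤ (ν + 1) ^ (r + 1) := by
      calc 8 * (c * (M + 1) ^ r) = 8 * c * (21 * ρ ^ 2 * L ^ 2) ^ r * ν ^ r := by
            rw [hM, mul_pow]; ring
        _ ≤ (ν + 1) * (ν + 1) ^ r :=
            Nat.mul_le_mul (((Nat.mul_le_mul_left _ (Nat.pow_le_pow_right hq (by omega))).trans
              hν).trans (Nat.le_succ _)) (Nat.pow_le_pow_left (Nat.le_succ _) _)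
        _ = _ := (pow_succ' _ _).symm
    rw [hr]
    calc 2 * hf W D ≤ 2 * (4 * (c * (M + 1) ^ r) * hf W (ρ * (4 * Y))) :=
          Nat.mul_le_mul_left _ hg
      _ = 8 * (c * (M + 1) ^ r) * hf W (ρ * (4 * Y)) := by ring
      _ ≤ _ := Nat.mul_le_mul_right _ h1
  · have h1 : (r + 1) * ν * (e + 2) ≤ ρ ^ 2 * ν * Y :=
      Nat.mul_le_mul ((Nat.mul_le_mul_right ν hrρ).trans hρρ) (by omega)
    rw [hr, mul_assoc 14]
    rw [mul_assoc 10] at hD1
    omega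

/-- The size condition on the primes. -/
theorem size_lt {ρ g p : ℕ} (hρ : 1 ≤ ρ) (hg : lam ^ (ρ - 1) ≤ g ^ ρ)
    (hp : 2 * (ρ + 1).factorial * g < p) : (ρ + 1).factorial * (2 * lam / p) ^ (ρ - 1) < p := by
  obtain ⟨s, rfl⟩ : ∃ s, ρ = s + 1 := ⟨ρ - 1, by omega⟩
  simp only [Nat.add_sub_cancel] at hg ⊢
  obtain ⟨K, hK⟩ : ∃ K, K = (s + 1 + 1).factorial := ⟨_, rfl⟩
  rw [← hK] at hp ⊢
  have hK1 : 1 ≤ K := hK ▸ Nat.factorial_pos _
  have h1 : (2 * lam / p) ^ s * p ^ s ≤ 2 ^ s * lam ^ s := by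
    rw [← mul_pow, ← mul_pow]
    exact Nat.pow_le_pow_left (Nat.div_mul_le_self _ _) _
  have h2 : (2 * K * g) ^ (s + 1) < p ^ (s + 1) := Nat.pow_lt_pow_left hp (by omega)
  have h3 : K * 2 ^ s ≤ (2 * K) ^ (s + 1) := by
    rw [mul_pow, mul_comm]
    exact Nat.mul_le_mul (Nat.pow_le_pow_right two_pos (by omega)) (Nat.le_self_pow (by omega) _)
  refine Nat.lt_of_mul_lt_mul_right (a := p ^ s) ?_
  calc K * (2 * lam / p) ^ s * p ^ s ≤ K * 2 ^ s * lam ^ s := by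
        rw [mul_assoc, mul_assoc]; exact Nat.mul_le_mul_left _ h1
    _ ≤ (2 * K) ^ (s + 1) * g ^ (s + 1) := Nat.mul_le_mul h3 hg
    _ < p * p ^ s := by rw [← mul_pow, ← pow_succ']; exact h2

theorem pow_le_pow_or {R a b : ℕ} (ha : 1 ≤ a) (h : a ≤ b) : R ^ a ≤ R ^ b := by
  rcases Nat.eq_zero_or_pos R with rfl | hR
  · rw [zero_pow (by omega)]; exact Nat.zero_le _
  · exact Nat.pow_le_pow_right hR h

/-- The descent below the two top stages. -/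
theorem desc (hL : 1 ≤ L) (hlam : n ≤ lam ^ 2) (hlamL : lam ≤ 2 ^ L) {ρ ν g Λ : ℕ}
    (hρ : Fintype.card σ = ρ) (hν : 8 * (ρ + 1) ^ 2 * (21 * ρ ^ 2 * L ^ 2) ^ ρ ≤ ν)
    (hg : lam ^ (ρ - 1) ≤ g ^ ρ) (hΛ : 230 * ρ ^ 2 * ν * L ^ 2 ≤ Λ) :
    ∀ (r : ℕ) (W : Finset (σ → ℤ)) (I : Finset σ) (v : σ → σ → MvPolynomial σ ℤ)
      (J : MvPolynomial σ ℤ) (e : ℕ), I.card = r → r + 2 ≤ ρ → Stage L W I v J e → W.Nonempty →
      OnSph n W → W.card ≤ 2 ^ L → 10 ^ 10 ≤ e → 2 * (ρ + 1).factorial * g ≤ e →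
      ¬ Rel W ((2 * Λ) ^ (r + 1) * e) := by
  have hL2 : 1 ≤ L ^ 2 := Nat.one_le_pow _ _ hL
  intro r
  induction r with
  | zero =>
    intro W I v J e hI hr hS hW hn hWL he heg hrel
    have hν1 : 1 ≤ ν := le_trans (Nat.one_le_iff_ne_zero.2 (by
      have : ρ ≠ 0 := by omega
      positivity)) hν
    have hb := hn.abs_le' hlam hlamL
    have hYe : 16 * e ≤ 16 * L ^ 2 * e := by nlinarith
    have hI0 : I = ∅ := card_eq_zero.1 hI
    refine Rel.false_of_average hW ((Ioc (16 * L ^ 2 * e) (4 * (16 * L ^ 2 * e))).filter Nat.Prime)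
      (4 * (16 * L ^ 2 * e)) (fun p hp => ⟨(mem_filter.1 hp).2, (mem_Ioc.1 (mem_filter.1 hp).1).2⟩)
      (hrel.mono ?_) fun x hx => ?_
    · have h1 : ρ * 1 ≤ ρ ^ 2 * ν := Nat.mul_le_mul (by nlinarith) hν1
      have h2 : ρ * 1 * L ^ 2 * e ≤ ρ ^ 2 * ν * L ^ 2 * e := by gcongr
      have h3 := Nat.mul_le_mul_right e hΛ
      rw [hρ, zero_add, pow_one]
      calc 2 * (ρ * (4 * (16 * L ^ 2 * e))) = 128 * (ρ * 1 * L ^ 2 * e) := by ring
        _ ≤ 230 * (ρ ^ 2 * ν * L ^ 2 * e) := Nat.mul_le_mul (by norm_num) h2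
        _ = 230 * ρ ^ 2 * ν * L ^ 2 * e := by ring
        _ ≤ 2 * (Λ * e) := by omega
        _ = _ := by ring
    · refine lt_of_le_of_lt (Nat.mul_le_mul_left 2 (card_le_card fun p hp => ?_))
        (D3.few_primes (P := 16 * L ^ 2 * e) (by omega) (hS.ne x hx) ?_)
      · obtain ⟨hp1, y, hy, hne, hxy⟩ := mem_filter.1 hp
        refine mem_filter.2 ⟨hp1, ?_⟩
        obtain ⟨hp2, hp3⟩ := mem_filter.1 hp1
        have hp4 := (mem_Ioc.1 hp2).1
        choose z hz using fun j => (hxy j).neg_right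
        obtain ⟨j, hj⟩ := Function.ne_iff.1 hne
        have h1 := hS.tan x hx y hy p z (by exact_mod_cast hp3.ne_zero)
          (fun j => by linarith [hz j]) j
        rw [hI0, sum_empty, sub_zero] at h1
        refine ((Nat.prime_iff_prime_int.1 hp3).dvd_or_dvd h1).resolve_right fun h2 => hj ?_
        have h3 := size_lt (lam := lam) (p := p) (by omega) hg (by omega)
        have h4 : 2 * lam / p < p := by
          refine lt_of_le_of_lt ?_ h3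
          calc _ = (2 * lam / p) ^ 1 := (pow_one _).symm
            _ ≤ _ := pow_le_pow_or le_rfl (by omega)
            _ ≤ _ := Nat.le_mul_of_pos_left _ (Nat.factorial_pos _)
        have h5 : 2 * lam < p * p := (Nat.div_lt_iff_lt_mul hp3.pos).1 h4
        have h6 : (2 : ℤ) * lam < p * p := by exact_mod_cast h5
        obtain ⟨t, ht⟩ := h2
        have h7 := abs_le.1 (hn.abs_le hlam hx j)
        have h8 := abs_le.1 (hn.abs_le hlam hy j)
        have h9 := hz j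
        rw [ht, ← mul_assoc] at h9
        have h10 : t = 0 := by
          by_contra h0
          have h11 : (p : ℤ) * p * 1 ≤ |(p : ℤ) * p * t| := by
            rw [abs_mul, abs_of_nonneg (by positivity)]
            exact mul_le_mul_of_nonneg_left (Int.one_le_abs h0) (by positivity)
          rw [← h9, le_abs] at h11
          omega
        rw [h10] at h9
        linarith
      · refine (pow_le_pow_left₀ (abs_nonneg _) (hS.szJ.eval_le (hb x hx)) 4).trans ?_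
        rw [← pow_mul]
        refine pow_le_pow_right₀ one_le_two ?_
        calc 2 * e * L * 4 = 8 * (L * 1) * e := by ring
          _ ≤ 16 * (L * L) * e := by gcongr; norm_num
          _ = _ := by ring
  | succ r ih =>
    intro W I v J e hI hr hS hW hn hWL he heg hrel
    have hν1 : 1 ≤ ν := le_trans (Nat.one_le_iff_ne_zero.2 (by
      have : ρ ≠ 0 := by omega
      positivity)) hν
    obtain ⟨q, hq⟩ : ∃ q, q = ρ ^ 2 * ν * L ^ 2 := ⟨_, rfl⟩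
    have hq1 : ρ ≤ q := by
      rw [hq]
      calc ρ ≤ ρ ^ 2 * 1 * 1 := by nlinarith
        _ ≤ _ := by gcongr
    have hΛ' : 230 * q ≤ Λ := by rw [hq]; linarith
    have hqe : 230 * (q * e) ≤ Λ * e := by nlinarith
    have hqe' : e ≤ q * e := Nat.le_mul_of_pos_left _ (by omega)
    have hqe'' : q ≤ q * e := Nat.le_mul_of_pos_right _ (by omega)
    have hK : (2 * Λ) ^ (r + 1) * (Λ * e) + Λ * e ≤ (2 * Λ) ^ (r + 1 + 1) * e := by
      have : Λ * e ≤ (2 * Λ) ^ (r + 1) * (Λ * e) :=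
        Nat.le_mul_of_pos_left _ (Nat.pow_pos (by omega))
      calc _ ≤ 2 * ((2 * Λ) ^ (r + 1) * (Λ * e)) := by omega
        _ = _ := by ring
    have hlt := (lt_card_of_rel hW hrel).le.trans hWL
    have hE : 224 * ρ ^ 2 * ν * L ^ 2 * e = 224 * (q * e) := by rw [hq]; ring
    have h1 := eq_of_loc hS hW hL hn hlam hlamL hWL hρ hI (c := r + 2) (ν := ν) (by omega)
      (le_trans (by
        have : r + 2 ≤ (ρ + 1) ^ 2 := by nlinarith
        gcongr) hν) he (by omega) hS.szJ hS.ne fun p hp h1 x hx h2 M => by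
        refine locA hS hn hlam hp (by omega) hx h2 hI ?_ M
        refine lt_of_le_of_lt ?_ (size_lt (lam := lam) (p := p) (by omega) hg (by omega))
        exact Nat.mul_le_mul (Nat.factorial_le (by omega)) (pow_le_pow_or (by omega) (by omega))
    rw [hE] at h1
    obtain ⟨W', hW1, hW2, hW3, i, hi, v', J', hS'⟩ := hS.next hL (by omega) h1 (by omega)
      (k := (2 * Λ) ^ (r + 1) * (Λ * e)) (hrel.mono (by omega))
    exact ih W' _ v' J' (Λ * e) (by rw [card_erase_of_mem hi, hI]; rfl) (by omega)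
      (hS'.mono (by omega)) hW2 (hn.subset hW1) ((card_le_card hW1).trans hWL) (by omega)
      (by omega) hW3

end Pool.Agent.P.MP_d565f2_an.LS
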