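import Pool.Agent.P.MP_d565f2_an.LS.Size

set_option autoImplicit false

open MvPolynomial Finset Module

namespace Pool.Agent.P.MP_d565f2_an.LS

variable {σ : Type} [Fintype σ] [DecidableEq σ]

omit [Fintype σ] in
theorem Factor_clear (g : MvPolynomial σ ℚ) : ∃ (b : ℤ) (g' : MvPolynomial σ ℤ), b ≠ 0 ∧
    g'.totalDegree ≤ g.totalDegree ∧ toQ g' = C (b : ℚ) * g := by
  obtain ⟨b, hb⟩ := IsLocalization.exist_integer_multiples (nonZeroDivisors ℤ) g.support
    (fun m => g.coeff m)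
  choose! z hz using hb
  refine ⟨b, ∑ m ∈ g.support, monomial m (z m), nonZeroDivisors.ne_zero b.2, ?_, ?_⟩
  · exact totalDegree_finsetSum_le fun m hm =>
      (totalDegree_monomial_le _ _).trans (le_totalDegree hm)
  · conv_rhs => rw [g.as_sum, Finset.mul_sum]
    rw [map_sum]
    refine Finset.sum_congr rfl fun m hm => ?_
    have := hz m hm
    simp only [algebraMap_int_eq, eq_intCast, zsmul_eq_mul] at this
    rw [C_mul_monomial, ← this]
    simp [toQ]

theorem filterQ {Z : Finset (σ → ℤ)} {k a : ℕ} (h : Rel Z (k + a)) (g : MvPolynomial σ ℚ)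
    (hg : g.totalDegree ≤ a) : Rel (Z.filter fun x => eval (cst x) g ≠ 0) k := by
  obtain ⟨b, g', hb, h1, h2⟩ := Factor_clear g
  have h3 := h.filter g' (h1.trans hg)
  have h4 : ∀ x : σ → ℤ, eval x g' ≠ 0 ↔ eval (cst x) g ≠ 0 := fun x => by
    have h5 := eval_toQ x g'
    rw [h2, map_mul, eval_C] at h5
    rw [← Int.cast_ne_zero (α := ℚ), ← h5, mul_ne_zero_iff]
    exact and_iff_right (Int.cast_ne_zero.2 hb)
  simpa only [h4] using h3

/- Induction on a prime factorisation F = f G: if G vanishes on W use G, else filter by G. -/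
theorem exists_prime_factor {W : Finset (σ → ℤ)} (hW : W.Nonempty) {k e : ℕ} (h : Rel W (k + e))
    {F : MvPolynomial σ ℚ} (hF : F ≠ 0) (hFe : F.totalDegree ≤ e)
    (hFW : ∀ x ∈ W, eval (cst x) F = 0) :
    ∃ W' ⊆ W, W'.Nonempty ∧ Rel W' k ∧ ∃ f : MvPolynomial σ ℚ, Prime f ∧ f ∣ F ∧
      f.totalDegree ≤ e ∧ ∀ x ∈ W', eval (cst x) f = 0 := by
  induction F using UniqueFactorizationMonoid.induction_on_prime with
  | h₁ => exact absurd rfl hF
  | h₂ F hu =>
    obtain ⟨x, hx⟩ := hW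
    exact absurd (hFW x hx) (hu.map (eval (cst x))).ne_zero
  | h₃ G p hG hp ih =>
    have hd := totalDegree_mul_of_isDomain hp.ne_zero hG
    by_cases hGW : ∀ x ∈ W, eval (cst x) G = 0
    · obtain ⟨W', h1, h2, h3, f, h4, h5, h6⟩ := ih hG (by omega) hGW
      exact ⟨W', h1, h2, h3, f, h4, h5.mul_left _, h6⟩
    · push Not at hGW
      obtain ⟨x, hx, hx'⟩ := hGW
      refine ⟨_, Finset.filter_subset _ _, ⟨x, Finset.mem_filter.2 ⟨hx, hx'⟩⟩,
        filterQ h G (by omega), p, hp, dvd_mul_right _ _, by omega, fun y hy => ?_⟩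
      obtain ⟨hy1, hy2⟩ := Finset.mem_filter.1 hy
      have := hFW y hy1
      rw [map_mul] at this
      exact (mul_eq_zero.1 this).resolve_right hy2

/-- The projected hyperplane section of the sphere. -/
noncomputable def quad (u : σ → ℤ) (w τ n : ℤ) : MvPolynomial σ ℤ :=
  (C τ - ∑ j, C (u j) * X j) ^ 2 - C (w ^ 2) * (C n - ∑ j, X j ^ 2)

theorem eval_quad (u : σ → ℤ) (w τ n : ℤ) (y : σ → ℤ) :
    eval y (quad u w τ n) = (τ - u ⬝ᵥ y) ^ 2 - w ^ 2 * (n - y ⬝ᵥ y) := by
  simp [quad, dotProduct, sq]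

/-- The variables and the constant one. -/
noncomputable def Factor_Y {R : Type} [CommRing R] (a : Option σ) : MvPolynomial σ R :=
  a.elim 1 X

omit [DecidableEq σ] in
theorem Factor_span (u : σ → ℤ) (w τ n : ℤ) : toQ (quad u w τ n) ∈ Submodule.span ℚ
    (Set.range fun ab : Option σ × Option σ =>
      (toQ (Factor_Y ab.1 * Factor_Y ab.2) : MvPolynomial σ ℚ)) := by
  set S := Submodule.span ℚ (Set.range fun ab : Option σ × Option σ =>
      (toQ (Factor_Y ab.1 * Factor_Y ab.2) : MvPolynomial σ ℚ))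
  have h0 : (1 : MvPolynomial σ ℚ) ∈ S :=
    Submodule.subset_span ⟨(none, none), by simp [Factor_Y]⟩
  have h1 : ∀ j, (X j : MvPolynomial σ ℚ) ∈ S := fun j =>
    Submodule.subset_span ⟨(none, some j), by simp [Factor_Y, toQ]⟩
  have h2 : ∀ i j, (X i * X j : MvPolynomial σ ℚ) ∈ S := fun i j =>
    Submodule.subset_span ⟨(some i, some j), by simp [Factor_Y, toQ]⟩
  have e : toQ (quad u w τ n) = ((τ : ℚ) ^ 2) • (1 : MvPolynomial σ ℚ) -
      (2 * τ : ℚ) • ∑ j, (u j : ℚ) • X j + ∑ i, ∑ j, ((u i : ℚ) * u j) • (X i * X j) -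
      ((w : ℚ) ^ 2) • ((n : ℚ) • (1 : MvPolynomial σ ℚ) - ∑ j, X j * X j) := by
    have e1 : (∑ i, ∑ j, ((u i : ℚ) * u j) • (X i * X j) : MvPolynomial σ ℚ) =
        (∑ j, C (u j : ℚ) * X j) ^ 2 := by
      rw [sq, Finset.sum_mul_sum]
      refine Finset.sum_congr rfl fun i _ => Finset.sum_congr rfl fun j _ => ?_
      rw [smul_eq_C_mul, map_mul]
      ring
    rw [e1]
    simp only [quad, toQ, map_sub, map_pow, map_mul, map_sum, map_X, smul_eq_C_mul,
      eq_intCast, ← sq, map_ofNat, map_intCast]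
    ring
  rw [e]
  refine sub_mem (add_mem (sub_mem (S.smul_mem _ h0) (S.smul_mem _ (sum_mem fun j _ =>
    S.smul_mem _ (h1 j)))) (sum_mem fun i _ => sum_mem fun j _ => S.smul_mem _ (h2 i j)))
    (S.smul_mem _ (sub_mem (S.smul_mem _ h0) (sum_mem fun j _ => h2 j j)))

/- The products X a * X b over a, b in Option σ (X none = 1); exists_linearIndependent' for their
images in MvPolynomial / (f). -/
theorem exists_quad_basis (f : MvPolynomial σ ℚ) :
    ∃ (N : ℕ) (m : Fin N → MvPolynomial σ ℤ), N ≤ (Fintype.card σ + 1) ^ 2 ∧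
      (∀ L j, Sz L (m j) 2) ∧ (∀ c : Fin N → ℚ, f ∣ ∑ j, C (c j) * toQ (m j) → c = 0) ∧
      ∀ (u : σ → ℤ) (w τ n : ℤ), ∃ c : Fin N → ℚ,
        f ∣ toQ (quad u w τ n) - ∑ j, C (c j) * toQ (m j) := by
  let π := (Ideal.Quotient.mkₐ ℚ (Ideal.span {f})).toLinearMap
  have hπ : ∀ g, π g = 0 ↔ f ∣ g := fun g =>
    Ideal.Quotient.eq_zero_iff_mem.trans Ideal.mem_span_singleton
  let M : Option σ × Option σ → MvPolynomial σ ℤ := fun ab => Factor_Y ab.1 * Factor_Y ab.2
  obtain ⟨κ, a, ha, hsp, hli⟩ := exists_linearIndependent' ℚ fun ab => π (toQ (M ab))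
  have : Finite κ := Finite.of_injective a ha
  have := Fintype.ofFinite κ
  let e := (Fintype.equivFin κ).symm
  have hsum : ∀ c : Fin (Fintype.card κ) → ℚ, π (∑ j, C (c j) * toQ (M (a (e j)))) =
      ∑ j, c j • π (toQ (M (a (e j)))) := fun c => by
    rw [map_sum]
    exact Finset.sum_congr rfl fun j _ => by rw [← smul_eq_C_mul, map_smul]
  refine ⟨Fintype.card κ, fun j => M (a (e j)), ?_, fun L j => ?_, fun c hc => ?_,
    fun u w τ n => ?_⟩
  · have := Fintype.card_le_of_injective a ha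
    simpa [sq] using this
  · have hY : ∀ b : Option σ, Sz L (Factor_Y b) 1 := fun b => by
      cases b with
      | none => exact Sz.one 1
      | some j => exact Sz.X j
    exact (hY _).mul (hY _)
  · have h1 := (hπ _).2 hc
    rw [hsum] at h1
    exact funext (Fintype.linearIndependent_iff.1 (hli.comp e e.injective) c h1)
  · have h1 : π (toQ (quad u w τ n)) ∈ Submodule.span ℚ
        (Set.range fun j => π (toQ (M (a (e j))))) := by
      have h2 : (Set.range fun j => π (toQ (M (a (e j))))) =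
          Set.range ((fun ab => π (toQ (M ab))) ∘ a) :=
        e.surjective.range_comp ((fun ab => π (toQ (M ab))) ∘ a)
      rw [h2, hsp]
      have h3 := Submodule.mem_map_of_mem (f := π) (Factor_span u w τ n)
      rwa [Submodule.map_span, ← Set.range_comp] at h3
    obtain ⟨c, hc⟩ := (Submodule.mem_span_range_iff_exists_fun ℚ).1 h1
    exact ⟨c, (hπ _).1 (by rw [map_sub, hsum, hc, sub_self])⟩

end Pool.Agent.P.MP_d565f2_an.LS
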