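import Pool.Agent.P.MP_d565f2_an.LS.Defs

set_option autoImplicit false
set_option linter.unusedSectionVars false

open MvPolynomial Finset Module

namespace Pool.Agent.P.MP_d565f2_an.LS

variable {σ : Type} [Fintype σ] [DecidableEq σ]

section

variable {R : Type} [CommRing R]

omit [Fintype σ] [DecidableEq σ] in
theorem Jet_gen (a : σ → R) (j : σ) : (X j - C (a j) : MvPolynomial σ R) ∈ mx a :=
  Ideal.subset_span ⟨j, rfl⟩

omit [Fintype σ] [DecidableEq σ] in
theorem Jet_sub (a : σ → R) (g : MvPolynomial σ R) : g - C (eval a g) ∈ mx a := by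
  induction g using MvPolynomial.induction_on with
  | C c => simp
  | add p q hp hq =>
    have e : p + q - C (eval a (p + q)) = (p - C (eval a p)) + (q - C (eval a q)) := by
      simp only [map_add]; ring
    rw [e]
    exact add_mem hp hq
  | mul_X p j hp =>
    have e : p * X j - C (eval a (p * X j)) =
        p * (X j - C (a j)) + C (a j) * (p - C (eval a p)) := by
      simp only [map_mul, eval_X]; ring
    rw [e]
    exact add_mem (Ideal.mul_mem_left _ _ (Jet_gen a j)) (Ideal.mul_mem_left _ _ hp)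

theorem mem_mx {a : σ → R} {g : MvPolynomial σ R} : g ∈ mx a ↔ eval a g = 0 := by
  refine ⟨fun h => ?_, fun h => by simpa [h] using Jet_sub a g⟩
  have : mx a ≤ RingHom.ker (eval a) := Ideal.span_le.2 (by
    rintro _ ⟨j, rfl⟩
    simp [RingHom.mem_ker])
  exact this h

theorem der_mem_pow {a : σ → R} (v : σ → MvPolynomial σ R) {g : MvPolynomial σ R} {j : ℕ}
    (h : g ∈ mx a ^ (j + 1)) : der v g ∈ mx a ^ j := by
  induction j generalizing g with
  | zero => simp
  | succ j ih =>
    rw [pow_succ] at h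
    refine Submodule.mul_induction_on h (fun x hx y hy => ?_) fun x y hx hy => ?_
    · rw [der_mul]
      refine add_mem (Ideal.mul_mem_right _ _ hx) ?_
      rw [pow_succ']
      exact Ideal.mul_mem_mul hy (ih hx)
    · rw [der_add]
      exact add_mem hx hy

theorem Jet_wd {a : σ → R} (u : σ → σ → MvPolynomial σ R) {g : MvPolynomial σ R} (l : List σ)
    {n : ℕ} (h : g ∈ mx a ^ (n + l.length)) : wd u l g ∈ mx a ^ n := by
  induction l generalizing n with
  | nil => exact h
  | cons i l ih =>
    rw [wd_cons]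
    refine der_mem_pow _ (ih ?_)
    rwa [List.length_cons, add_comm l.length 1, ← add_assoc] at h

theorem eval_wd_eq_zero {a : σ → R} (u : σ → σ → MvPolynomial σ R) {g : MvPolynomial σ R} {j : ℕ}
    (h : g ∈ mx a ^ j) {l : List σ} (hl : l.length < j) : eval a (wd u l g) = 0 := by
  have h1 := Jet_wd u l (n := 1) (Ideal.pow_le_pow_right (by omega) h)
  rw [pow_one] at h1
  exact mem_mx.1 h1

omit [Fintype σ] [DecidableEq σ] in
theorem Jet_UI {I : Finset σ} {a : σ → R} {m : MvPolynomial σ R} (h : m ∈ UI I a) :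
    m ∈ mx a := by
  induction h using Submodule.span_induction with
  | mem y hy =>
    obtain ⟨j, -, rfl⟩ := hy
    exact Jet_gen a j
  | zero => exact zero_mem _
  | add x y _ _ hx hy => exact add_mem hx hy
  | smul c x _ hx =>
    rw [smul_eq_C_mul]
    exact Ideal.mul_mem_left _ _ hx

theorem mem_mx_pow_of_UI {I : Finset σ} {a : σ → R} {G : MvPolynomial σ R} {j : ℕ}
    (h : G ∈ UI I a ^ j) : G ∈ mx a ^ j := by
  induction h using Submodule.pow_induction_on_left' with
  | algebraMap r => simp
  | add x y i _ _ hx hy => exact add_mem hx hy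
  | mem_mul m hm i x _ hx =>
    rw [Nat.succ_eq_add_one, pow_succ']
    exact Ideal.mul_mem_mul (Jet_UI hm) hx

omit [Fintype σ] in
theorem Jet_pd1 {I : Finset σ} {a : σ → R} (i : σ) {m : MvPolynomial σ R} (h : m ∈ UI I a) :
    ∃ c : R, pderiv i m = C c := by
  induction h using Submodule.span_induction with
  | mem y hy =>
    obtain ⟨j, -, rfl⟩ := hy
    by_cases e : j = i
    · exact ⟨1, by simp [e]⟩
    · exact ⟨0, by simp [pderiv_X_of_ne e]⟩
  | zero => exact ⟨0, by simp⟩
  | add x y _ _ hx hy =>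
    obtain ⟨c, hc⟩ := hx
    obtain ⟨d, hd⟩ := hy
    exact ⟨c + d, by simp [hc, hd]⟩
  | smul c x _ hx =>
    obtain ⟨d, hd⟩ := hx
    exact ⟨c * d, by rw [smul_eq_C_mul, pderiv_C_mul, hd, C_mul]⟩

omit [Fintype σ] in
theorem Jet_pd {I : Finset σ} {a : σ → R} (i : σ) {G : MvPolynomial σ R} {j : ℕ}
    (h : G ∈ UI I a ^ j) :
    pderiv i G ∈ UI I a ^ (j - 1) ∧ ∀ m ∈ UI I a, m * pderiv i G ∈ UI I a ^ j := by
  induction h using Submodule.pow_induction_on_left' with
  | algebraMap r => simp
  | add x y n _ _ hx hy =>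
    refine ⟨by rw [map_add]; exact add_mem hx.1 hy.1, fun m hm => ?_⟩
    rw [map_add, mul_add]
    exact add_mem (hx.2 m hm) (hy.2 m hm)
  | mem_mul m hm n x hx ih =>
    obtain ⟨c, hc⟩ := Jet_pd1 i hm
    have h1 : pderiv i (m * x) ∈ UI I a ^ n := by
      rw [Derivation.leibniz, hc, smul_eq_mul, smul_eq_mul, mul_comm x, ← smul_eq_C_mul]
      exact add_mem (ih.2 m hm) (Submodule.smul_mem _ _ hx)
    refine ⟨h1, fun m' hm' => ?_⟩
    rw [Nat.succ_eq_add_one, pow_succ']
    exact Submodule.mul_mem_mul hm' h1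

theorem Jet_diag {I : Finset σ} {u : σ → σ → MvPolynomial σ R} {J : MvPolynomial σ R}
    (hd : ∀ i ∈ I, ∀ j ∈ I, u i j = if i = j then J else 0) {a : σ → R} {i : σ} (hi : i ∈ I)
    {G : MvPolynomial σ R} {j : ℕ} (h : G ∈ UI I a ^ j) : der (u i) G = J * pderiv i G := by
  have h1 : ∀ m ∈ UI I a, der (u i) m = J * pderiv i m := fun m hm => by
    induction hm using Submodule.span_induction with
    | mem y hy =>
      obtain ⟨j, hj, rfl⟩ := hy
      rw [der_sub, der_X, der_C, sub_zero, hd i hi j hj]
      by_cases e : i = j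
      · simp [e]
      · simp [e, pderiv_X_of_ne (Ne.symm e)]
    | zero => simp [der_zero]
    | add x y _ _ hx hy => rw [der_add, map_add, mul_add, hx, hy]
    | smul c x _ hx => rw [smul_eq_C_mul, der_C_mul, pderiv_C_mul, hx, mul_left_comm]
  induction h using Submodule.pow_induction_on_left' with
  | algebraMap r => simp [der_C]
  | add x y n _ _ hx hy => rw [der_add, map_add, mul_add, hx, hy]
  | mem_mul m hm n x _ ih =>
    rw [der_mul, ih, h1 m hm, Derivation.leibniz, smul_eq_mul, smul_eq_mul]
    ring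

theorem Jet_euler {I : Finset σ} {a : σ → R} {G : MvPolynomial σ R} {j : ℕ}
    (h : G ∈ UI I a ^ j) :
    der (fun i => if i ∈ I then X i - C (a i) else 0) G = C (j : R) * G := by
  have h1 : ∀ m ∈ UI I a, der (fun i => if i ∈ I then X i - C (a i) else 0) m = m :=
    fun m hm => by
      induction hm using Submodule.span_induction with
      | mem y hy =>
        obtain ⟨j, hj, rfl⟩ := hy
        rw [der_sub, der_X, der_C, sub_zero, if_pos (Finset.mem_coe.1 hj)]
      | zero => exact der_zero _
      | add x y _ _ hx hy => rw [der_add, hx, hy]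
      | smul c x _ hx => rw [smul_eq_C_mul, der_C_mul, hx]
  induction h using Submodule.pow_induction_on_left' with
  | algebraMap r => simp [der_C]
  | add x y n _ _ hx hy => rw [der_add, mul_add, hx, hy]
  | mem_mul m hm n x _ ih =>
    rw [der_mul, ih, h1 m hm, Nat.succ_eq_add_one, Nat.cast_add, Nat.cast_one, C_add, C_1]
    ring

theorem Jet_taylor (a : σ → R) (g : MvPolynomial σ R) :
    g - C (eval a g) - ∑ j, C (eval a (pderiv j g)) * (X j - C (a j)) ∈ mx a ^ 2 := by
  induction g using MvPolynomial.induction_on with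
  | C c => simp
  | add p q hp hq =>
    have := add_mem hp hq
    convert this using 1
    simp only [map_add, add_mul, Finset.sum_add_distrib]
    ring
  | mul_X p i hp =>
    have h1 : (p - C (eval a p)) * (X i - C (a i)) ∈ mx a ^ 2 := by
      rw [pow_two]
      exact Ideal.mul_mem_mul (Jet_sub a p) (Jet_gen a i)
    have h2 : ∑ j, C (eval a (pderiv j (p * X i))) * (X j - C (a j)) =
        C (eval a p) * (X i - C (a i)) +
          C (a i) * ∑ j, C (eval a (pderiv j p)) * (X j - C (a j) : MvPolynomial σ R) := by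
      have h3 : ∀ j, C (eval a (pderiv j (p * X i))) * (X j - C (a j)) =
          (if i = j then C (eval a p) * (X j - C (a j)) else 0) +
            C (a i) * (C (eval a (pderiv j p)) * (X j - C (a j) : MvPolynomial σ R)) := fun j => by
        rw [Derivation.leibniz, smul_eq_mul, smul_eq_mul]
        by_cases e : i = j
        · subst e
          simp only [pderiv_X_self, mul_one, map_add, map_mul, eval_X, if_true]
          ring
        · simp only [pderiv_X_of_ne e, mul_zero, zero_add, map_mul, eval_X, if_neg e]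
          ring
      simp only [h3, Finset.sum_add_distrib, Finset.sum_ite_eq, Finset.mem_univ, if_true,
        Finset.mul_sum]
    have := add_mem h1 (Ideal.mul_mem_left _ (C (a i)) hp)
    convert this using 1
    rw [h2]
    simp only [map_mul, eval_X]
    ring

end

variable {k : Type} [Field k]

theorem finite_UI (I : Finset σ) (a : σ → k) : Module.Finite k (UI I a) :=
  Module.Finite.span_of_finite k (I.finite_toSet.image _)

theorem finrank_UI_le (I : Finset σ) (a : σ → k) : finrank k (UI I a) ≤ I.card := by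
  classical
  have h := finrank_span_finset_le_card (R := k)
    (I.image fun j => (X j - C (a j) : MvPolynomial σ k))
  rw [Finset.coe_image] at h
  exact h.trans Finset.card_image_le

theorem detect [CharZero k] {I : Finset σ} {u : σ → σ → MvPolynomial σ k} {J : MvPolynomial σ k}
    (hd : ∀ i ∈ I, ∀ j ∈ I, u i j = if i = j then J else 0) {a : σ → k} (hJ : eval a J ≠ 0)
    {j : ℕ} {G h : MvPolynomial σ k} (hG : G ∈ UI I a ^ j) (hh : h ∈ mx a ^ (j + 1))
    (h0 : ∀ l : List σ, (∀ i ∈ l, i ∈ I) → l.length = j → eval a (wd u l (G + h)) = 0) :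
    G = 0 := by
  induction j generalizing G h with
  | zero =>
    rw [pow_zero, Submodule.mem_one] at hG
    obtain ⟨c, rfl⟩ := hG
    have h1 := h0 [] (by simp) rfl
    rw [zero_add, pow_one, mem_mx] at hh
    rw [wd_nil, map_add, hh, add_zero, algebraMap_eq, eval_C] at h1
    rw [h1, map_zero]
  | succ j ih =>
    have h1 : ∀ i ∈ I, pderiv i G = 0 := fun i hi => by
      have hp : pderiv i G ∈ UI I a ^ j := (Jet_pd i hG).1
      have h2 := ih (G := C (eval a J) * pderiv i G)
        (h := (J - C (eval a J)) * pderiv i G + der (u i) h)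
        (by rw [← smul_eq_C_mul]; exact Submodule.smul_mem _ _ hp)
        (add_mem (by
          rw [pow_succ']
          exact Ideal.mul_mem_mul (Jet_sub a J) (mem_mx_pow_of_UI hp)) (der_mem_pow _ hh))
        fun l hl hj => by
          have h3 := h0 (l ++ [i]) (fun x hx => (List.mem_append.1 hx).elim (hl x)
            fun e => List.mem_singleton.1 e ▸ hi) (by simp [hj])
          rw [wd_append, wd_cons, wd_nil, der_add, Jet_diag hd hi hG] at h3
          rw [← h3]
          congr 2
          ring
      exact (mul_eq_zero.1 h2).resolve_left (by simpa using hJ)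
    have h2 := Jet_euler hG
    rw [der, Finset.sum_eq_zero fun i _ => by
      by_cases hi : i ∈ I
      · rw [h1 i hi, mul_zero]
      · rw [if_neg hi, zero_mul]] at h2
    refine (mul_eq_zero.1 h2.symm).resolve_left ?_
    rw [C_eq_zero]
    exact Nat.cast_ne_zero.2 (Nat.succ_ne_zero j)

theorem Jet_one {F : MvPolynomial σ k} {a : σ → k} {i0 : σ} (hF : eval a F = 0)
    (hF' : eval a (pderiv i0 F) ≠ 0) {g : MvPolynomial σ k} (hg : g ∈ mx a) :
    ∃ G ∈ UI (univ.erase i0) a, g - G ∈ mx a ^ 2 ⊔ Ideal.span {F} := by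
  obtain ⟨t, ht⟩ : ∃ t, t * eval a (pderiv i0 F) = eval a (pderiv i0 g) :=
    ⟨_, div_mul_cancel₀ _ hF'⟩
  have h1 := Jet_taylor a (g - C t * F)
  have h2 : eval a (g - C t * F) = 0 := by simp [mem_mx.1 hg, hF]
  have h3 : eval a (pderiv i0 (g - C t * F)) = 0 := by
    rw [map_sub, pderiv_C_mul, map_sub, map_mul, eval_C, ht, sub_self]
  rw [h2, C_0, sub_zero, ← Finset.add_sum_erase _ _ (Finset.mem_univ i0), h3, C_0, zero_mul,
    zero_add] at h1
  refine ⟨∑ j ∈ univ.erase i0, C (eval a (pderiv j (g - C t * F))) * (X j - C (a j)),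
    Submodule.sum_mem _ fun j hj => ?_, ?_⟩
  rotate_left
  · have := add_mem (Ideal.mem_sup_left (T := Ideal.span {F}) h1)
      (Ideal.mem_sup_right (Ideal.mul_mem_left _ (C t) (Ideal.mem_span_singleton_self F)))
    convert this using 1
    ring
  · rw [← smul_eq_C_mul]
    exact Submodule.smul_mem _ _ (Submodule.subset_span ⟨j, hj, rfl⟩)

theorem elim {F : MvPolynomial σ k} {a : σ → k} {i0 : σ} (hF : eval a F = 0)
    (hF' : eval a (pderiv i0 F) ≠ 0) {j : ℕ} {g : MvPolynomial σ k} (hg : g ∈ mx a ^ j) :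
    ∃ G ∈ UI (univ.erase i0) a ^ j, g - G ∈ mx a ^ (j + 1) ⊔ Ideal.span {F} := by
  have key : ∀ {p q : ℕ} {x y : MvPolynomial σ k}, x ∈ mx a ^ p ⊔ Ideal.span {F} →
      y ∈ mx a ^ q → x * y ∈ mx a ^ (p + q) ⊔ Ideal.span {F} := fun hx hy => by
    obtain ⟨x1, a1, x2, a2, rfl⟩ := Submodule.mem_sup.1 hx
    rw [add_mul, pow_add]
    exact add_mem (Ideal.mem_sup_left (Ideal.mul_mem_mul a1 hy))
      (Ideal.mem_sup_right (Ideal.mul_mem_right _ _ a2))
  induction j generalizing g with
  | zero =>
    refine ⟨C (eval a g), ?_, Ideal.mem_sup_left ?_⟩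
    · rw [pow_zero, Submodule.mem_one]
      exact ⟨_, rfl⟩
    · rw [zero_add, pow_one]
      exact Jet_sub a g
  | succ j ih =>
    rw [pow_succ] at hg
    refine Submodule.mul_induction_on hg (fun x hx y hy => ?_) fun x y hx hy => ?_
    · obtain ⟨G1, a1, a2⟩ := ih hx
      obtain ⟨G2, b1, b2⟩ := Jet_one hF hF' hy
      refine ⟨G1 * G2, by rw [pow_succ]; exact Submodule.mul_mem_mul a1 b1, ?_⟩
      have c1 := key (q := 1) a2 (by rwa [pow_one])
      have c2 := key b2 (mem_mx_pow_of_UI a1)
      rw [show 2 + j = j + 1 + 1 by omega] at c2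
      convert add_mem c1 c2 using 1
      ring
    · obtain ⟨G1, a1, a2⟩ := hx
      obtain ⟨G2, b1, b2⟩ := hy
      refine ⟨G1 + G2, add_mem a1 b1, ?_⟩
      convert add_mem a2 b2 using 1
      ring

end Pool.Agent.P.MP_d565f2_an.LS
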