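import Pool.Agent.P.MP_d565f2_an.LS.Jet
import Pool.Agent.P.MP_d565f2_an.LS.Calc

set_option autoImplicit false

open MvPolynomial Finset Module

namespace Pool.Agent.P.MP_d565f2_an.LS

variable {σ : Type} [Fintype σ] [DecidableEq σ]

theorem LocB_compl {K A : Type} [Field K] [AddCommGroup A] [Module K A] {P P' : Submodule K A}
    [Module.Finite K P] (h : P' ≤ P) :
    ∃ T : Finset A, T.card + finrank K P' = finrank K P ∧
      P ≤ Submodule.span K (T : Set A) ⊔ P' := by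
  obtain ⟨N, h1, h2⟩ := IsModularLattice.exists_disjoint_and_sup_eq h
  have : Module.Finite K P' := Submodule.finiteDimensional_of_le h
  have : Module.Finite K N := Submodule.finiteDimensional_of_le (h2 ▸ le_sup_right)
  have : Module.Finite K (Submodule.span K (N : Set A)) := by rwa [Submodule.span_eq]
  obtain ⟨T, -, t1, t2, -⟩ := Submodule.exists_finset_span_eq_linearIndepOn K (N : Set A)
  rw [Submodule.span_eq] at t1 t2
  have h3 := Submodule.finrank_sup_add_finrank_inf_eq P' N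
  rw [h1.eq_bot, finrank_bot, h2] at h3
  exact ⟨T, by omega, by rw [t2, sup_comm, h2]⟩

theorem LocB_pow {K A : Type} [Field K] [CommRing A] [Algebra K A] (P : Submodule K A)
    [Module.Finite K P] {m : ℕ} (hP : finrank K P ≤ m + 2) (j t : ℕ) :
    finrank K ↥(P ^ (j + t)) ≤ finrank K ↥(P ^ j) + t * (j + t + 1) ^ m := by
  induction t with
  | zero => simp
  | succ t ih =>
    have h1 := finrank_pow_succ_le P hP (j + t)
    have h2 : t * (j + t + 1) ^ m ≤ t * (j + t + 2) ^ m :=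
      Nat.mul_le_mul_left _ (Nat.pow_le_pow_left (by omega) m)
    rw [← add_assoc, add_mul, one_mul]
    change _ ≤ _ + (t * (j + t + 2) ^ m + (j + t + 2) ^ m)
    omega

theorem LocB_layer {k : Type} [Field k] {a : σ → k} {I : Finset σ} {r : ℕ} (hI : I.card = r + 2)
    {B : Ideal (MvPolynomial σ k)} {G : MvPolynomial σ k} {s s' : ℕ} (hs : s' ≤ s) (hG0 : G ≠ 0)
    (hG : G ∈ UI I a ^ s') (hG' : G ∈ mx a ^ (s' + 1) ⊔ B) (j : ℕ) :
    ∃ T : Finset (MvPolynomial σ k), T.card ≤ s * (j + 1) ^ r ∧ ∀ u ∈ UI I a ^ j,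
      ∃ φ ∈ Submodule.span k (T : Set (MvPolynomial σ k)), u - φ ∈ mx a ^ (j + 1) ⊔ B := by
  have := finite_UI I a
  have hU : finrank k (UI I a) ≤ r + 2 := hI ▸ finrank_UI_le I a
  have := finite_pow (UI I a) j
  rcases lt_or_ge j s' with h | h
  · obtain ⟨T, t1, t2⟩ := LocB_compl (bot_le : ⊥ ≤ UI I a ^ j)
    have h1 := finrank_pow_le (UI I a) (m := r + 1) hU j
    rw [finrank_bot, add_zero] at t1
    rw [sup_bot_eq] at t2
    refine ⟨T, ?_, fun u hu => ⟨u, t2 hu, by rw [sub_self]; exact zero_mem _⟩⟩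
    rw [t1]
    refine h1.trans ?_
    rw [pow_succ']
    exact Nat.mul_le_mul_right _ (by omega)
  · obtain ⟨i, rfl⟩ := Nat.exists_eq_add_of_le' h
    have hle : (UI I a ^ i).map (LinearMap.mulLeft k G) ≤ UI I a ^ (i + s') := by
      rintro _ ⟨u, hu, rfl⟩
      rw [pow_add, LinearMap.mulLeft_apply, mul_comm G]
      exact Submodule.mul_mem_mul hu hG
    obtain ⟨T, t1, t2⟩ := LocB_compl hle
    have h1 := LocB_pow (UI I a) hU i s'
    have h2 := (Submodule.equivMapOfInjective (LinearMap.mulLeft k G)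
      (mul_right_injective₀ hG0) (UI I a ^ i)).finrank_eq
    have h3 : s' * (i + s' + 1) ^ r ≤ s * (i + s' + 1) ^ r := Nat.mul_le_mul_right _ hs
    refine ⟨T, by omega, fun u hu => ?_⟩
    obtain ⟨φ, hφ, _, ⟨w, hw, rfl⟩, rfl⟩ := Submodule.mem_sup.1 (t2 hu)
    refine ⟨φ, hφ, ?_⟩
    rw [add_sub_cancel_left, LinearMap.mulLeft_apply]
    obtain ⟨g, hg, b, hb, rfl⟩ := Submodule.mem_sup.1 hG'
    rw [add_mul]
    refine Submodule.add_mem_sup ?_ (Ideal.mul_mem_right _ _ hb)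
    rw [add_assoc, pow_add, mul_comm g]
    exact Ideal.mul_mem_mul (mem_mx_pow_of_UI hw) hg

/- U = UI (univ.erase i0) a.  Let s' ≤ s be least with Q ∉ mx ^ (s' + 1) ⊔ (F); `elim` gives
0 ≠ G ∈ U ^ s' inside mx ^ (s' + 1) ⊔ (F, Q).  For each j there is N j with finrank ≤ s (j + 1) ^ r
and U ^ j ≤ N j ⊔ G * U ^ (j - s') (j ≥ s': a complement, multiplication by G is injective,
`finrank_pow_succ_le`; j < s': N j = U ^ j, `finrank_pow_le`).  Sum over j < M. -/
theorem local_field {k : Type} [Field k] {F Q : MvPolynomial σ k} {a : σ → k} {i0 : σ}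
    (hF : eval a F = 0) (hF' : eval a (pderiv i0 F) ≠ 0) {s : ℕ}
    (hQ : Q ∉ mx a ^ (s + 1) ⊔ Ideal.span {F}) (hQ0 : eval a Q = 0) {r : ℕ}
    (hr : Fintype.card σ = r + 3) (M : ℕ) :
    ∃ S : Finset (MvPolynomial σ k), S.card ≤ s * M ^ (r + 1) ∧ ∀ g : MvPolynomial σ k,
      ∃ φ ∈ Submodule.span k (S : Set (MvPolynomial σ k)),
        g - φ ∈ mx a ^ M ⊔ Ideal.span {F, Q} := by
  classical
  have hex : ∃ s', Q ∉ mx a ^ (s' + 1) ⊔ Ideal.span {F} := ⟨s, hQ⟩
  have h1 := Nat.find_spec hex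
  have h2 : Nat.find hex ≤ s := Nat.find_min' hex hQ
  have h3 : Q ∈ mx a ^ Nat.find hex ⊔ Ideal.span {F} := by
    rcases h : Nat.find hex with _ | t
    · simp
    · exact not_not.1 (Nat.find_min hex (by omega))
  generalize Nat.find hex = s' at h1 h2 h3
  have hFQ : Ideal.span {F} ≤ Ideal.span {F, Q} := Ideal.span_mono (by simp)
  obtain ⟨q, hq, f, hf, hqf⟩ := Submodule.mem_sup.1 h3
  obtain ⟨G, hG, hG1⟩ := elim hF hF' hq
  have hG2 : Q - G ∈ mx a ^ (s' + 1) ⊔ Ideal.span {F} := by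
    rw [← hqf, add_sub_right_comm]
    exact add_mem hG1 (Submodule.mem_sup_right hf)
  have hG0 : G ≠ 0 := fun h => h1 (by rwa [h, sub_zero] at hG2)
  have hG3 : G ∈ mx a ^ (s' + 1) ⊔ Ideal.span {F, Q} := by
    rw [← sub_sub_cancel Q G]
    exact sub_mem (Submodule.mem_sup_right (Ideal.subset_span (by simp)))
      (sup_le_sup_left hFQ _ hG2)
  have hI : (univ.erase i0).card = r + 2 := by
    rw [card_erase_of_mem (mem_univ _), card_univ, hr]
    rfl
  induction M with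
  | zero => exact ⟨∅, by simp, fun g => ⟨0, zero_mem _, by simp⟩⟩
  | succ M ih =>
    obtain ⟨S, s1, s2⟩ := ih
    obtain ⟨T, t1, t2⟩ := LocB_layer hI h2 hG0 hG hG3 M
    refine ⟨S ∪ T, (card_union_le _ _).trans ?_, fun g => ?_⟩
    · have e1 : M ^ (r + 1) + (M + 1) ^ r ≤ (M + 1) ^ (r + 1) := by
        have := Nat.mul_le_mul_right M (Nat.pow_le_pow_left (Nat.le_succ M) r)
        rw [pow_succ, pow_succ, mul_add, mul_one]
        exact Nat.add_le_add_right this _
      have e2 := Nat.mul_le_mul_left s e1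
      rw [mul_add] at e2
      omega
    · obtain ⟨φ, hφ, h4⟩ := s2 g
      obtain ⟨m, hm, b, hb, h5⟩ := Submodule.mem_sup.1 h4
      obtain ⟨u, hu, h6⟩ := elim hF hF' hm
      obtain ⟨ψ, hψ, h7⟩ := t2 u hu
      refine ⟨φ + ψ, add_mem (Submodule.span_mono (by simp) hφ)
        (Submodule.span_mono (by simp) hψ), ?_⟩
      have e : g - (φ + ψ) = (m - u) + (u - ψ) + b := by linear_combination -h5
      rw [e]
      exact add_mem (add_mem (sup_le_sup_left hFQ _ h6) h7) (Submodule.mem_sup_right hb)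

/- Reduce mod p (map_wd, eval_map_int, eval_wd_eq_zero, dvd_wd give hQ of `local_field`), lift S to
integer polynomials; every integer g is in span S + mx x ^ M + (F, Q) + p ℤ[X]
(MvPolynomial.C_dvd_iff_zmod, surjectivity of map), iterate M times, evaluate on the class. -/
theorem locB {W : Finset (σ → ℤ)} {p : ℕ} (hp : p.Prime) {x : σ → ℤ} (hx : x ∈ W)
    {F Q : MvPolynomial σ ℤ} {i0 : σ} {v : σ → σ → MvPolynomial σ ℤ} {I : Finset σ}
    (hv : ∀ i ∈ I, der (v i) F = 0) (hF : ∀ y ∈ cls W p x, eval y F = 0)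
    (hQ : ∀ y ∈ cls W p x, eval y Q = 0) (hF' : ¬ (p : ℤ) ∣ eval x (pderiv i0 F)) {l : List σ}
    (hl : ∀ i ∈ l, i ∈ I) {s : ℕ} (hs : l.length ≤ s) (hlQ : ¬ (p : ℤ) ∣ eval x (wd v l Q))
    {r : ℕ} (hr : Fintype.card σ = r + 3) (M : ℕ) : Loc W p M (s * M ^ (r + 1)) x := by
  classical
  have := Fact.mk hp
  have hxc : x ∈ cls W p x := mem_filter.2 ⟨hx, fun j => by simp⟩
  set ρ := Int.castRingHom (ZMod p) with hρ
  have hsurj : Function.Surjective (map ρ : MvPolynomial σ ℤ → MvPolynomial σ (ZMod p)) :=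
    map_surjective ρ (ZMod.intCast_surjective)
  have hF0 : eval (fun j => ((x j : ℤ) : ZMod p)) (map ρ F) = 0 := by
    rw [eval_map_int, hF x hxc, Int.cast_zero]
  obtain ⟨S, s1, s2⟩ := local_field (a := fun j => ((x j : ℤ) : ZMod p)) (F := map ρ F)
    (Q := map ρ Q) (i0 := i0) (s := s) hF0
    (by rwa [pderiv_map, eval_map_int, Ne, ZMod.intCast_zmod_eq_zero_iff_dvd])
    (fun h => hlQ (by
      obtain ⟨q, hq, f, hf, hqf⟩ := Submodule.mem_sup.1 h
      obtain ⟨c, hc⟩ := dvd_wd (fun i j => map ρ (v i j)) (I := I) (f := map ρ F)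
        (fun i hi => by rw [← map_der, hv i hi, map_zero]; exact dvd_zero _) hl
        (Ideal.mem_span_singleton.1 hf)
      rw [← ZMod.intCast_zmod_eq_zero_iff_dvd, ← eval_map_int, map_wd, ← hqf, wd_add, map_add,
        eval_wd_eq_zero _ hq (by omega), hc, map_mul, hF0, zero_mul, add_zero]))
    (by rw [eval_map_int, hQ x hxc, Int.cast_zero]) hr M
  choose lift hlift using hsurj
  let E : MvPolynomial σ ℤ → cls W p x → ℚ := fun g y => ((eval y.1 g : ℤ) : ℚ)
  let N : Submodule ℚ (cls W p x → ℚ) :=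
    Submodule.span ℚ ((S.image fun g => E (lift g) : Finset _) : Set (cls W p x → ℚ))
  have hN : ∀ φ ∈ Submodule.span (ZMod p) (S : Set (MvPolynomial σ (ZMod p))),
      ∃ φ', map ρ φ' = φ ∧ E φ' ∈ N := by
    intro φ hφ
    induction hφ using Submodule.span_induction with
    | mem g hg => exact ⟨lift g, hlift g, Submodule.subset_span (mem_image_of_mem _ hg)⟩
    | zero => exact ⟨0, map_zero _, by
        rw [show E 0 = 0 from funext fun y => by simp [E]]; exact zero_mem _⟩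
    | add g h _ _ hg hh =>
      obtain ⟨g, rfl, hg⟩ := hg
      obtain ⟨h, rfl, hh⟩ := hh
      exact ⟨g + h, map_add _ _ _, by
        rw [show E (g + h) = E g + E h from funext fun y => by simp [E]]; exact add_mem hg hh⟩
    | smul c g _ hg =>
      obtain ⟨g, rfl, hg⟩ := hg
      obtain ⟨c, rfl⟩ := ZMod.intCast_surjective c
      exact ⟨C c * g, by rw [map_mul, map_C, smul_eq_C_mul]; rfl, by
        rw [show E (C c * g) = (c : ℚ) • E g from funext fun y => by simp [E]]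
        exact Submodule.smul_mem _ _ hg⟩
  have hmap : (mx x ^ M ⊔ Ideal.span {F, Q}).map (map ρ) =
      mx (fun j => ((x j : ℤ) : ZMod p)) ^ M ⊔ Ideal.span {map ρ F, map ρ Q} := by
    rw [Ideal.map_sup, Ideal.map_pow, Ideal.map_span, Set.image_pair, mx, mx, Ideal.map_span,
      ← Set.range_comp]
    congr 4
    funext j
    simp [hρ]
  have hdvd : ∀ y ∈ cls W p x, ∀ h ∈ mx x ^ M ⊔ Ideal.span {F, Q}, (p : ℤ) ^ M ∣ eval y h := by
    intro y hy h hh
    have h1 : mx x ≤ (Ideal.span {(p : ℤ)}).comap (eval y) := Ideal.span_le.2 (by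
      rintro _ ⟨j, rfl⟩
      simpa [Ideal.mem_span_singleton] using (mem_filter.1 hy).2 j)
    have h2 : mx x ^ M ⊔ Ideal.span {F, Q} ≤ (Ideal.span {(p : ℤ) ^ M}).comap (eval y) := by
      refine sup_le ?_ (Ideal.span_le.2 ?_)
      · rw [← Ideal.span_singleton_pow]
        exact (Ideal.pow_right_mono h1 M).trans (Ideal.le_comap_pow _ M)
      · rintro _ (rfl | rfl)
        · simp [hF y hy]
        · simp [hQ y hy]
    exact Ideal.mem_span_singleton.1 (h2 hh)
  have step : ∀ g : MvPolynomial σ ℤ, ∃ ψ ∈ N, ∃ g' : MvPolynomial σ ℤ, ∀ y : cls W p x,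
      ∃ b : ℤ, E g y = ψ y + (p : ℚ) ^ M * b + p * E g' y := by
    intro g
    obtain ⟨φ, hφ, h1⟩ := s2 (map ρ g)
    obtain ⟨φ, rfl, h2⟩ := hN φ hφ
    rw [← hmap, Ideal.mem_map_iff_of_surjective _ fun g => ⟨lift g, hlift g⟩] at h1
    obtain ⟨h, hh, h3⟩ := h1
    obtain ⟨g', h4⟩ := (C_dvd_iff_zmod p (g - φ - h)).2 (by rw [map_sub, map_sub, h3, sub_self])
    refine ⟨E φ, h2, g', fun y => ?_⟩
    obtain ⟨b, hb⟩ := hdvd y.1 y.2 h hh
    have h5 := congrArg (eval y.1) h4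
    rw [map_sub, map_sub, map_mul, eval_C, hb] at h5
    refine ⟨b, ?_⟩
    have h6 : eval y.1 g = eval y.1 φ + (p : ℤ) ^ M * b + p * eval y.1 g' := by linarith
    simp only [E, h6]
    push_cast
    rfl
  have iter : ∀ (t : ℕ) (g : MvPolynomial σ ℤ), ∃ ψ ∈ N, ∃ g' : MvPolynomial σ ℤ,
      ∀ y : cls W p x, ∃ b : ℤ, E g y = ψ y + (p : ℚ) ^ M * b + (p : ℚ) ^ t * E g' y := by
    intro t g
    induction t with
    | zero => exact ⟨0, zero_mem _, g, fun y => ⟨0, by simp⟩⟩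
    | succ t ih =>
      obtain ⟨ψ, hψ, g', h1⟩ := ih
      obtain ⟨ψ', hψ', g'', h2⟩ := step g'
      refine ⟨ψ + (p : ℚ) ^ t • ψ', add_mem hψ (Submodule.smul_mem _ _ hψ'), g'', fun y => ?_⟩
      obtain ⟨b, hb⟩ := h1 y
      obtain ⟨b', hb'⟩ := h2 y
      refine ⟨b + p ^ t * b', ?_⟩
      rw [hb, hb', Pi.add_apply, Pi.smul_apply, smul_eq_mul]
      push_cast
      ring
  refine ⟨N, (finrank_span_finset_le_card _).trans (card_image_le.trans s1), fun g => ?_⟩
  obtain ⟨ψ, hψ, g', h⟩ := iter M g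
  refine ⟨ψ, hψ, fun y => ?_⟩
  obtain ⟨b, hb⟩ := h y
  refine ⟨b + eval y.1 g', hb.trans ?_⟩
  simp only [E]
  push_cast
  ring

end Pool.Agent.P.MP_d565f2_an.LS
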