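import Pool.Agent.P.MP_d565f2_an.LS.Defs
import Pool.Agent.P.MP_d565f2_an.D3D

set_option autoImplicit false

open MvPolynomial Finset Module

namespace Pool.Agent.P.MP_d565f2_an.LS

variable {σ : Type} [Fintype σ] [DecidableEq σ]

/-- The combinatorial statement in `ρ` variables. -/
def MainSt (ρ : ℕ) : Prop :=
  ∃ C A : ℕ, ∀ (n lam L g : ℕ) (W : Finset (Fin ρ → ℤ)), W.Nonempty → OnSph n W → n ≤ lam ^ 2 →
    1 ≤ lam → 1 ≤ L → lam ≤ 2 ^ L → W.card ≤ 2 ^ L → W.card ≤ g ^ ρ → lam ^ (ρ - 1) ≤ g ^ ρ →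
    ¬ Rel W (C * L ^ A * g)

theorem Proj_rel {ρ k e : ℕ} (c : Fin (ρ + 1)) {Z : Finset (Fin (ρ + 1) → ℤ)}
    (w : (Fin (ρ + 1) → ℤ) → ℂ) (he : e ≤ 1)
    (hw : ∀ f : MvPolynomial (Fin (ρ + 1)) ℤ, f.totalDegree ≤ k + 1 →
      ∑ x ∈ Z, w x * ((eval x f : ℤ) : ℂ) = 0) :
    Rel ((Z.image fun y j => y (c.succAbove j)).filter fun t =>
      ∑ y ∈ Z with (fun j => y (c.succAbove j)) = t, w y * (y c : ℂ) ^ e ≠ 0) k := by
  refine ⟨fun t => ∑ y ∈ Z with (fun j => y (c.succAbove j)) = t, w y * (y c : ℂ) ^ e,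
    fun t ht => (mem_filter.1 ht).2, fun f hf => ?_⟩
  rw [sum_filter_of_ne fun t _ h => left_ne_zero_of_mul h]
  have h1 := hw (X c ^ e * rename c.succAbove f) (by
    refine (totalDegree_mul _ _).trans ?_
    have := totalDegree_rename_le c.succAbove f
    rw [totalDegree_X_pow]
    omega)
  rw [← h1, ← sum_fiberwise_of_maps_to (s := Z) (t := Z.image fun y j => y (c.succAbove j))
    (g := fun y j => y (c.succAbove j)) fun y hy => mem_image_of_mem _ hy]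
  refine sum_congr rfl fun t _ => ?_
  rw [sum_mul]
  refine sum_congr rfl fun y hy => ?_
  rw [← (mem_filter.1 hy).2, map_mul, map_pow, eval_X, eval_rename, mul_assoc]
  push_cast
  rfl

theorem Proj_dot {ρ : ℕ} (c : Fin (ρ + 1)) (y : Fin (ρ + 1) → ℤ) :
    (fun j => y (c.succAbove j)) ⬝ᵥ (fun j => y (c.succAbove j)) + y c ^ 2 = y ⬝ᵥ y := by
  simp only [dotProduct]
  rw [Fin.sum_univ_succAbove _ c, sq, add_comm]

theorem project {ρ n k : ℕ} (hn : 1 ≤ n) {Z : Finset (Fin (ρ + 1) → ℤ)}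
    (hZ : Z ⊆ sph (Fin (ρ + 1)) n) (hne : Z.Nonempty) (h : Rel Z (k + 2)) :
    ∃ W : Finset (Fin ρ → ℤ), W.Nonempty ∧ OnSph n W ∧ W.card ≤ Z.card ∧ Rel W k := by
  obtain ⟨x, hx⟩ := hne
  obtain ⟨c, hc⟩ : ∃ c, x c ≠ 0 := by
    refine Function.ne_iff.1 fun h => ?_
    have := mem_sph.1 (hZ hx)
    simp [h] at this
    omega
  have h1 := Rel.filter (k := k + 1) (a := 1) h (X c) (by rw [totalDegree_X])
  simp only [eval_X] at h1
  set Y := Z.filter fun y => y c ≠ 0 with hY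
  have hxY : x ∈ Y := mem_filter.2 ⟨hx, hc⟩
  have hn' : ∀ y ∈ Y, y ⬝ᵥ y = n := fun y hy => mem_sph.1 (hZ (mem_filter.1 hy).1)
  obtain ⟨w, hw0, hw⟩ := h1
  obtain ⟨e, he, hne⟩ : ∃ e ≤ 1, ∑ y ∈ Y with (fun j => y (c.succAbove j)) =
      fun j => x (c.succAbove j), w y * (y c : ℂ) ^ e ≠ 0 := by
    by_contra hcon
    push Not at hcon
    have h0 := hcon 0 zero_le_one
    have h1 := hcon 1 le_rfl
    have h2 : ∑ y ∈ Y with (fun j => y (c.succAbove j)) = fun j => x (c.succAbove j),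
        w y * ((y c : ℂ) + x c) = 0 := by
      simp only [pow_zero, mul_one, pow_one] at h0 h1
      simp only [mul_add, sum_add_distrib, ← sum_mul, h0, h1, zero_mul, add_zero]
    rw [sum_eq_single_of_mem x (by simpa using hxY) fun y hy hyx => ?_] at h2
    · rcases mul_eq_zero.1 h2 with h3 | h3
      · exact hw0 x hxY h3
      · have h4 : x c + x c = 0 := by exact_mod_cast h3
        omega
    · obtain ⟨hy1, hy2⟩ := mem_filter.1 hy
      have h3 := Proj_dot c y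
      have h4 := Proj_dot c x
      rw [hy2, hn' y hy1] at h3
      rw [hn' x hxY] at h4
      rcases sq_eq_sq_iff_eq_or_eq_neg.1 (show y c ^ 2 = x c ^ 2 by linarith) with h5 | h5
      · refine absurd (funext fun i => ?_) hyx
        rcases Fin.eq_self_or_eq_succAbove c i with rfl | ⟨j, rfl⟩
        · exact h5
        · exact congrFun hy2 j
      · rw [h5]
        simp
  refine ⟨_, ⟨_, mem_filter.2 ⟨mem_image_of_mem _ hxY, hne⟩⟩, fun t ht => ?_,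
    (card_filter_le _ _).trans (card_image_le.trans (card_filter_le _ _)), Proj_rel c w he hw⟩
  obtain ⟨y, hy, rfl⟩ := mem_image.1 (mem_filter.1 ht).1
  exact ⟨y c, (mem_filter.1 hy).2, (Proj_dot c y).trans (hn' y hy)⟩

theorem Proj_log {n : ℕ} (hn : 1 ≤ n) :
    ((Nat.log 2 n + 1 : ℕ) : ℝ) ≤ 3 * Real.log (n + 1) := by
  have hn' : (1 : ℝ) ≤ n := by exact_mod_cast hn
  have h10 : ((2 : ℝ) ^ Nat.log 2 n) ≤ n + 1 := by
    have : ((2 : ℝ) ^ Nat.log 2 n) ≤ n := by exact_mod_cast Nat.pow_log_le_self 2 (by omega)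
    linarith
  have h11 := Real.log_le_log (by positivity) h10
  have h12 := Real.log_le_log two_pos (show (2 : ℝ) ≤ n + 1 by linarith)
  rw [Real.log_pow] at h11
  have h13 := Real.log_two_gt_d9
  have h14 : (0 : ℝ) ≤ Nat.log 2 n := by positivity
  push_cast
  nlinarith

theorem bound_of_main {ρ : ℕ} (hρ : 3 ≤ ρ) (h : MainSt ρ) :
    ∃ C : ℝ, 0 < C ∧ ∃ A : ℕ, ∀ n : ℕ, 1 ≤ n → ∃ K : ℕ,
      (∀ Z ⊆ sph (Fin (ρ + 1)) n, Z.Nonempty → ¬ Rel Z K) ∧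
      (K : ℝ) ≤ C * (((sph (Fin (ρ + 1)) n).card : ℝ) + (n : ℝ) ^ (((ρ : ℝ) - 1) / 2)) ^
        ((1 : ℝ) / (ρ : ℝ)) * Real.log ((n : ℝ) + 1) ^ A := by
  obtain ⟨C, A, h⟩ := h
  refine ⟨(4 * C * (2 * (ρ + 1)) ^ A + 2) * 3 ^ A, by positivity, A, fun n hn => ?_⟩
  have h9 := Proj_log hn
  set N := (sph (Fin (ρ + 1)) n).card with hN
  set j := Nat.log 2 n + 1 with hj
  have h1 : n < 2 ^ j := Nat.lt_pow_succ_log_self one_lt_two n
  have h2 : n.sqrt ≤ n := Nat.sqrt_le_self n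
  have hbox : sph (Fin (ρ + 1)) n ⊆ box (Fin (ρ + 1)) n.sqrt := fun y hy => mem_box.2 fun i => by
    have h3 := (sq_le_dot y i).trans (mem_sph.1 hy).le
    have h4 : (n : ℤ) < ((n.sqrt : ℤ) + 1) ^ 2 := by exact_mod_cast Nat.lt_succ_sqrt' n
    exact Int.lt_add_one_iff.1 (abs_lt_of_sq_lt_sq (h3.trans_lt h4) (by positivity))
  have h3 : N ≤ (2 * n.sqrt + 1) ^ (ρ + 1) := by simpa [card_box] using card_le_card hbox
  have h4 : N ≤ 2 ^ (2 * (ρ + 1) * j) :=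
    calc N ≤ (2 ^ (j + 1)) ^ (ρ + 1) := h3.trans (Nat.pow_le_pow_left (by omega) _)
      _ = 2 ^ ((j + 1) * (ρ + 1)) := by rw [← pow_mul]
      _ ≤ _ := Nat.pow_le_pow_right two_pos (by nlinarith)
  have hn' : (1 : ℝ) ≤ n := by exact_mod_cast hn
  have hρ' : (3 : ℝ) ≤ ρ := by exact_mod_cast hρ
  set S : ℝ := (n : ℝ) ^ (((ρ : ℝ) - 1) / 2) with hS
  have hS1 : 1 ≤ S := Real.one_le_rpow hn' (by linarith)
  have hN0 : (0 : ℝ) ≤ N := by positivity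
  set R : ℝ := ((N : ℝ) + S) ^ ((1 : ℝ) / (ρ : ℝ)) with hR
  have hR1 : 1 ≤ R := Real.one_le_rpow (by linarith) (by positivity)
  have hRρ : R ^ ρ = N + S := by
    rw [hR, one_div]
    exact Real.rpow_inv_natCast_pow (by linarith) (by omega)
  have hg : 2 ^ ρ * ((N : ℝ) + S) ≤ ((2 * ⌈R⌉₊ : ℕ) : ℝ) ^ ρ := by
    rw [← hRρ, ← mul_pow]
    refine pow_le_pow_left₀ (by linarith) ?_ _
    push_cast
    linarith [Nat.le_ceil R]
  have h2ρ : (1 : ℝ) ≤ 2 ^ ρ := one_le_pow₀ one_le_two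
  have hg1 : N ≤ (2 * ⌈R⌉₊) ^ ρ := by
    have : (N : ℝ) ≤ ((2 * ⌈R⌉₊ : ℕ) : ℝ) ^ ρ := le_trans (by nlinarith) hg
    exact_mod_cast this
  have hg2 : (n.sqrt + 1) ^ (ρ - 1) ≤ (2 * ⌈R⌉₊) ^ ρ := by
    have e : S = √n ^ (ρ - 1) := by
      rw [hS, Real.sqrt_eq_rpow, ← Real.rpow_natCast, ← Real.rpow_mul (by linarith),
        Nat.cast_sub (by omega)]
      congr 1
      push_cast
      ring
    have a1 : ((n.sqrt + 1 : ℕ) : ℝ) ≤ 2 * √n := by
      push_cast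
      linarith [Real.nat_sqrt_le_real_sqrt (a := n), Real.one_le_sqrt.2 hn']
    have a2 : ((n.sqrt + 1 : ℕ) : ℝ) ^ (ρ - 1) ≤ 2 ^ ρ * S := by
      refine (pow_le_pow_left₀ (by positivity) a1 _).trans ?_
      rw [mul_pow, e]
      exact mul_le_mul_of_nonneg_right (pow_le_pow_right₀ one_le_two (Nat.sub_le _ _))
        (by positivity)
    have : ((n.sqrt + 1 : ℕ) : ℝ) ^ (ρ - 1) ≤ ((2 * ⌈R⌉₊ : ℕ) : ℝ) ^ ρ :=
      a2.trans (le_trans (by nlinarith) hg)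
    exact_mod_cast this
  have hL : j ≤ 2 * (ρ + 1) * j := Nat.le_mul_of_pos_left _ (by omega)
  refine ⟨C * (2 * (ρ + 1) * j) ^ A * (2 * ⌈R⌉₊) + 2, fun Z hZ hne hrel => ?_, ?_⟩
  · obtain ⟨W, w1, w2, w3, w4⟩ := project hn hZ hne hrel
    have w5 : W.card ≤ N := w3.trans (card_le_card hZ)
    exact h n (n.sqrt + 1) _ _ W w1 w2 (Nat.lt_succ_sqrt' n).le (by omega) (by omega)
      ((show n.sqrt + 1 ≤ 2 ^ j by omega).trans (Nat.pow_le_pow_right two_pos hL))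
      (w5.trans h4) (w5.trans hg1) hg2 w4
  · have h10 : (1 : ℝ) ≤ j := by exact_mod_cast (by omega : 1 ≤ j)
    have h11 : (j : ℝ) ^ A ≤ 3 ^ A * Real.log (n + 1) ^ A := by
      rw [← mul_pow]
      exact pow_le_pow_left₀ (by linarith) h9 _
    have h12 : (1 : ℝ) ≤ (j : ℝ) ^ A := one_le_pow₀ h10
    have h13 : (⌈R⌉₊ : ℝ) ≤ 2 * R := by linarith [Nat.ceil_lt_add_one (show 0 ≤ R by linarith)]
    have h14 : (1 : ℝ) ≤ R * (j : ℝ) ^ A := one_le_mul_of_one_le_of_one_le hR1 h12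
    push_cast
    rw [mul_pow]
    calc _ ≤ (C : ℝ) * ((2 * (ρ + 1)) ^ A * (j : ℝ) ^ A) * (2 * (2 * R)) +
          2 * (R * (j : ℝ) ^ A) := by
          gcongr
          linarith
      _ = (4 * C * (2 * (ρ + 1)) ^ A + 2) * R * (j : ℝ) ^ A := by ring
      _ ≤ (4 * C * (2 * (ρ + 1)) ^ A + 2) * R * (3 ^ A * Real.log (n + 1) ^ A) := by gcongr
      _ = _ := by ring

end Pool.Agent.P.MP_d565f2_an.LS
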