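import Pool.Agent.P.MP_d565f2_an.LS.LocA
import Pool.Agent.P.MP_d565f2_an.LS.LocB
import Pool.Agent.P.MP_d565f2_an.LS.Factor

set_option autoImplicit false

open MvPolynomial Finset Module

namespace Pool.Agent.P.MP_d565f2_an.LS

variable {σ : Type} [Fintype σ] [DecidableEq σ]

theorem loc_special {L e n lam p : ℕ} {W : Finset (σ → ℤ)} {i0 : σ}
    {v : σ → σ → MvPolynomial σ ℤ} {J F : MvPolynomial σ ℤ} {x : σ → ℤ}
    (hS : Stage L W (univ.erase i0) v J e)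
    (hvF : ∀ i g, der (v i) g = pderiv i0 F * pderiv i g - pderiv i F * pderiv i0 g)
    (hFW : ∀ y ∈ W, eval y F = 0) (hn : OnSph n W) (hlam : n ≤ lam ^ 2) (hp : p.Prime)
    (hp2 : 2 < p) (hx : x ∈ W) {f : MvPolynomial σ ℚ} (hfW : ∀ y ∈ W, eval (cst y) f = 0)
    {N : ℕ} (m : Fin N → MvPolynomial σ ℤ)
    (hm : ∀ (u : σ → ℤ) (w τ n : ℤ), ∃ c : Fin N → ℚ,
      f ∣ toQ (quad u w τ n) - ∑ j, C (c j) * toQ (m j))
    (hq : ∀ (u : σ → ℤ) (w τ : ℤ), (u ≠ 0 ∨ w ≠ 0) → ¬ f ∣ toQ (quad u w τ n))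
    (α : Fin N → List σ) (hα : ∀ i, (∀ a ∈ α i, a ∈ univ.erase i0) ∧ (α i).length ≤ N)
    (hb : ¬ (p : ℤ) ∣ eval x (J * pderiv i0 F * (Matrix.of fun i j => wd v (α i) (m j)).det) *
      (n - x ⬝ᵥ x))
    (hsize : (Fintype.card σ + 1).factorial * (2 * lam / p) ^ (Fintype.card σ + 1) < p ^ 2)
    {r : ℕ} (hr : Fintype.card σ = r + 3) (M : ℕ) : Loc W p M (N * M ^ (r + 1)) x := by
  have hb1 : ¬ (p : ℤ) ∣ eval x J * (n - x ⬝ᵥ x) := fun h => hb (by
    rw [map_mul, map_mul, mul_assoc (eval x J), mul_right_comm]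
    exact h.mul_right _)
  have hb2 : ¬ (p : ℤ) ∣ eval x (pderiv i0 F) := fun h => hb (by
    rw [map_mul, map_mul]
    exact ((h.mul_left _).mul_right _).mul_right _)
  have hb3 : ¬ (p : ℤ) ∣ (Matrix.of fun i j => eval x (wd v (α i) (m j))).det := fun h => hb (by
    rw [map_mul, RingHom.map_det]
    exact (Dvd.dvd.mul_left h _).mul_right _)
  obtain ⟨u, w, τ, h0, h1⟩ := class_quadric hS hn hlam hp hp2 hx hb1
    (by rw [card_erase_add_one (mem_univ _), card_univ]) hsize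
  obtain ⟨c, q, hc⟩ := hm u w τ n
  have hc0 : c ≠ 0 := by
    rintro rfl
    exact hq u w τ h0 ⟨q, by simpa using hc⟩
  obtain ⟨t, c', h2, h3⟩ := exists_primitive c hc0 hp
  obtain ⟨i, hi⟩ := exists_row_not_dvd _ c' hp hb3 h3
  refine locB hp hx (F := F) (Q := ∑ j, C (c' j) * m j) (i0 := i0) (v := v) (I := univ.erase i0)
    (fun i _ => by rw [hvF]; ring) (fun y hy => hFW y (mem_filter.1 hy).1) (fun y hy => ?_) hb2
    (hα i).1 (hα i).2 ?_ hr M
  · have h4 := congrArg (eval (cst y)) hc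
    rw [map_sub, map_mul, hfW y (mem_filter.1 hy).1, zero_mul, eval_toQ, eval_quad, h1 y hy,
      sub_self, Int.cast_zero, zero_sub, neg_eq_zero, map_sum] at h4
    simp only [map_mul, eval_C, eval_toQ] at h4
    rw [← Int.cast_eq_zero (α := ℚ), map_sum]
    simp only [map_mul, eval_C, Int.cast_sum, Int.cast_mul, h2, mul_assoc, ← mul_sum, h4, mul_zero]
  · simpa only [wd_sum, wd_C_mul, map_sum, map_mul, eval_C, Matrix.of_apply] using hi

end Pool.Agent.P.MP_d565f2_an.LS
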