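import Pool.Agent.P.MP_d565f2_an.LS.Jet
import Pool.Agent.P.MP_d565f2_an.LS.Lin

set_option autoImplicit false

open MvPolynomial Finset Module

namespace Pool.Agent.P.MP_d565f2_an.LS

variable {σ : Type} [Fintype σ] [DecidableEq σ]

omit [Fintype σ] [DecidableEq σ] in
theorem Wron_eval {a : σ → ℚ} {f g : MvPolynomial σ ℚ} (h0 : eval a f = 0) (h : f ∣ g) :
    eval a g = 0 := zero_dvd_iff.1 (h0 ▸ map_dvd (eval a) h)

/- By induction on j, g ∈ mx a ^ j ⊔ (F) (`elim`, `detect`, `dvd_wd` for F); then Krull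
(Ideal.iInf_pow_eq_bot_of_isDomain) in the domain MvPolynomial / (f). -/
theorem dvd_of_jets {F J f : MvPolynomial σ ℚ} {i0 : σ} {u : σ → σ → MvPolynomial σ ℚ}
    (hd : ∀ i ∈ univ.erase i0, ∀ j ∈ univ.erase i0, u i j = if i = j then J else 0)
    (hu : ∀ i ∈ univ.erase i0, der (u i) F = 0) {a : σ → ℚ} (hJ : eval a J ≠ 0)
    (hF' : eval a (pderiv i0 F) ≠ 0) (hf : Prime f) (hfF : f ∣ F) (hf0 : eval a f = 0)
    {g : MvPolynomial σ ℚ}
    (hg : ∀ l : List σ, (∀ i ∈ l, i ∈ univ.erase i0) → eval a (wd u l g) = 0) : f ∣ g := by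
  have hF0 : eval a F = 0 := Wron_eval hf0 hfF
  have key : ∀ j : ℕ, g ∈ mx a ^ j ⊔ Ideal.span {F} := fun j => by
    induction j with
    | zero => simp
    | succ j ih =>
      obtain ⟨g₁, h₁, p, hp, e₁⟩ := Submodule.mem_sup.1 ih
      obtain ⟨G, hG, h₂⟩ := elim hF0 hF' h₁
      obtain ⟨h, hh, q, hq, e₂⟩ := Submodule.mem_sup.1 h₂
      have e : g = G + h + (p + q) := by linear_combination -e₁ - e₂
      have hpq := add_mem hp hq
      have := detect hd hJ hG hh fun l hl _ => by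
        have h3 := hg l hl
        rwa [e, wd_add, map_add, Wron_eval hF0 (dvd_wd u (fun i hi => hu i hi ▸ dvd_zero F) hl
          (Ideal.mem_span_singleton.1 hpq)), add_zero] at h3
      rw [e, this, zero_add]
      exact Submodule.add_mem_sup hh hpq
  have := (Ideal.span_singleton_prime hf.ne_zero).2 hf
  have hI : (mx a).map (Ideal.Quotient.mk (Ideal.span {f})) ≠ ⊤ := fun e => by
    have h1 : (1 : MvPolynomial σ ℚ) ∈ mx a ⊔ Ideal.span {f} := by
      rw [← Ideal.mem_quotient_iff_mem_sup, e]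
      trivial
    obtain ⟨p, hp, q, hq, e₁⟩ := Submodule.mem_sup.1 h1
    have h2 := congrArg (eval a) e₁
    rw [map_add, mem_mx.1 hp, Wron_eval hf0 (Ideal.mem_span_singleton.1 hq)] at h2
    simp at h2
  rw [← Ideal.mem_span_singleton, ← Ideal.Quotient.eq_zero_iff_mem, ← Ideal.mem_bot,
    ← Ideal.iInf_pow_eq_bot_of_isDomain _ hI, Ideal.mem_iInf]
  intro j
  rw [← Ideal.map_pow, Ideal.mem_quotient_iff_mem_sup]
  exact sup_le_sup_left (Ideal.span_singleton_le_span_singleton.2 hfF) _ (key j)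

/-- An increasing chain of subspaces of `κ → K` stops for a moment. -/
theorem Wron_stop {K κ : Type} [Field K] [Fintype κ] (E : ℕ → Submodule K (κ → K))
    (hE : ∀ k, E k ≤ E (k + 1)) : ∃ k ≤ Fintype.card κ, E k = E (k + 1) := by
  by_contra h
  push Not at h
  have h1 : ∀ k ≤ Fintype.card κ + 1, k ≤ finrank K (E k) := fun k hk => by
    induction k with
    | zero => exact Nat.zero_le _
    | succ k ih =>
      exact (ih (by omega)).trans_lt
        (Submodule.finrank_lt_finrank_of_lt ((hE k).lt_of_ne (h k (by omega))))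
  have h2 := (h1 _ le_rfl).trans (Submodule.finrank_le _)
  simp at h2

/-- A proper subspace is killed by an integral vector. -/
theorem Wron_ann {A κ : Type} [CommRing A] [IsDomain A] [Fintype κ] [DecidableEq κ]
    {E : Submodule (FractionRing A) (κ → FractionRing A)} (hE : E ≠ ⊤) :
    ∃ U : κ → A, (∃ j, U j ≠ 0) ∧ ∀ r ∈ E, ∑ j, algebraMap A _ (U j) * r j = 0 := by
  obtain ⟨ψ, h0, hψ⟩ := E.exists_le_ker_of_lt_top hE.lt_top
  obtain ⟨d, hd⟩ := IsLocalization.exist_integer_multiples_of_finite (nonZeroDivisors A)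
    fun j : κ => ψ fun i => if j = i then 1 else 0
  choose U hU using hd
  have e : ∀ r, ∑ j, algebraMap A _ (U j) * r j = algebraMap A _ d * ψ r := fun r => by
    rw [LinearMap.pi_apply_eq_sum_univ ψ r, Finset.mul_sum]
    exact Finset.sum_congr rfl fun j _ => by rw [hU, Algebra.smul_def, smul_eq_mul]; ring
  refine ⟨U, ?_, fun r hr => by rw [e, LinearMap.mem_ker.1 (hψ hr), mul_zero]⟩
  by_contra h
  push Not at h
  refine h0 (LinearMap.ext fun r => ?_)
  have := e r
  simp only [h, map_zero, zero_mul, Finset.sum_const_zero] at this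
  exact (mul_eq_zero.1 this.symm).resolve_left
    (IsFractionRing.to_map_ne_zero_of_mem_nonZeroDivisors d.2)

/- F = f G with G(a) ≠ 0, so f ∣ der (u i) f.  K = fraction field of MvPolynomial / (f),
E k = K-span of the rows (wd u l (m j))_j over words of length ≤ k; E k = E (k + 1) for some
k ≤ |κ|.  Ann k = vectors U of polynomials with f ∣ ∑ U j * wd u l (m j) for all words of length
≤ k; Ann k = Ann (k + 1) makes it stable under the derivations and equal to all later Ann.  If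
E k ≠ ⊤ there is U in Ann k with some f ∤ U j; `dvd_of_jets` gives a word l with
c = (wd u l U)(a) ≠ 0, and then all jets of ∑ c j m j vanish at a, so f divides it, against hm.
So E k = ⊤; `exists_minor` (row rank) or a basis among the rows. -/
theorem wronskian {F J : MvPolynomial σ ℤ} {i0 : σ} {v : σ → σ → MvPolynomial σ ℤ}
    (hd : ∀ i ∈ univ.erase i0, ∀ j ∈ univ.erase i0, v i j = if i = j then J else 0)
    (hv : ∀ i ∈ univ.erase i0, der (v i) F = 0) {x : σ → ℤ} (hJ : eval x J ≠ 0)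
    (hF' : eval x (pderiv i0 F) ≠ 0) {f : MvPolynomial σ ℚ} (hf : Prime f) (hfF : f ∣ toQ F)
    (hf0 : eval (cst x) f = 0) {κ : Type} [Fintype κ] [DecidableEq κ] (m : κ → MvPolynomial σ ℤ)
    (hm : ∀ c : κ → ℚ, f ∣ ∑ j, C (c j) * toQ (m j) → c = 0) :
    ∃ α : κ → List σ, (∀ i, (∀ a ∈ α i, a ∈ univ.erase i0) ∧ (α i).length ≤ Fintype.card κ) ∧
      ¬ f ∣ toQ (Matrix.of fun i j => wd v (α i) (m j)).det := by
  let u : σ → σ → MvPolynomial σ ℚ := fun i j => toQ (v i j)
  have hw : ∀ l g, toQ (wd v l g) = wd u l (toQ g) := fun l g => map_wd v _ l g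
  have hu : ∀ i ∈ univ.erase i0, der (u i) (toQ F) = 0 := fun i hi =>
    (hw [i] F).symm.trans ((congrArg toQ (hv i hi)).trans (map_zero _))
  have hF1 : eval (cst x) (pderiv i0 (toQ F)) ≠ 0 := by
    rw [toQ, pderiv_map]
    exact (eval_toQ x _).trans_ne (Int.cast_ne_zero.2 hF')
  have jets := fun g => dvd_of_jets (J := toQ J) (u := u) (g := g) (fun i hi j hj => by
    simp only [u, hd i hi j hj]; split_ifs <;> simp) hu
    ((eval_toQ x J).trans_ne (Int.cast_ne_zero.2 hJ)) hF1 hf hfF hf0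
  have hff : ∀ i ∈ univ.erase i0, f ∣ der (u i) f := fun i hi => by
    obtain ⟨G, hG⟩ := hfF
    have h1 := hu i hi
    rw [hG, der_mul, add_eq_zero_iff_eq_neg] at h1
    refine (hf.dvd_or_dvd (dvd_neg.1 (h1 ▸ dvd_mul_right _ _))).resolve_left fun h => hF1 ?_
    rw [hG, Derivation.leibniz]
    simp [hf0, Wron_eval hf0 h]
  have := (Ideal.span_singleton_prime hf.ne_zero).2 hf
  let A := MvPolynomial σ ℚ ⧸ Ideal.span {f}
  let φ : MvPolynomial σ ℚ →+* FractionRing A := (algebraMap A _).comp (Ideal.Quotient.mk _)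
  have hφ : ∀ g, φ g = 0 ↔ f ∣ g := fun g => by
    rw [RingHom.comp_apply, FaithfulSMul.algebraMap_eq_zero_iff, Ideal.Quotient.eq_zero_iff_mem,
      Ideal.mem_span_singleton]
  let r : List σ → κ → FractionRing A := fun l j => φ (wd u l (toQ (m j)))
  let W : ℕ → Set (List σ) := fun k => {l | (∀ a ∈ l, a ∈ univ.erase i0) ∧ l.length ≤ k}
  obtain ⟨k, hk, hE⟩ := Wron_stop (fun k => Submodule.span (FractionRing A) (r '' W k)) fun k =>
    Submodule.span_mono (Set.image_mono fun l hl => ⟨hl.1, hl.2.trans k.le_succ⟩)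
  let Ann : (κ → MvPolynomial σ ℚ) → Prop := fun U =>
    ∀ l ∈ W k, f ∣ ∑ j, U j * wd u l (toQ (m j))
  have a0 : ∀ (U : κ → MvPolynomial σ ℚ) l,
      f ∣ ∑ j, U j * wd u l (toQ (m j)) ↔ ∑ j, φ (U j) * r l j = 0 := fun U l => by
    simp only [← hφ, map_sum, map_mul, r]
  have a1 : ∀ U, Ann U → ∀ l ∈ W (k + 1), f ∣ ∑ j, U j * wd u l (toQ (m j)) := fun U hU l hl => by
    have h1 : r l ∈ Submodule.span (FractionRing A) (r '' W k) :=
      hE.ge (Submodule.subset_span ⟨l, hl, rfl⟩)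
    rw [a0]
    generalize r l = y at h1
    induction h1 using Submodule.span_induction with
    | mem _ h => obtain ⟨l, h, rfl⟩ := h; exact (a0 U l).1 (hU l h)
    | zero => simp
    | add y z _ _ hy hz => simp [mul_add, Finset.sum_add_distrib, hy, hz]
    | smul c y _ hy => simp [mul_left_comm _ c, ← Finset.mul_sum, hy]
  have a2 : ∀ (U : κ → MvPolynomial σ ℚ) l, ∀ i ∈ univ.erase i0,
      f ∣ ∑ j, U j * wd u l (toQ (m j)) → f ∣ ∑ j, U j * wd u (i :: l) (toQ (m j)) +
        ∑ j, der (u i) (U j) * wd u l (toQ (m j)) := fun U l i hi h => by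
    have h1 : f ∣ der (u i) (∑ j, U j * wd u l (toQ (m j))) :=
      dvd_wd u hff (l := [i]) (by simpa using hi) h
    simpa only [der_sum, der_mul, Finset.sum_add_distrib, mul_comm _ (der (u i) (U _)),
      wd_cons] using h1
  have a3 : ∀ U, Ann U → ∀ i ∈ univ.erase i0, Ann fun j => der (u i) (U j) :=
    fun U hU i hi l hl => (dvd_add_right (a1 U hU (i :: l)
      ⟨List.forall_mem_cons.2 ⟨hi, hl.1⟩, Nat.succ_le_succ hl.2⟩)).1 (a2 U l i hi (hU l hl))
  have a4 : ∀ l : List σ, (∀ a ∈ l, a ∈ univ.erase i0) → ∀ U, Ann U →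
      Ann (fun j => wd u l (U j)) ∧ f ∣ ∑ j, U j * wd u l (toQ (m j)) := fun l hl => by
    induction l with
    | nil => exact fun U hU => ⟨hU, hU [] ⟨hl, Nat.zero_le _⟩⟩
    | cons i l ih =>
      obtain ⟨hi, h⟩ := List.forall_mem_cons.1 hl
      exact fun U hU => ⟨a3 _ (ih h U hU).1 i hi,
        (dvd_add_left (ih h _ (a3 U hU i hi)).2).1 (a2 U l i hi (ih h U hU).2)⟩
  have htop : Submodule.span (FractionRing A) (r '' W k) = ⊤ := by
    by_contra h
    obtain ⟨U₀, ⟨j₀, hj⟩, hU⟩ := Wron_ann h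
    choose U hU₀ using fun j => Ideal.Quotient.mk_surjective (U₀ j)
    have h1 : Ann U := fun l hl => (a0 U l).2 (by
      simpa only [φ, RingHom.comp_apply, hU₀] using hU _ (Submodule.subset_span ⟨l, hl, rfl⟩))
    refine hj (hU₀ j₀ ▸ Ideal.Quotient.eq_zero_iff_mem.2 (Ideal.mem_span_singleton.2
      (jets _ fun l hl => ?_)))
    refine congrFun (hm (fun j => eval (cst x) (wd u l (U j))) (jets _ fun l' hl' => ?_)) j₀
    simpa [wd_sum, wd_C_mul] using Wron_eval hf0 (a4 l' hl' _ (a4 l hl U h1).1).2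
  obtain ⟨b, hb, hsp, hli⟩ := exists_linearIndependent (FractionRing A) (r '' W k)
  let e : κ ≃ b := (Pi.basisFun (FractionRing A) κ).indexEquiv
    (Basis.mk hli (by rw [Subtype.range_coe, hsp, htop]))
  choose α hα hr using fun i => hb (e i).2
  refine ⟨α, fun i => ⟨(hα i).1, (hα i).2.trans hk⟩, fun h => ?_⟩
  rw [← hφ, ← RingHom.comp_apply, RingHom.map_det] at h
  refine ((Matrix.isUnit_iff_isUnit_det _).1 (Matrix.linearIndependent_rows_iff_isUnit.1 ?_)).ne_zero h
  have h2 := hli.comp e e.injective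
  rwa [show (Subtype.val ∘ e : κ → κ → FractionRing A) = Matrix.row ((φ.comp toQ).mapMatrix
    (Matrix.of fun i j => wd v (α i) (m j))) from funext fun i => funext fun j =>
      ((congrArg φ (hw _ _)).trans (congrFun (hr i) j)).symm] at h2

end Pool.Agent.P.MP_d565f2_an.LS
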