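import Pool.Agent.P.MP_d565f2_an.LS.Desc
import Pool.Agent.P.MP_d565f2_an.LS.Special
import Pool.Agent.P.MP_d565f2_an.LS.Wron
import Pool.Agent.P.MP_d565f2_an.LS.Coprime
import Pool.Agent.P.MP_d565f2_an.LS.Count
import Pool.Agent.P.MP_d565f2_an.LS.Proj

set_option autoImplicit false

open MvPolynomial Finset Module

namespace Pool.Agent.P.MP_d565f2_an.LS

variable {σ : Type} [Fintype σ] [DecidableEq σ]

theorem der_comb {R : Type} [CommRing R] (a b : MvPolynomial σ R) (u w : σ → MvPolynomial σ R)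
    (g : MvPolynomial σ R) : der (fun j => a * u j - b * w j) g = a * der u g - b * der w g := by
  simp only [der, Finset.mul_sum, ← Finset.sum_sub_distrib]
  exact Finset.sum_congr rfl fun j _ => by ring

/-- The stage with one equation. -/
theorem special {L e n lam : ℕ} {W : Finset (σ → ℤ)} {i0 : σ} {v : σ → σ → MvPolynomial σ ℤ}
    {J F : MvPolynomial σ ℤ} (hS : Stage L W (univ.erase i0) v J e)
    (hvF : ∀ i g, der (v i) g = pderiv i0 F * pderiv i g - pderiv i F * pderiv i0 g)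
    (hF : Sz L F e) (hF' : Sz L (pderiv i0 F) e) (hFW : ∀ y ∈ W, eval y F = 0)
    (hF0 : ∀ y ∈ W, eval y (pderiv i0 F) ≠ 0) (hW : W.Nonempty) (hL : 1 ≤ L) (hn : OnSph n W)
    (hlam : n ≤ lam ^ 2) (hlamL : lam ≤ 2 ^ L) (hWL : W.card ≤ 2 ^ L) {ρ ν g C₀ e₁ k : ℕ}
    (hρ : Fintype.card σ = ρ) (hρ3 : 3 ≤ ρ)
    (hν : 8 * (ρ + 1) ^ 2 * (21 * ρ ^ 2 * L ^ 2) ^ ρ ≤ ν) (hg : lam ^ (ρ - 1) ≤ g ^ ρ)
    (hC : ∀ W' ⊆ W, ∀ (u : σ → ℤ) (w τ : ℤ), (u ≠ 0 ∨ w ≠ 0) →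
      (∀ y ∈ W', (τ - u ⬝ᵥ y) ^ 2 = w ^ 2 * (n - y ⬝ᵥ y)) → W'.card ^ ρ ≤ C₀ * lam ^ ((ρ - 1) ^ 2))
    (he : 10 ^ 10 ≤ e) (heg : 2 * (ρ + 1).factorial * g ≤ e) (heC : 8 * ρ * (C₀ + 1) * g ≤ e)
    (he₁ : 6 * (ρ + 1) ^ 4 * e ≤ e₁) (heL : 224 * ρ ^ 2 * ν * L ^ 2 * e₁ ≤ 2 ^ L)
    (hrel : Rel W (k + e₁ + e)) :
    ∃ W' ⊆ W, W'.Nonempty ∧ Rel W' k ∧
      HasEq L W' (univ.erase i0) v (224 * ρ ^ 2 * ν * L ^ 2 * e₁) := by
  classical
  obtain ⟨r, hr⟩ : ∃ r, ρ = r + 3 := ⟨ρ - 3, by omega⟩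
  have hI : (univ.erase i0).card = r + 1 + 1 := by
    rw [card_erase_of_mem (mem_univ _), card_univ, hρ, hr]; rfl
  have hL2 : 1 ≤ L ^ 2 := Nat.one_le_pow _ _ hL
  have hq : 1 ≤ 21 * ρ ^ 2 * L ^ 2 := Nat.one_le_iff_ne_zero.2 (by
    have : ρ ≠ 0 := by omega
    positivity)
  have hν1 : 1 ≤ ν := le_trans (Nat.one_le_iff_ne_zero.2 (by positivity)) hν
  have hc1 : 1 ≤ (ρ + 1) ^ 4 := Nat.one_le_pow _ _ (by omega)
  have hee : 6 * e ≤ e₁ := le_trans (Nat.mul_le_mul_right _ (by omega)) he₁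
  obtain ⟨q, hq'⟩ : ∃ q, q = ρ ^ 2 * ν := ⟨_, rfl⟩
  have hρq : ρ * ν ≤ q := by rw [hq']; exact Nat.mul_le_mul_right _ (by nlinarith)
  have hρν : ρ ≤ ρ * ν := Nat.le_mul_of_pos_right _ hν1
  have hbig : 224 * (q * e₁) ≤ 224 * ρ ^ 2 * ν * L ^ 2 * e₁ :=
    calc 224 * (q * e₁) = 224 * ρ ^ 2 * ν * 1 * e₁ := by rw [hq']; ring
      _ ≤ _ := by gcongr
  have hqe : e₁ ≤ q * e₁ := Nat.le_mul_of_pos_left _ (by omega)
  have hqe' : q ≤ q * e₁ := Nat.le_mul_of_pos_right _ (by omega)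
  have hσ : Fintype.card σ ≤ 2 ^ L := by omega
  obtain ⟨x0, hx0⟩ := hW
  obtain ⟨W2, h21, h22, h23, f, hf, hfF, hfe, hfW⟩ := exists_prime_factor ⟨x0, hx0⟩ hrel
    (F := toQ F) (fun h => hF0 x0 hx0 (by
      have h1 : F = 0 := map_injective _ (RingHom.injective_int _) (h.trans (map_zero _).symm)
      simp [h1])) ((totalDegree_toQ F).trans hF.1) fun x hx => by rw [eval_toQ, hFW x hx]; simp
  have hS2 := (hS.subset h21).mono (e' := e₁) (by omega)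
  have hn2 := hn.subset h21
  have hb2 := hn2.abs_le' hlam hlamL
  have hWL2 := (card_le_card h21).trans hWL
  by_cases hα : ∃ (u : σ → ℤ) (w τ : ℤ), (u ≠ 0 ∨ w ≠ 0) ∧ f ∣ toQ (quad u w τ n)
  · obtain ⟨u, w, τ, h1, c, h2⟩ := hα
    have h3 := hC W2 h21 u w τ h1 fun y hy => by
      have h4 := eval_toQ y (quad u w τ n)
      rw [h2, map_mul, hfW y hy, zero_mul, eval_quad] at h4
      exact sub_eq_zero.1 (by exact_mod_cast h4.symm)
    have h4 : (r + 1 + 1) * (2 * (C₀ + 1) * g) * 4 ≤ e :=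
      calc _ = 8 * (r + 1 + 1) * (C₀ + 1) * g := by ring
        _ ≤ 8 * ρ * (C₀ + 1) * g := by gcongr; omega
        _ ≤ e := heC
    refine ⟨W2, h21, h22, h23.mono (by omega), HasEq.mono (small_eq hS2 h22 hL hb2
      (g := 2 * (C₀ + 1) * g) ?_ (by rw [hI]; omega)) (by rw [hI]; omega)⟩
    rw [hI, ← Nat.pow_le_pow_iff_left (n := ρ) (by omega)]
    have h5 : ρ - 1 = r + 1 + 1 := by omega
    rw [h5] at h3 hg
    calc (2 * W2.card) ^ ρ = 2 ^ ρ * W2.card ^ ρ := mul_pow _ _ _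
      _ ≤ 2 ^ ρ * (C₀ * (lam ^ (r + 1 + 1)) ^ (r + 1 + 1)) := by
          rw [← pow_mul, ← sq]; exact Nat.mul_le_mul_left _ h3
      _ ≤ 2 ^ ((r + 1 + 1) * ρ) * ((C₀ + 1) ^ ((r + 1 + 1) * ρ) * (g ^ ρ) ^ (r + 1 + 1)) :=
          Nat.mul_le_mul (Nat.pow_le_pow_right two_pos (Nat.le_mul_of_pos_left _ (by omega)))
            (Nat.mul_le_mul ((Nat.le_succ _).trans (Nat.le_self_pow (by
              have : ρ ≠ 0 := by omega
              positivity) _)) (Nat.pow_le_pow_left hg _))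
      _ = _ := by rw [← pow_mul, ← pow_mul, mul_pow, mul_pow, mul_comm ρ, mul_assoc]
  push Not at hα
  obtain ⟨N, m, hN, hm1, hm2, hm3⟩ := exists_quad_basis f
  rw [hρ] at hN
  obtain ⟨x, hx⟩ := h22
  have hv0 : ∀ i, der (v i) F = 0 := fun i => by rw [hvF]; ring
  obtain ⟨α, hα1, hα2⟩ := wronskian hS.diag (fun i _ => hv0 i) (hS.ne x (h21 hx))
    (hF0 x (h21 hx)) hf hfF (hfW x hx) m hm2
  simp only [Fintype.card_fin] at hα1
  obtain ⟨Δ, hΔ⟩ : ∃ Δ, Δ = (Matrix.of fun i j => wd v (α i) (m j)).det := ⟨_, rfl⟩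
  obtain ⟨c, hc⟩ : ∃ c, c = (ρ + 1) ^ 2 := ⟨_, rfl⟩
  have hcc : (ρ + 1) ^ 4 = c * c := by rw [hc]; ring
  rw [← hc] at hN hν
  rw [hcc] at he₁ hc1
  have hc2 : 1 ≤ c := by rw [hc]; exact Nat.one_le_pow _ _ (by omega)
  have hce : c * e ≤ c * (c * e) := Nat.le_mul_of_pos_left _ hc2
  have hce' : e ≤ c * e := Nat.le_mul_of_pos_left _ hc2
  have hce'' : c ≤ c * e := Nat.le_mul_of_pos_right _ (by omega)
  have he₂ : 6 * (c * (c * e)) ≤ e₁ := le_trans (le_of_eq (by ring)) he₁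
  have hN2 : 2 + N * (e + 2) + N ≤ 4 * (c * e) := by
    have h1 : N * (e + 2) ≤ c * (2 * e) := Nat.mul_le_mul hN (by omega)
    have h2 : c * (2 * e) = 2 * (c * e) := by ring
    omega
  have hΔs : Sz L Δ (4 * (c * (c * e))) := by
    rw [hΔ]
    refine (Sz.det hL _ (e := 2 + N * (e + 2)) fun i j =>
      Sz.wd hS.szv (hm1 L j) hσ (hα1 i).2 (by omega)).mono ?_
    rw [Fintype.card_fin]
    exact (Nat.mul_le_mul hN hN2).trans (le_of_eq (by ring))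
  rw [← hΔ] at hα2
  by_cases hβ : ∀ y ∈ W2, eval y Δ = 0
  · refine ⟨W2, h21, ⟨x, hx⟩, h23.mono (by omega), ?_⟩
    have h1 := coprime_growth hf hα2 hfW (fun y hy => by rw [eval_toQ, hβ y hy]; simp) (e := e₁)
      (by omega) ((totalDegree_toQ Δ).trans (hΔs.1.trans (by omega))) (r := r + 1) (by omega) e₁
      (2 * ρ * (ρ + 3) * ν)
    have h2 : ((r + 1 + 1) * ν + 1) * ((ρ + 2) * e₁) + (r + 1 + 1) * ν + 1 ≤
        2 * ρ * (ρ + 3) * ν * e₁ :=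
      calc _ = ((r + 1 + 1) * ν + 1) * ((ρ + 2) * e₁ + 1) := by ring
        _ ≤ (2 * (ρ * ν)) * ((ρ + 3) * e₁) := by
            refine Nat.mul_le_mul ?_ ?_
            · have : (r + 1 + 1) * ν ≤ ρ * ν := Nat.mul_le_mul_right _ (by omega)
              omega
            · rw [show (ρ + 3) * e₁ = (ρ + 2) * e₁ + e₁ by ring]; omega
        _ = _ := by ring
    have h3 : 2 * ρ * (ρ + 3) ≤ 21 * ρ ^ 2 * 1 := by nlinarith
    refine eq_of_ratio hS2 ⟨x, hx⟩ hL hσ hb2 hWL2 (ν := ν) (E := (ρ + 2) * e₁)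
      (D := 2 * ρ * (ρ + 3) * ν * e₁) (by rw [hI]; omega) ?_ ?_ heL
    · have h4 : 2 * (2 * ρ * (ρ + 3) * ν + 1) ^ (r + 1) ≤ (ν + 1) ^ (r + 1 + 1) :=
        calc _ ≤ 2 * (21 * ρ ^ 2 * L ^ 2 * (ν + 1)) ^ (r + 1) := by
              refine Nat.mul_le_mul_left _ (Nat.pow_le_pow_left ?_ _)
              rw [mul_add _ ν 1, mul_one]
              exact Nat.add_le_add (Nat.mul_le_mul_right _ (h3.trans (Nat.mul_le_mul_left _ hL2))) hq
          _ = 2 * (21 * ρ ^ 2 * L ^ 2) ^ (r + 1) * (ν + 1) ^ (r + 1) := by rw [mul_pow]; ring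
          _ ≤ (ν + 1) * (ν + 1) ^ (r + 1) := Nat.mul_le_mul_right _
              (((Nat.mul_le_mul (by omega) (Nat.pow_le_pow_right hq (by omega))).trans hν).trans
                (Nat.le_succ _))
          _ = _ := (pow_succ' _ _).symm
      have h5 : LS.hf W2 (2 * e₁ + (r + 1 + 1) * e₁) ≤ LS.hf W2 ((ρ + 2) * e₁) :=
        hf_mono _ (by rw [hr]; nlinarith)
      rw [hI]
      calc _ ≤ 2 * ((2 * ρ * (ρ + 3) * ν + 1) ^ (r + 1) * LS.hf W2 ((ρ + 2) * e₁)) :=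
            Nat.mul_le_mul_left _ (h1.trans (Nat.mul_le_mul_left _ h5))
        _ ≤ _ := by rw [← mul_assoc]; exact Nat.mul_le_mul_right _ h4
    · have h4 : 2 * ρ * (ρ + 3) * ν * e₁ ≤ 21 * (q * e₁) :=
        calc _ ≤ 21 * ρ ^ 2 * 1 * ν * e₁ := by gcongr
          _ = _ := by rw [hq']; ring
      have h5 : (r + 1 + 1) * ν * (e₁ + 2) ≤ q * (3 * e₁) :=
        Nat.mul_le_mul ((Nat.mul_le_mul_right _ (by omega)).trans hρq) (by omega)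
      have h6 : q * (3 * e₁) = 3 * (q * e₁) := by ring
      rw [hI]
      omega
  · push Not at hβ
    obtain ⟨y0, hy0, hy0'⟩ := hβ
    have h31 : (W2.filter fun y => eval y Δ ≠ 0) ⊆ W2 := filter_subset _ _
    have h32 : (W2.filter fun y => eval y Δ ≠ 0).Nonempty := ⟨y0, mem_filter.2 ⟨hy0, hy0'⟩⟩
    refine ⟨_, h31.trans h21, h32, h23.filter Δ (hΔs.1.trans (by omega)), ?_⟩
    refine eq_of_loc (hS2.subset h31) h32 hL (hn2.subset h31) hlam hlamL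
      ((card_le_card h31).trans hWL2) hρ hI hc2 hν (by omega) heL (B := J * pderiv i0 F * Δ)
      (((hS.szJ.mul hF').mul hΔs).mono (by omega)) (fun y hy => ?_) fun p hp h1 y hy h2 M => ?_
    · rw [map_mul, map_mul]
      exact mul_ne_zero (mul_ne_zero (hS.ne y (h21 (h31 hy))) (hF0 y (h21 (h31 hy))))
        (mem_filter.1 hy).2
    · have h3 := size_lt (lam := lam) (p := p) (by omega) hg (by omega)
      obtain ⟨N', h4, h5⟩ := loc_special (hS2.subset h31) hvF (fun y hy => hFW y (h21 (h31 hy)))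
        (hn2.subset h31) hlam hp (by omega) hy (fun y hy => hfW y (h31 hy)) m hm3 hα α hα1
        (hΔ ▸ h2) (by
          rw [hρ]
          refine lt_of_le_of_lt ?_ (Nat.pow_lt_pow_left h3 two_ne_zero)
          rw [mul_pow, ← pow_mul]
          exact Nat.mul_le_mul (Nat.le_self_pow two_ne_zero _)
            (pow_le_pow_or (by omega) (by omega))) (r := r) (by omega) (M + 1)
      exact ⟨N', h4.trans (Nat.mul_le_mul_right _ hN), h5⟩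

theorem main {ρ : ℕ} (hρ : 3 ≤ ρ) : MainSt ρ := by
  classical
  have hσ : Fintype.card (Fin ρ) = ρ := Fintype.card_fin ρ
  obtain ⟨C₀, hC₀⟩ := count_quadric (σ := Fin ρ) (by omega)
  rw [hσ] at hC₀
  obtain ⟨K₀, hK₀⟩ : ∃ K₀, K₀ = 10 ^ 10 + 2 * (ρ + 1).factorial + 16 * ρ * (C₀ + 1) := ⟨_, rfl⟩
  obtain ⟨c₁, hc₁⟩ : ∃ c₁, c₁ = 230 * ρ ^ 2 * (8 * (ρ + 1) ^ 2 * (21 * ρ ^ 2) ^ ρ) := ⟨_, rfl⟩
  refine ⟨(2 * c₁) ^ (ρ + 1) * (6 * (ρ + 1) ^ 4 * K₀), (2 * ρ + 2) * (ρ + 1),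
    fun n lam L g W hW hn hlam hlam1 hL hlamL hWL hWg hg hrel => ?_⟩
  obtain ⟨ν, hν⟩ : ∃ ν, ν = 8 * (ρ + 1) ^ 2 * (21 * ρ ^ 2 * L ^ 2) ^ ρ := ⟨_, rfl⟩
  obtain ⟨Λ, hΛ⟩ : ∃ Λ, Λ = 230 * ρ ^ 2 * ν * L ^ 2 := ⟨_, rfl⟩
  obtain ⟨e, he⟩ : ∃ e, e = K₀ * g := ⟨_, rfl⟩
  obtain ⟨e₁, he₁⟩ : ∃ e₁, e₁ = 6 * (ρ + 1) ^ 4 * e := ⟨_, rfl⟩
  have hK : (2 * c₁) ^ (ρ + 1) * (6 * (ρ + 1) ^ 4 * K₀) * L ^ ((2 * ρ + 2) * (ρ + 1)) * g =
      (2 * Λ) ^ (ρ + 1) * e₁ := by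
    have h1 : 2 * Λ = 2 * c₁ * L ^ (2 * ρ + 2) := by
      rw [hΛ, hν, hc₁, mul_pow (21 * ρ ^ 2), ← pow_mul]
      ring
    rw [h1, he₁, he, mul_pow (2 * c₁), ← pow_mul]
    ring
  rw [hK] at hrel
  have hg1 : 1 ≤ g := Nat.pos_of_ne_zero fun h => by
    have := hW.card_pos
    rw [h, zero_pow (by omega)] at hWg
    omega
  have hν1 : 1 ≤ ν := Nat.one_le_iff_ne_zero.2 (by
    have : ρ ≠ 0 := by omega
    have : L ≠ 0 := by omega
    rw [hν]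
    positivity)
  have hL2 : 1 ≤ L ^ 2 := Nat.one_le_pow _ _ hL
  have he1 : 10 ^ 10 ≤ e := by
    rw [he]
    exact le_trans (by omega) (Nat.le_mul_of_pos_right _ hg1)
  have he2 : 2 * (ρ + 1).factorial * g ≤ e := by
    rw [he]
    exact Nat.mul_le_mul_right _ (by omega)
  have he3 : 2 * (8 * ρ * (C₀ + 1) * g) ≤ e :=
    calc _ = 16 * ρ * (C₀ + 1) * g := by ring
      _ ≤ K₀ * g := Nat.mul_le_mul_right _ (by omega)
      _ = e := he.symm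
  have he4 : 4 * (ρ * (2 * g)) ≤ 8 * ρ * (C₀ + 1) * g :=
    calc _ = 8 * ρ * 1 * g := by ring
      _ ≤ _ := by gcongr; omega
  have he5 : 6 * e ≤ e₁ := by
    rw [he₁]
    exact Nat.mul_le_mul_right _ (Nat.le_mul_of_pos_right _ (by positivity))
  obtain ⟨q, hq⟩ : ∃ q, q = ρ ^ 2 * ν * L ^ 2 := ⟨_, rfl⟩
  have hq1 : ρ ≤ q := by
    rw [hq]
    calc ρ ≤ ρ ^ 2 * 1 * 1 := by nlinarith
      _ ≤ _ := by gcongr
  have hΛe : Λ * e₁ = 230 * (q * e₁) := by rw [hΛ, hq]; ring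
  have hE : 224 * ρ ^ 2 * ν * L ^ 2 * e₁ = 224 * (q * e₁) := by rw [hq]; ring
  have hqe : e₁ ≤ q * e₁ := Nat.le_mul_of_pos_left _ (by omega)
  have hqe' : q ≤ q * e₁ := Nat.le_mul_of_pos_right _ (by omega)
  have hΛ1 : 2 ≤ Λ := by
    have : Λ = 230 * q := by rw [hΛ, hq]; ring
    omega
  obtain ⟨k, hk⟩ : ∃ k, k = (2 * Λ) ^ (ρ - 2 + 1) * (Λ * e₁) := ⟨_, rfl⟩
  have hk1 : Λ * e₁ ≤ k := hk ▸ Nat.le_mul_of_pos_left _ (Nat.pow_pos (by omega))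
  have hk2 : 4 * k ≤ (2 * Λ) ^ (ρ + 1) * e₁ :=
    calc 4 * k = (2 * Λ) ^ (ρ - 2 + 1) * (2 * 2 * Λ * e₁) := by rw [hk]; ring
      _ ≤ (2 * Λ) ^ (ρ - 2 + 1) * (2 * Λ * (2 * Λ) * e₁) := by gcongr; omega
      _ = (2 * Λ) ^ (ρ - 2 + 1 + 2) * e₁ := by ring
      _ = _ := by rw [show ρ - 2 + 1 + 2 = ρ + 1 by omega]
  have hlt := (lt_card_of_rel hW hrel).le.trans hWL
  have hb := hn.abs_le' hlam hlamL
  have hσL : Fintype.card (Fin ρ) ≤ 2 ^ L := by omega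
  obtain ⟨F, hF, hFW, i0, -, x, hx, hx'⟩ := small_eq (Stage.init L W) hW hL hb (g := 2 * g)
    (by
      rw [card_univ, hσ, mul_pow]
      exact Nat.mul_le_mul (Nat.le_self_pow (by omega) _) hWg)
    (by rw [card_univ, hσ]; omega)
  rw [card_univ, hσ] at hF
  have hS := (Stage.init L W).step hL hσL hF (by omega) hFW (mem_univ i0)
  simp only [der_init] at hS hx'
  have hF' := hF.pderiv (by omega) i0
  have h11 : (W.filter fun x => eval x (pderiv i0 F) ≠ 0) ⊆ W := filter_subset _ _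
  obtain ⟨W', h1, h2, h3, h4⟩ := special (hS.mono (e' := e) (by omega))
    (fun i g => by rw [der_comb, der_init, der_init]) (hF.mono (by omega)) (hF'.mono (by omega))
    (fun y hy => hFW y (h11 hy)) (fun y hy => (mem_filter.1 hy).2) ⟨x, mem_filter.2 ⟨hx, hx'⟩⟩ hL
    (hn.subset h11) hlam hlamL ((card_le_card h11).trans hWL) hσ hρ hν.ge hg
    (fun W' hW' => hC₀ n lam hlam1 hlam W' ((hn.subset h11).subset hW')) he1 he2 (by omega) he₁.ge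
    (by omega) (k := k + Λ * e₁)
    (Rel.filter (a := e) (hrel.mono (by omega)) _ (hF'.1.trans (by omega)))
  rw [hE] at h4
  obtain ⟨W'', h5, h6, h7, i, hi, v', J', hS'⟩ := ((hS.subset h1).mono (e' := e₁) (by omega)).next
    hL hσL h4 (by omega) (k := k) (h3.mono (by omega))
  have h8 := h5.trans (h1.trans h11)
  refine desc hL hlam hlamL hσ hν.ge hg hΛ.ge (ρ - 2) W'' _ v' J' (Λ * e₁) ?_ (by omega)
    (hS'.mono (by omega)) h6 (hn.subset h8) ((card_le_card h8).trans hWL) (by omega) (by omega)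
    (hk ▸ h7)
  rw [card_erase_of_mem hi, card_erase_of_mem (mem_univ _), card_univ, hσ]
  omega

end Pool.Agent.P.MP_d565f2_an.LS
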