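import Pool.Agent.P.MP_d565f2_an.FR.Count

/-! From a bound in `N + n ^ ((d - 2) / 2)` to a bound in `N` alone, for `d ≥ 4`. -/

set_option autoImplicit false

open Finset

namespace Pool.Agent.P.MP_d565f2_an.LS

open FR

/-- The product of two integral quaternions. -/
def qm (g q : Fin 4 → ℤ) : Fin 4 → ℤ :=
  ![g 0 * q 0 - g 1 * q 1 - g 2 * q 2 - g 3 * q 3, g 0 * q 1 + g 1 * q 0 + g 2 * q 3 - g 3 * q 2,
    g 0 * q 2 - g 1 * q 3 + g 2 * q 0 + g 3 * q 1, g 0 * q 3 + g 1 * q 2 - g 2 * q 1 + g 3 * q 0]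

theorem nf_cover (j m : ℕ) (hj : j ≠ 0) (G : Finset (Fin 4 → ℤ)) (hG : ∀ g ∈ G, g ⬝ᵥ g = j)
    (h : ∀ q : Fin 4 → ℤ, (j : ℤ) ∣ q ⬝ᵥ q → ∃ g ∈ G, ∀ i, (j : ℤ) ∣ qm g q i) :
    (sph (Fin 4) (j * m)).card ≤ G.card * (sph (Fin 4) m).card := by
  classical
  have hj' : (j : ℤ) ≠ 0 := by exact_mod_cast hj
  refine le_trans (card_le_card (t := G.biUnion fun g => (sph (Fin 4) m).image
    (qm ![g 0, -g 1, -g 2, -g 3])) fun q hq => ?_)
    (card_biUnion_le_card_mul _ _ _ fun g _ => card_image_le)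
  rw [mem_sph] at hq
  obtain ⟨g, hg, H⟩ := h q ⟨m, by rw [hq]; push_cast; ring⟩
  choose z hz using H
  have e0 := hz 0
  have e1 := hz 1
  have e2 := hz 2
  have e3 := hz 3
  have hg' := hG g hg
  simp only [qm, Matrix.cons_val_zero, Matrix.cons_val_one, Matrix.cons_val] at e0 e1 e2 e3
  rw [dot4] at hq hg'
  refine mem_biUnion.2 ⟨g, hg, mem_image.2 ⟨z, ?_, ?_⟩⟩
  · rw [mem_sph, dot4]
    refine mul_left_cancel₀ (pow_ne_zero 2 hj') ?_
    push_cast at hq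
    have : (j * z 0) ^ 2 + (j * z 1) ^ 2 + (j * z 2) ^ 2 + (j * z 3) ^ 2 = j * (j * m : ℤ) := by
      rw [← e0, ← e1, ← e2, ← e3, ← hq, ← hg']; ring
    linear_combination this
  · funext i
    refine mul_left_cancel₀ hj' ?_
    fin_cases i
    · show _ * (g 0 * z 0 - -g 1 * z 1 - -g 2 * z 2 - -g 3 * z 3) = _ * q 0
      linear_combination -g 0 * e0 - g 1 * e1 - g 2 * e2 - g 3 * e3 + q 0 * hg'
    · show _ * (g 0 * z 1 + -g 1 * z 0 + -g 2 * z 3 - -g 3 * z 2) = _ * q 1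
      linear_combination -g 0 * e1 + g 1 * e0 + g 2 * e3 - g 3 * e2 + q 1 * hg'
    · show _ * (g 0 * z 2 - -g 1 * z 3 + -g 2 * z 0 + -g 3 * z 1) = _ * q 2
      linear_combination -g 0 * e2 - g 1 * e3 + g 2 * e0 + g 3 * e1 + q 2 * hg'
    · show _ * (g 0 * z 3 + -g 1 * z 2 - -g 2 * z 1 + -g 3 * z 0) = _ * q 3
      linear_combination -g 0 * e3 + g 1 * e2 - g 2 * e1 + g 3 * e0 + q 3 * hg'

theorem nf_two (m : ℕ) : (sph (Fin 4) (2 * m)).card ≤ 3 * (sph (Fin 4) m).card := by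
  refine (nf_cover 2 m two_ne_zero {![1, 1, 0, 0], ![1, 0, 1, 0], ![1, 0, 0, 1]} (by decide)
    fun q hq => ?_).trans (Nat.mul_le_mul_right _ card_le_three)
  have key : ∀ a b c d : ZMod 2, a ^ 2 + b ^ 2 + c ^ 2 + d ^ 2 = 0 →
      (a - b = 0 ∧ b + a = 0 ∧ c - d = 0 ∧ d + c = 0) ∨
      (a - c = 0 ∧ b + d = 0 ∧ c + a = 0 ∧ d - b = 0) ∨
      (a - d = 0 ∧ b - c = 0 ∧ c + b = 0 ∧ d + a = 0) := by decide
  rw [dot4, ← ZMod.intCast_zmod_eq_zero_iff_dvd] at hq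
  push_cast at hq
  simp only [← ZMod.intCast_zmod_eq_zero_iff_dvd, Fin.forall_fin_succ, mem_insert, mem_singleton,
    exists_eq_or_imp, exists_eq_left]
  simpa [qm] using key _ _ _ _ hq

theorem nf_three (m : ℕ) : (sph (Fin 4) (3 * m)).card ≤ 4 * (sph (Fin 4) m).card := by
  refine (nf_cover 3 m three_ne_zero {![1, -1, -1, 0], ![1, -1, 0, -1], ![1, -1, 0, 1],
    ![1, -1, 1, 0]} (by decide) fun q hq => ?_).trans (Nat.mul_le_mul_right _ card_le_four)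
  have key : ∀ a b c d : ZMod 3, a ^ 2 + b ^ 2 + c ^ 2 + d ^ 2 = 0 →
      (a + b + c = 0 ∧ b - a - d = 0 ∧ c + d - a = 0 ∧ d - c + b = 0) ∨
      (a + b + d = 0 ∧ b - a + c = 0 ∧ c + d - b = 0 ∧ d - c - a = 0) ∨
      (a + b - d = 0 ∧ b - a - c = 0 ∧ c + d + b = 0 ∧ d - c + a = 0) ∨
      (a + b - c = 0 ∧ b - a + d = 0 ∧ c + d + a = 0 ∧ d - c - b = 0) := by decide
  rw [dot4, ← ZMod.intCast_zmod_eq_zero_iff_dvd] at hq
  push_cast at hq
  simp only [← ZMod.intCast_zmod_eq_zero_iff_dvd, Fin.forall_fin_succ, mem_insert, mem_singleton,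
    exists_eq_or_imp, exists_eq_left]
  simpa [qm, sub_eq_add_neg] using key _ _ _ _ hq

theorem nf_odd {m : ℕ} (hm : m % 2 = 1) : m ≤ 51 * (sph (Fin 4) m).card := by
  classical
  have hm0 : 0 < m := by omega
  have hm' : (0 : ℤ) < m := by exact_mod_cast hm0
  obtain ⟨a, b, hab⟩ := exists_neg_one hm
  choose q hq0 hq1 hq2 hq3 using fun t : ℕ => exists_short hm0 a b t
  have hj : ∀ t, ∃ j : ℕ, j ∈ Icc 1 4 ∧ q t ⬝ᵥ q t = j * m := by
    intro t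
    obtain ⟨j, hj⟩ := dvd_norm hab (hq2 t) (hq3 t)
    have h1 := hq0 t
    have h2 := hq1 t
    rw [hj] at h1 h2
    have h3 : 0 < j := (mul_pos_iff_of_pos_left hm').1 h1
    have h4 : j ≤ 4 := by nlinarith
    refine ⟨j.toNat, mem_Icc.2 (by omega), ?_⟩
    rw [hj, Int.toNat_of_nonneg h3.le, mul_comm]
  have h1 : (range ((m + 2) / 3)).card ≤ ((Icc 1 4).biUnion fun j => sph (Fin 4) (j * m)).card := by
    refine card_le_card_of_injOn q ?_ ?_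
    · intro t _
      obtain ⟨j, hj1, hj2⟩ := hj t
      rw [mem_coe, mem_biUnion]
      exact ⟨j, hj1, mem_sph.2 (by rw [hj2]; push_cast; ring)⟩
    · intro t ht s hs hts
      obtain ⟨j, hj1, hj2⟩ := hj t
      have h2 := dvd_diff hm'.ne' hab (hq2 t) (hq3 t) (hts ▸ hq2 s) (hts ▸ hq3 s) hj2
      have h3 : (m : ℤ) ∣ 8 * (3 * ((s : ℤ) - t)) := by
        rw [← mul_assoc]
        refine h2.trans (mul_dvd_mul_right ?_ _)
        rw [mem_Icc] at hj1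
        obtain ⟨h4, h5⟩ := hj1
        interval_cases j <;> norm_num
      have h4 : IsCoprime (m : ℤ) 8 := by
        obtain ⟨r, rfl⟩ : ∃ r, m = 2 * r + 1 := ⟨m / 2, by omega⟩
        have h6 : IsCoprime ((2 * r + 1 : ℕ) : ℤ) 2 := ⟨1, -(r : ℤ), by push_cast; ring⟩
        exact h6.pow_right (n := 3)
      have h5 := h4.dvd_of_dvd_mul_left h3
      rw [mem_coe, mem_range] at ht hs
      have h6 := Int.eq_zero_of_abs_lt_dvd h5 (by rw [abs_lt]; constructor <;> omega)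
      omega
  rw [card_range] at h1
  have h2 := h1.trans card_biUnion_le
  rw [show Icc 1 4 = {1, 2, 3, 4} by decide, sum_insert (by decide), sum_insert (by decide),
    sum_insert (by decide), sum_singleton, one_mul, show 4 * m = 2 * (2 * m) by ring] at h2
  have h3 := nf_two m
  have h4 := nf_three m
  have h5 := nf_two (2 * m)
  omega

theorem nf_large (f n U : ℕ) (hn : 8 * (f + 1) * U ^ 2 ≤ n) :
    U ^ (f + 1) * (n / 102) ≤ (sph (Fin (f + 1 + 4)) n).card := by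
  classical
  let y₀ : Fin (f + 1) → ℤ := Pi.single 0 (((n + 1) % 2 : ℕ) : ℤ)
  have hb : ∀ i, 0 ≤ y₀ i ∧ y₀ i ≤ 1 := fun i => by
    simp only [y₀, Pi.single_apply]
    split_ifs <;> omega
  have hy₀ : y₀ ⬝ᵥ y₀ = ((n + 1) % 2 : ℕ) := by
    simp only [y₀, single_dotProduct, Pi.single_eq_same]
    rcases Nat.mod_two_eq_zero_or_one (n + 1) with h | h <;> simp [h]
  let g : (Fin (f + 1) → Fin U) → Fin (f + 1) → ℤ := fun u i => y₀ i + 2 * ((u i : ℕ) : ℤ)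
  have hg : Function.Injective g := by
    intro u v huv
    funext i
    have := congrFun huv i
    simp only [g] at this
    exact Fin.ext (by omega)
  have hc : (univ.image g).card = U ^ (f + 1) := by
    rw [card_image_of_injective _ hg]
    simp
  rw [← hc]
  refine card_conv _ fun y hy => ?_
  obtain ⟨u, -, rfl⟩ := mem_image.1 hy
  have h1 : g u ⬝ᵥ g u ≤ (f + 1 : ℕ) * (2 * (U : ℤ)) ^ 2 := by
    have : ∀ i ∈ (univ : Finset (Fin (f + 1))), g u i * g u i ≤ (2 * (U : ℤ)) ^ 2 := by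
      intro i _
      have h2 := hb i
      have h3 := (u i).2
      rw [← sq]
      refine sq_le_sq' ?_ ?_ <;> simp only [g] <;> omega
    simpa [dotProduct] using sum_le_card_nsmul _ _ _ this
  have h2 : (2 : ℤ) ∣ g u ⬝ᵥ g u - y₀ ⬝ᵥ y₀ := by
    simp only [dotProduct, ← sum_sub_distrib]
    exact dvd_sum fun i _ => ⟨2 * y₀ i * (u i : ℕ) + 2 * ((u i : ℕ) : ℤ) ^ 2, by
      simp only [g]; ring⟩
  have h3 := dot_self_nonneg (g u)
  have h4 : 2 * (g u ⬝ᵥ g u) ≤ n := by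
    have : ((8 * (f + 1) * U ^ 2 : ℕ) : ℤ) ≤ n := by exact_mod_cast hn
    push_cast at this h1
    nlinarith
  rw [hy₀] at h2
  obtain ⟨s, hs⟩ := Int.eq_ofNat_of_zero_le h3
  rw [hs] at h2 h4 ⊢
  obtain ⟨m, hm, hm1⟩ : ∃ m, s + m = n ∧ m % 2 = 1 := ⟨n - s, by omega, by omega⟩
  refine ⟨m, by exact_mod_cast hm, ?_⟩
  have := nf_odd hm1
  omega

theorem nf_count (f : ℕ) : ∃ C : ℕ, ∀ n : ℕ,
    n ^ (f + 3) ≤ C * (sph (Fin (f + 1 + 4)) n).card ^ 2 := by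
  set A := 104 * (f + 1) with hA
  have hA0 : 102 ≤ A := by omega
  refine ⟨A ^ (f + 3) + (4 * A) ^ (f + 1) * 204 ^ 2, fun n => ?_⟩
  set N := (sph (Fin (f + 1 + 4)) n).card with hNdef
  have hN1 : 1 ≤ N ^ 2 := by
    obtain ⟨y, hy⟩ := exists_rep (f + 1) n
    exact Nat.one_le_pow _ _ (card_pos.2 ⟨y, mem_sph.2 hy⟩)
  rcases lt_or_ge n A with h | h
  · calc n ^ (f + 3) ≤ A ^ (f + 3) * 1 := by rw [mul_one]; exact Nat.pow_le_pow_left h.le _
      _ ≤ _ := Nat.mul_le_mul (Nat.le_add_right _ _) hN1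
  · set U := Nat.sqrt (n / A) with hU
    have h1 : 1 ≤ n / A := (Nat.one_le_div_iff (by omega)).2 h
    have h2 : 1 ≤ U := Nat.sqrt_pos.2 h1
    have h3 : A * U ^ 2 ≤ n := (Nat.mul_le_mul_left A (Nat.sqrt_le' _)).trans (Nat.mul_div_le n A)
    have h4 : n ≤ 4 * A * U ^ 2 := by
      have h5 : n / A + 1 ≤ (U + 1) ^ 2 := Nat.lt_succ_sqrt' _
      have h6 : n < A * (n / A + 1) := Nat.lt_mul_div_succ n (by omega)
      have h7 : (U + 1) ^ 2 ≤ 4 * U ^ 2 := by nlinarith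
      calc n ≤ A * (n / A + 1) := h6.le
        _ ≤ A * (4 * U ^ 2) := Nat.mul_le_mul_left A (h5.trans h7)
        _ = _ := by ring
    have h5 := nf_large f n U (le_trans (Nat.mul_le_mul_right _ (by omega)) h3)
    have h6 : n ≤ 204 * (n / 102) := by omega
    calc n ^ (f + 3) = n ^ (f + 1) * n ^ 2 := by ring
      _ ≤ (4 * A * U ^ 2) ^ (f + 1) * (204 * (n / 102)) ^ 2 := by gcongr
      _ = (4 * A) ^ (f + 1) * 204 ^ 2 * (U ^ (f + 1) * (n / 102)) ^ 2 := by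
        rw [mul_pow (4 * A), mul_pow 204, mul_pow (U ^ (f + 1)), ← pow_mul, ← pow_mul,
          mul_comm 2 (f + 1)]
        ring
      _ ≤ (4 * A) ^ (f + 1) * 204 ^ 2 * N ^ 2 := by gcongr
      _ ≤ _ := Nat.mul_le_mul_right _ (Nat.le_add_left _ _)

theorem nf_half {ι : Type} [Fintype ι] [DecidableEq ι] {Z : Finset (ι → ℤ)} {K : ℕ}
    (h : Rel (Z.image fun y i => 2 * y i) K) : Rel Z K := by
  obtain ⟨c, hc, hf⟩ := h
  have hinj : Function.Injective fun (y : ι → ℤ) i => 2 * y i := fun y z e =>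
    funext fun i => by have := congrFun e i; simp only at this; omega
  refine ⟨fun y => c fun i => 2 * y i, fun y hy => hc _ (mem_image_of_mem _ hy), fun f hK => ?_⟩
  have key : ∀ m ∈ f.support, ∑ y ∈ Z, c (fun i => 2 * y i) *
      ((MvPolynomial.eval y (MvPolynomial.monomial m (f.coeff m)) : ℤ) : ℂ) = 0 := by
    intro m hm
    have h1 := hf (MvPolynomial.monomial m (f.coeff m)) ((MvPolynomial.totalDegree_monomial_le _ _).trans
      ((MvPolynomial.le_totalDegree hm).trans hK))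
    rw [sum_image fun _ _ _ _ e => hinj e] at h1
    refine mul_left_cancel₀ (a := ∏ i, (2 : ℂ) ^ m i) (prod_ne_zero_iff.2 fun i _ => by simp) ?_
    rw [mul_zero, ← h1, mul_sum]
    refine sum_congr rfl fun y _ => ?_
    rw [MvPolynomial.eval_monomial, MvPolynomial.eval_monomial, Finsupp.prod_pow, Finsupp.prod_pow]
    simp only [mul_pow, prod_mul_distrib]
    push_cast
    ring
  conv_lhs => rw [f.as_sum]
  simp only [map_sum, Int.cast_sum, mul_sum]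
  rw [sum_comm]
  exact sum_eq_zero key

theorem nf_even {n : ℕ} {x : Fin 4 → ℤ} (hx : x ∈ sph (Fin 4) (8 * n)) (i : Fin 4) : 2 ∣ x i := by
  have key : ∀ a b c d : Fin 4, ((a : ℕ) ^ 2 + (b : ℕ) ^ 2 + (c : ℕ) ^ 2 + (d : ℕ) ^ 2) % 8 = 0 →
      (a : ℕ) % 2 = 0 ∧ (b : ℕ) % 2 = 0 ∧ (c : ℕ) % 2 = 0 ∧ (d : ℕ) % 2 = 0 := by decide
  have red : ∀ z : ℤ, ∃ (a : Fin 4) (t : ℤ), z = (a : ℕ) + 4 * t := fun z =>
    ⟨⟨(z % 4).toNat, by omega⟩, z / 4, by simp only; omega⟩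
  rw [mem_sph, dot4] at hx
  obtain ⟨a, t0, h0⟩ := red (x 0)
  obtain ⟨b, t1, h1⟩ := red (x 1)
  obtain ⟨c, t2, h2⟩ := red (x 2)
  obtain ⟨d, t3, h3⟩ := red (x 3)
  have h4 : (((a : ℕ) ^ 2 + (b : ℕ) ^ 2 + (c : ℕ) ^ 2 + (d : ℕ) ^ 2 : ℕ) : ℤ) = 8 * (n - ((a : ℕ) * t0 +
      (b : ℕ) * t1 + (c : ℕ) * t2 + (d : ℕ) * t3) - 2 * (t0 ^ 2 + t1 ^ 2 + t2 ^ 2 + t3 ^ 2)) := by
    rw [h0, h1, h2, h3] at hx
    push_cast at hx ⊢
    linear_combination hx
  have h5 := key a b c d (by omega)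
  fin_cases i
  · show 2 ∣ x 0
    omega
  · show 2 ∣ x 1
    omega
  · show 2 ∣ x 2
    omega
  · show 2 ∣ x 3
    omega

theorem nf_reduce {ρ : ℕ} (hρ : 3 ≤ ρ) : ∃ B : ℕ, ∀ n : ℕ, 1 ≤ n → ∃ n₀ : ℕ, 1 ≤ n₀ ∧
    n₀ ^ (ρ - 1) ≤ B * (sph (Fin (ρ + 1)) n₀).card ^ 2 ∧
    (sph (Fin (ρ + 1)) n₀).card ≤ (sph (Fin (ρ + 1)) n).card ∧
    ∀ K : ℕ, (∀ Z ⊆ sph (Fin (ρ + 1)) n₀, Z.Nonempty → ¬ Rel Z K) →
      ∀ Z ⊆ sph (Fin (ρ + 1)) n, Z.Nonempty → ¬ Rel Z K := by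
  classical
  rcases hρ.eq_or_lt with rfl | h
  · refine ⟨204 ^ 2, fun n => ?_⟩
    induction n using Nat.strong_induction_on with
    | _ n ih =>
    intro hn
    by_cases h8 : n % 8 = 0
    · obtain ⟨k, rfl⟩ : ∃ k, n = 8 * k := ⟨n / 8, by omega⟩
      obtain ⟨n₀, h1, h2, h3, h4⟩ := ih (2 * k) (by omega) (by omega)
      refine ⟨n₀, h1, h2, h3.trans ?_, fun K hK Z hZ hne hrel => ?_⟩
      · rw [show 8 * k = 2 * k * 4 by ring]
        exact card_sph_mul _ _ (by norm_num)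
      · have e : ∀ x ∈ Z, (fun i => 2 * (x i / 2)) = x := fun x hx =>
          funext fun i => Int.mul_ediv_cancel' (nf_even (hZ hx) i)
        refine h4 K hK (Z.image fun x i => x i / 2) (fun y hy => ?_) (hne.image _) (nf_half ?_)
        · obtain ⟨x, hx, rfl⟩ := mem_image.1 hy
          have h5 := mem_sph.1 (hZ hx)
          rw [← e x hx, dot4] at h5
          rw [mem_sph, dot4]
          push_cast at h5 ⊢
          linarith
        · have h5 : (Z.image fun x i => x i / 2).image (fun y i => 2 * y i) = Z := by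
            rw [image_image]
            exact (image_congr (g := id) fun x hx => e x hx).trans image_id
          rwa [h5]
    · refine ⟨n, hn, ?_, le_rfl, fun K hK => hK⟩
      obtain ⟨m, k, hm, hk, hk', rfl⟩ : ∃ m k, m % 2 = 1 ∧ k ≠ 0 ∧ k ≤ 4 ∧ n = m * k := by
        rcases Nat.mod_two_eq_zero_or_one n with h2 | h2
        · rcases Nat.mod_two_eq_zero_or_one (n / 2) with h3 | h3
          · exact ⟨n / 4, 4, by omega, by omega, by omega, by omega⟩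
          · exact ⟨n / 2, 2, by omega, by omega, by omega, by omega⟩
        · exact ⟨n, 1, by omega, by omega, by omega, by omega⟩
      have h1 := nf_odd hm
      have h2 := card_sph_mul m k hk
      rw [← mul_pow]
      refine Nat.pow_le_pow_left ((Nat.mul_le_mul_left m hk').trans ?_) 2
      show m * 4 ≤ 204 * (sph (Fin 4) (m * k)).card
      omega
  · obtain ⟨f, rfl⟩ : ∃ f, ρ = f + 4 := ⟨ρ - 4, by omega⟩
    obtain ⟨C, hC⟩ := nf_count f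
    exact ⟨C, fun n hn => ⟨n, hn, hC n, le_rfl, fun K hK => hK⟩⟩

/-- The bound in terms of the number of lattice points alone. -/
theorem bound_N {ρ : ℕ} (hρ : 3 ≤ ρ)
    (h : ∃ C : ℝ, 0 < C ∧ ∃ A : ℕ, ∀ n : ℕ, 1 ≤ n → ∃ K : ℕ,
      (∀ Z ⊆ sph (Fin (ρ + 1)) n, Z.Nonempty → ¬ Rel Z K) ∧
      (K : ℝ) ≤ C * (((sph (Fin (ρ + 1)) n).card : ℝ) + (n : ℝ) ^ (((ρ : ℝ) - 1) / 2)) ^
        ((1 : ℝ) / (ρ : ℝ)) * Real.log ((n : ℝ) + 1) ^ A) :
    ∃ C : ℝ, 0 < C ∧ ∃ A : ℕ, ∀ n : ℕ, 1 ≤ n → ∃ K : ℕ,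
      (∀ Z ⊆ sph (Fin (ρ + 1)) n, Z.Nonempty → ¬ Rel Z K) ∧
      (K : ℝ) ≤ C * ((sph (Fin (ρ + 1)) n).card : ℝ) ^ ((1 : ℝ) / (ρ : ℝ)) *
        Real.log (((sph (Fin (ρ + 1)) n).card : ℝ) + 1) ^ A := by
  obtain ⟨C, hC, A, H⟩ := h
  obtain ⟨B, hB⟩ := nf_reduce hρ
  refine ⟨C * ((B : ℝ) + 2) ^ ((1 : ℝ) / (ρ : ℝ)) * ((B : ℝ) + 2) ^ A, by positivity, A,
    fun n hn => ?_⟩
  obtain ⟨n₀, h1, h2, h3, h4⟩ := hB n hn
  obtain ⟨K, hK, hKC⟩ := H n₀ h1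
  refine ⟨K, h4 K hK, hKC.trans ?_⟩
  set N₀ := (sph (Fin (ρ + 1)) n₀).card
  set N := (sph (Fin (ρ + 1)) n).card
  have h5 : n₀ ≤ B * N ^ 2 :=
    (Nat.le_self_pow (by omega) n₀).trans (h2.trans (by gcongr))
  have h6 : 1 ≤ N := by
    rcases Nat.eq_zero_or_pos N with h0 | h0
    · rw [h0] at h5; omega
    · exact h0
  have h7 : n₀ + 1 ≤ (N + 1) ^ (B + 2) := by
    have h8 : B + 1 ≤ (N + 1) ^ B :=
      (Nat.lt_two_pow_self (n := B)).trans_le (Nat.pow_le_pow_left (by omega) B)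
    calc n₀ + 1 ≤ (B + 1) * (N + 1) ^ 2 := by nlinarith
      _ ≤ (N + 1) ^ B * (N + 1) ^ 2 := Nat.mul_le_mul_right _ h8
      _ = _ := by ring
  have h8 : Real.log ((n₀ : ℝ) + 1) ≤ ((B : ℝ) + 2) * Real.log ((N : ℝ) + 1) := by
    have : ((n₀ : ℝ) + 1) ≤ ((N : ℝ) + 1) ^ (B + 2) := by exact_mod_cast h7
    refine (Real.log_le_log (by positivity) this).trans_eq ?_
    rw [Real.log_pow]
    push_cast
    rfl
  have h9 : (n₀ : ℝ) ^ (((ρ : ℝ) - 1) / 2) ≤ ((B : ℝ) + 1) * N := by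
    refine (sq_le_sq₀ (by positivity) (by positivity)).1 ?_
    have e : ((n₀ : ℝ) ^ (((ρ : ℝ) - 1) / 2)) ^ 2 = ((n₀ ^ (ρ - 1) : ℕ) : ℝ) := by
      rw [← Real.rpow_natCast, ← Real.rpow_mul (by positivity), Nat.cast_pow, ← Real.rpow_natCast,
        Nat.cast_sub (by omega)]
      congr 1
      push_cast
      ring
    have h10 : n₀ ^ (ρ - 1) ≤ ((B + 1) * N) ^ 2 := by
      refine h2.trans ?_
      rw [mul_pow]
      exact Nat.mul_le_mul (by nlinarith) (Nat.pow_le_pow_left h3 2)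
    rw [e]
    exact_mod_cast h10
  have h10 : (N₀ : ℝ) ≤ N := by exact_mod_cast h3
  have h11 : 0 ≤ Real.log ((n₀ : ℝ) + 1) := Real.log_nonneg (by simp)
  calc _ ≤ C * (((B : ℝ) + 2) * N) ^ ((1 : ℝ) / (ρ : ℝ)) *
        (((B : ℝ) + 2) * Real.log ((N : ℝ) + 1)) ^ A := by
        gcongr
        linarith
    _ = _ := by
      rw [Real.mul_rpow (by positivity) (by positivity), mul_pow]
      ring

end Pool.Agent.P.MP_d565f2_an.LS
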