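import Pool.Agent.P.MP_d565f2_an.LS.Size
import Pool.Agent.P.MP_d565f2_an.LS.Lin

set_option autoImplicit false

open MvPolynomial Finset Module

namespace Pool.Agent.P.MP_d565f2_an.LS

variable {σ : Type} [Fintype σ] [DecidableEq σ]

variable {L e : ℕ} {W : Finset (σ → ℤ)} {I : Finset σ} {v : σ → σ → MvPolynomial σ ℤ}
  {J : MvPolynomial σ ℤ}

theorem taylor (F : MvPolynomial σ ℤ) (x z : σ → ℤ) (p : ℤ) :
    ∃ b : ℤ, eval (fun j => x j + p * z j) F =
      eval x F + p * ∑ j, z j * eval x (pderiv j F) + p ^ 2 * b := by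
  induction F using MvPolynomial.induction_on with
  | C a => exact ⟨0, by simp⟩
  | add F G hF hG =>
    obtain ⟨b, hb⟩ := hF
    obtain ⟨c, hc⟩ := hG
    refine ⟨b + c, ?_⟩
    simp only [map_add, hb, hc, mul_add, Finset.sum_add_distrib]
    ring
  | mul_X F k hF =>
    obtain ⟨b, hb⟩ := hF
    refine ⟨b * x k + (∑ j, z j * eval x (pderiv j F)) * z k + p * b * z k, ?_⟩
    have h1 : ∑ j, z j * eval x (pderiv j (F * X k)) =
        (∑ j, z j * eval x (pderiv j F)) * x k + z k * eval x F := by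
      simp only [pderiv_mul, map_add, map_mul, eval_X, mul_add, Finset.sum_add_distrib,
        Finset.sum_mul, mul_assoc]
      congr 1
      rw [Finset.sum_eq_single k]
      · simp
      · intro j _ hj
        simp [pderiv_X_of_ne hj.symm]
      · simp
    rw [h1, map_mul, map_mul, hb, eval_X, eval_X]
    ring

theorem Stage.init (L : ℕ) (W : Finset (σ → ℤ)) :
    Stage L W univ (fun i j => if i = j then 1 else 0) 1 0 where
  diag := fun _ _ _ _ => rfl
  szv := fun i j => by
    by_cases h : i = j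
    · simpa only [if_pos h] using Sz.one 0
    · simpa only [if_neg h] using Sz.zero 0
  szJ := Sz.one 0
  ne := fun x _ => by simp
  tan := fun x _ y _ p z _ _ j => by
    rw [Finset.sum_eq_single j]
    · simp
    · intro i _ hi
      simp [hi]
    · simp

theorem der_init (i : σ) (g : MvPolynomial σ ℤ) :
    der (fun j => if i = j then 1 else 0) g = pderiv i g := by
  simp [der]

theorem Stage.subset (hS : Stage L W I v J e) {W' : Finset (σ → ℤ)} (h : W' ⊆ W) :
    Stage L W' I v J e :=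
  ⟨hS.diag, hS.szv, hS.szJ, fun x hx => hS.ne x (h hx), fun x hx y hy => hS.tan x (h hx) y (h hy)⟩

theorem Stage.mono (hS : Stage L W I v J e) {e' : ℕ} (h : e ≤ e') : Stage L W I v J e' :=
  ⟨hS.diag, fun i j => (hS.szv i j).mono h, hS.szJ.mono h, hS.ne, hS.tan⟩

theorem der_step (v : σ → σ → MvPolynomial σ ℤ) (F : MvPolynomial σ ℤ) (i0 i : σ) :
    der (fun j => der (v i0) F * v i j - der (v i) F * v i0 j) F = 0 := by
  have h : ∀ A B : MvPolynomial σ ℤ, der (fun j => A * v i j - B * v i0 j) F =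
      A * der (v i) F - B * der (v i0) F := by
    intro A B
    simp only [der, sub_mul, Finset.sum_sub_distrib, Finset.mul_sum, mul_assoc]
  rw [h]
  ring

/- Gauss elimination step.  `tan`: by `taylor`, p divides the sum of z j * (pderiv j F)(x);
multiply by J(x) and use the old `tan` to get p dividing the sum over i in I of
z i * (der (v i) F)(x); then split off i0. -/
theorem Stage.step (hS : Stage L W I v J e) (hL : 1 ≤ L) (hσ : Fintype.card σ ≤ 2 ^ L)
    {F : MvPolynomial σ ℤ} {a : ℕ} (hF : Sz L F a) (ha : a ≤ 2 ^ L)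
    (hFW : ∀ x ∈ W, eval x F = 0) {i0 : σ} (hi0 : i0 ∈ I) :
    Stage L (W.filter fun x => eval x (der (v i0) F) ≠ 0) (I.erase i0)
      (fun i j => der (v i0) F * v i j - der (v i) F * v i0 j) (der (v i0) F * J)
      (a + 2 * e + 3) := by
  have hd : ∀ i, Sz L (der (v i) F) (a + (e + 2)) := fun i => Sz.der (hS.szv i) hF ha hσ
  refine ⟨fun i hi j hj => ?_, fun i j => ?_, ?_, fun x hx => ?_, fun x hx y hy p z hp hxy j => ?_⟩
  · rw [hS.diag i (mem_of_mem_erase hi) j (mem_of_mem_erase hj),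
      hS.diag i0 hi0 j (mem_of_mem_erase hj), if_neg (ne_of_mem_erase hj).symm]
    split_ifs <;> simp
  · exact (Sz.sub hL ((hd i0).mul (hS.szv i j)) ((hd i).mul (hS.szv i0 j))).mono (by omega)
  · exact ((hd i0).mul hS.szJ).mono (by omega)
  · rw [map_mul]
    exact mul_ne_zero (mem_filter.1 hx).2 (hS.ne x (mem_filter.1 hx).1)
  · have hx' := (mem_filter.1 hx).1
    have hy' := (mem_filter.1 hy).1
    have ht := hS.tan x hx' y hy' p z hp hxy
    obtain ⟨b, hb⟩ := taylor F x z p
    rw [← funext hxy, hFW x hx', hFW y hy'] at hb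
    have h1 : p ∣ ∑ k, z k * eval x (pderiv k F) :=
      ⟨-b, mul_left_cancel₀ hp (by linear_combination -hb)⟩
    have h2 : p ∣ ∑ k, (eval x J * z k - ∑ i ∈ I, z i * eval x (v i k)) * eval x (pderiv k F) :=
      Finset.dvd_sum fun k _ => (ht k).mul_right _
    have h3 : ∑ k, (eval x J * z k - ∑ i ∈ I, z i * eval x (v i k)) * eval x (pderiv k F) =
        eval x J * ∑ k, z k * eval x (pderiv k F) - ∑ i ∈ I, z i * eval x (der (v i) F) := by
      simp only [der, map_sum, map_mul, sub_mul, Finset.sum_sub_distrib, Finset.mul_sum,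
        Finset.sum_mul, mul_assoc]
      rw [Finset.sum_comm]
    have h4 : p ∣ ∑ i ∈ I, z i * eval x (der (v i) F) := by
      rw [h3] at h2
      exact (dvd_sub_right (h1.mul_left _)).1 h2
    have h5 : ∑ i ∈ I.erase i0, z i * eval x (der (v i0) F * v i j - der (v i) F * v i0 j) =
        eval x (der (v i0) F) * ∑ i ∈ I, z i * eval x (v i j) -
          eval x (v i0 j) * ∑ i ∈ I, z i * eval x (der (v i) F) := by
      rw [Finset.sum_erase _ (by simp), Finset.mul_sum, Finset.mul_sum, ← Finset.sum_sub_distrib]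
      refine Finset.sum_congr rfl fun i _ => ?_
      simp only [map_sub, map_mul]
      ring
    rw [h5, map_mul]
    have h6 := dvd_add ((ht j).mul_left (eval x (der (v i0) F))) (h4.mul_left (eval x (v i0 j)))
    refine (dvd_iff_dvd_of_dvd_sub ?_).2 h6
    exact ⟨0, by ring⟩

/- Induction on l: if wd v l F vanishes on W take it with the head letter, else use the tail. -/
theorem descend (hS : Stage L W I v J e) (hσ : Fintype.card σ ≤ 2 ^ L) {F : MvPolynomial σ ℤ}
    {a μ : ℕ} (hF : Sz L F a) (ha : a + μ * (e + 2) ≤ 2 ^ L) (hFW : ∀ x ∈ W, eval x F = 0)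
    {l : List σ} (hl : ∀ i ∈ l, i ∈ I) (hμ : l.length ≤ μ)
    (hx : ∃ x ∈ W, eval x (wd v l F) ≠ 0) :
    ∃ F' : MvPolynomial σ ℤ, Sz L F' (a + μ * (e + 2)) ∧ (∀ x ∈ W, eval x F' = 0) ∧
      ∃ i ∈ I, ∃ x ∈ W, eval x (der (v i) F') ≠ 0 := by
  induction l with
  | nil =>
    obtain ⟨x, hx, h⟩ := hx
    exact absurd (hFW x hx) h
  | cons i l ih =>
    have hμ' : l.length ≤ μ := le_trans (by simp) hμ
    by_cases h : ∀ x ∈ W, eval x (wd v l F) = 0
    · exact ⟨wd v l F, Sz.wd hS.szv hF hσ hμ' ha, h, i, hl i List.mem_cons_self, hx⟩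
    · push Not at h
      exact ih (fun j hj => hl j (List.mem_cons_of_mem _ hj)) hμ' h

omit [Fintype σ] in
theorem Step_mem {F : MvPolynomial σ ℤ} {i : σ} {m : σ →₀ ℕ} :
    m ∈ (pderiv i F).support ↔ m + Finsupp.single i 1 ∈ F.support := by
  rw [MvPolynomial.mem_support_iff, MvPolynomial.mem_support_iff, coeff_pderiv,
    mul_ne_zero_iff_right]
  positivity

theorem Step_down (hW : W.Nonempty) (n : ℕ) : n ≤ 2 ^ L → ∀ F : MvPolynomial σ ℤ, F ≠ 0 →
    (∀ m ∈ F.support, ∀ j ∉ I, m j = 0) → F.totalDegree ≤ n → (∀ x ∈ W, eval x F = 0) →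
    ∃ F' : MvPolynomial σ ℤ, F'.totalDegree ≤ n ∧ nrm F' ≤ 2 ^ (n * L) * nrm F ∧
      (∀ m ∈ F'.support, ∀ j ∉ I, m j = 0) ∧ (∀ x ∈ W, eval x F' = 0) ∧
        ∃ i ∈ I, ∃ x ∈ W, eval x (pderiv i F') ≠ 0 := by
  have h0 : ∀ F : MvPolynomial σ ℤ, F ≠ 0 → (∀ x ∈ W, eval x F = 0) → F.totalDegree ≠ 0 := by
    intro F hF hFW h
    obtain ⟨x, hx⟩ := hW
    have h1 := hFW x hx
    rw [totalDegree_eq_zero_iff_eq_C.1 h, eval_C] at h1
    exact hF (by rw [totalDegree_eq_zero_iff_eq_C.1 h, h1, C_0])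
  induction n with
  | zero => exact fun _ F hF _ hd hFW => absurd (Nat.le_zero.1 hd) (h0 F hF hFW)
  | succ n ih =>
    intro hn F hF hI hd hFW
    by_cases h : ∃ i ∈ I, ∃ x ∈ W, eval x (pderiv i F) ≠ 0
    · exact ⟨F, hd, Nat.le_mul_of_pos_left _ (by positivity), hI, hFW, h⟩
    push Not at h
    have h1 : ∃ i ∈ I, pderiv i F ≠ 0 := by
      by_contra hc
      push Not at hc
      refine h0 F hF hFW ((totalDegree_eq_zero_iff σ F).2 fun m hm j => ?_)
      by_contra hj
      have hjI : j ∈ I := by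
        by_contra h2
        exact hj (hI m hm j h2)
      have h3 : m - Finsupp.single j 1 + Finsupp.single j 1 = m :=
        tsub_add_cancel_of_le (Finsupp.single_le_iff.2 (Nat.one_le_iff_ne_zero.2 hj))
      have h4 : m - Finsupp.single j 1 ∈ (pderiv j F).support := Step_mem.2 (by rwa [h3])
      rw [hc j hjI] at h4
      simp at h4
    obtain ⟨i, hi, hne⟩ := h1
    obtain ⟨F', e1, e2, e3, e4, e5⟩ := ih (by omega) (pderiv i F) hne
      (fun m hm j hj => by
        have := hI _ (Step_mem.1 hm) j hj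
        rw [Finsupp.add_apply] at this
        omega)
      (by
        refine Finset.sup_le fun m hm => ?_
        have := (le_totalDegree (Step_mem.1 hm)).trans hd
        rw [Finsupp.sum_add_index' (fun _ => rfl) (fun _ _ _ => rfl),
          Finsupp.sum_single_index rfl] at this
        omega) (h i hi)
    refine ⟨F', by omega, e2.trans ?_, e3, e4, e5⟩
    rw [add_mul, one_mul, pow_add, mul_assoc]
    exact Nat.mul_le_mul_left _
      ((nrm_pderiv_le i F).trans (Nat.mul_le_mul_right _ (hd.trans hn)))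

/- Few points: `siegel` with the g ^ |I| monomials in the variables of I with exponents below g
(index type I → Fin g) gives F0 ≠ 0 vanishing on W, degree ≤ D = |I| g, nrm ≤ 2 ^ (2 D L)
(g ≥ 2).  Then strong induction on the degree: if every pderiv i F (i in I) vanishes on W pass to
a nonzero one (all zero means F constant, hence zero); each step multiplies nrm by at most D.
For F with vars in I, der (v i) F = J * pderiv i F by `diag`. -/
theorem small_eq (hS : Stage L W I v J e) (hW : W.Nonempty) (hL : 1 ≤ L)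
    (hB : ∀ x ∈ W, ∀ j, |x j| ≤ 2 ^ L) {g : ℕ} (hg : 2 * W.card ≤ g ^ I.card)
    (hgL : I.card * g ≤ 2 ^ L) :
    ∃ F : MvPolynomial σ ℤ, Sz L F (4 * (I.card * g)) ∧ (∀ x ∈ W, eval x F = 0) ∧
      ∃ i ∈ I, ∃ x ∈ W, eval x (der (v i) F) ≠ 0 := by
  have hWc : 0 < W.card := hW.card_pos
  have hcard : Fintype.card (I → Fin g) = g ^ I.card := by simp
  let mo : (I → Fin g) → σ →₀ ℕ := fun t => Finsupp.equivFunOnFinite.symm
    fun s => if h : s ∈ I then (t ⟨s, h⟩ : ℕ) else 0
  have mo_in : ∀ t (s : I), mo t s.1 = t s := fun t s => by simp [mo, s.2]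
  have mo_out : ∀ t, ∀ s ∉ I, mo t s = 0 := fun t s hs => by simp [mo, hs]
  have mo_inj : Function.Injective mo := fun t t' h => funext fun s => Fin.ext (by
    rw [← mo_in, ← mo_in, h])
  have mo_deg : ∀ t, ((mo t).sum fun _ k => k) ≤ I.card * g := fun t => by
    rw [Finsupp.sum_of_support_subset _ (s := I) (fun s hs => by
      by_contra h
      exact Finsupp.mem_support_iff.1 hs (mo_out t s h)) _ (fun _ _ => rfl), ← smul_eq_mul]
    refine Finset.sum_le_card_nsmul _ _ _ fun s hs => ?_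
    rw [mo_in t ⟨s, hs⟩]
    exact (t _).2.le
  obtain ⟨c, hc0, hc1, hc2⟩ := siegel (X := W) (ι := I → Fin g)
    (fun x t => eval x.1 (monomial (mo t) (1 : ℤ))) (B := 2 ^ (I.card * g * L)) (h := W.card)
    Nat.one_le_two_pow
    (fun x t => by
      rw [eval_monomial, one_mul, Finsupp.prod, Finset.abs_prod]
      calc ∏ s ∈ (mo t).support, |x.1 s ^ mo t s| ≤ ∏ s ∈ (mo t).support, (2 ^ L : ℤ) ^ mo t s :=
            Finset.prod_le_prod (fun _ _ => abs_nonneg _) fun s _ => by
              rw [abs_pow]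
              exact pow_le_pow_left₀ (abs_nonneg _) (hB x.1 x.2 s) _
        _ = (2 ^ L : ℤ) ^ ((mo t).sum fun _ k => k) := by
            rw [Finset.prod_pow_eq_pow_sum, Finsupp.sum]
        _ ≤ (2 ^ L : ℤ) ^ (I.card * g) := pow_le_pow_right₀ (one_le_pow₀ one_le_two) (mo_deg t)
        _ = ((2 ^ (I.card * g * L) : ℕ) : ℤ) := by
            rw [← pow_mul, mul_comm L]
            norm_cast)
    ((Submodule.finrank_le _).trans (by simp)) (by rw [hcard]; exact hg) (by rw [hcard]; omega)
  set F₀ : MvPolynomial σ ℤ := ∑ t, monomial (mo t) (c t) with hF₀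
  have hco : ∀ t, F₀.coeff (mo t) = c t := fun t => by
    rw [hF₀, coeff_sum, Finset.sum_eq_single t]
    · simp
    · intro t' _ ht
      rw [coeff_monomial, if_neg (mo_inj.ne ht)]
    · simp
  have hsup : ∀ m ∈ F₀.support, ∃ t, mo t = m := fun m hm => by
    by_contra h
    push Not at h
    refine MvPolynomial.mem_support_iff.1 hm ?_
    rw [hF₀, coeff_sum]
    exact Finset.sum_eq_zero fun t _ => by rw [coeff_monomial, if_neg (h t)]
  have hne : F₀ ≠ 0 := fun h => hc0 (funext fun t => by rw [← hco, h]; simp)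
  have hg2 : g ^ I.card ≤ 2 ^ (I.card * g * L) := by
    calc g ^ I.card ≤ (2 ^ g) ^ I.card := Nat.pow_le_pow_left Nat.lt_two_pow_self.le _
      _ = 2 ^ (I.card * g) := by rw [← pow_mul, mul_comm]
      _ ≤ 2 ^ (I.card * g * L) :=
        Nat.pow_le_pow_right two_pos (Nat.le_mul_of_pos_right _ hL)
  have hnrm : nrm F₀ ≤ 2 ^ (3 * (I.card * g * L)) := by
    refine (nrm_sum_le _ _).trans ((Finset.sum_le_card_nsmul _ _
      (g ^ I.card * 2 ^ (I.card * g * L)) fun t _ => ?_).trans ?_)
    · rw [nrm_monomial]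
      have := hc1 t
      rw [hcard, ← Int.natCast_natAbs] at this
      exact_mod_cast this
    · rw [Finset.card_univ, hcard, smul_eq_mul, show 3 * (I.card * g * L) =
        I.card * g * L + (I.card * g * L + I.card * g * L) by ring, pow_add, pow_add]
      exact Nat.mul_le_mul hg2 (Nat.mul_le_mul_right _ hg2)
  obtain ⟨F, e1, e2, e3, e4, i, hi, x, hx, e5⟩ := Step_down (I := I) hW (I.card * g) hgL F₀ hne
    (fun m hm j hj => by
      obtain ⟨t, rfl⟩ := hsup m hm
      exact mo_out t j hj)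
    (Finset.sup_le fun m hm => by
      obtain ⟨t, rfl⟩ := hsup m hm
      exact mo_deg t)
    (fun x hx => by
      rw [hF₀, map_sum, ← hc2 ⟨x, hx⟩]
      refine Finset.sum_congr rfl fun t _ => ?_
      simp only [eval_monomial]
      ring)
  refine ⟨F, ⟨by omega, e2.trans ?_⟩, e4, i, hi, x, hx, ?_⟩
  · rw [show 4 * (I.card * g) * L = I.card * g * L + 3 * (I.card * g * L) by ring, pow_add]
    exact Nat.mul_le_mul_left _ hnrm
  · have h1 : der (v i) F = J * pderiv i F := by
      rw [der, Finset.sum_eq_single i]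
      · rw [hS.diag i hi i hi, if_pos rfl]
      · intro j _ hj
        by_cases hjI : j ∈ I
        · rw [hS.diag i hi j hjI, if_neg hj.symm, zero_mul]
        · have : pderiv j F = 0 := by
            by_contra h
            obtain ⟨m, hm⟩ := support_nonempty.2 h
            have := e3 _ (Step_mem.1 hm) j hjI
            simp at this
          rw [this, mul_zero]
      · simp
    rw [h1, map_mul]
    exact mul_ne_zero (hS.ne x hx) e5

end Pool.Agent.P.MP_d565f2_an.LS
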